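import Pool.Agent.P.MP_d66c6d_pr.N.Defs

/-!
Statements of the chapter on no touching.
-/

namespace Pool.Agent.P.MP_d66c6d_pr

open MeasureTheory ProbabilityTheory Set Metric Filter Topology
open scoped ENNReal

-- deps: CI
/-- Conformal invariance of the loop measure on the space of traces. -/
def S_CIK : Prop := ∀ ν : Measure Br, IsBridge ν → ∀ (D : Set ℂ) (f g : ℂ → ℂ), Conf D f g →
  Measurable (imK D f) ∧
  ((muK ν).restrict (inK D)).map (imK D f) = (muK ν).restrict (inK (ball 0 1))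

-- deps: RCH JOINT
/-- The reached set is the set of traces that meet the explored set; chains are measurable. -/
def S_JMN : Prop :=
  (∀ (A : Set ℂ) (S : Cfg KC), rch meetK (hitK A) S = hitK (A ∪ kset A (sets S))) ∧
  (∀ (A : Set ℂ) (c : ℝ) (S : Cfg (KC × ℝ)),
    rch (fun u v : KC × ℝ => u.2 ≤ c ∧ meetK u.1 v.1) (Prod.fst ⁻¹' hitK A) S =
      Prod.fst ⁻¹' hitK (A ∪ kset A (sets (lev c S)))) ∧
  (∀ (Y : Type) [MeasurableSpace Y] (A B : Y → Set ℂ),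
    MeasurableSet {q : Y × KC | q.2 ∈ hitK (A q.1)} →
    MeasurableSet {q : Y × KC | q.2 ∈ hitK (B q.1)} →
    MeasurableSet {q : Y × Cfg KC | LF stdA q.2 ∧ Joins (sets q.2) (A q.1) (B q.1)}) ∧
  (∀ A B : Set ℂ, MeasurableSet (hitK A) → MeasurableSet (hitK B) →
    MeasurableSet {S : Cfg KC | LF stdA S ∧ Joins (sets S) A B}) ∧
  MeasurableSet {S : Cfg KC | LF stdA S} ∧ MeasurableSet BTe ∧ ∀ i, MeasurableSet (EB (rb i))

-- deps: PPO JOINT MUK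
/-- Regularity of soups; decreasing properties pass to smaller intensities. -/
def S_DEC : Prop :=
  (∀ (E : Type) [MeasurableSpace E] (m M : Measure E), SigmaFinite M → m ≤ M →
    ∀ p : Cfg E → Prop, (∀ S T : Cfg E, S.pts ⊆ T.pts → p T → p S) →
    (∀ᵐ S ∂PP M, p S) → ∀ᵐ S ∂PP m, p S) ∧
  ∀ ν : Measure Br, IsBridge ν → ∀ c : ℝ,
    SigmaFinite (ENNReal.ofReal c • muK ν) ∧
    (∀ A, SigmaFinite (ENNReal.ofReal c • (muK ν).restrict A)) ∧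
    (∀ m : Measure KC, m ≤ ENNReal.ofReal c • muK ν → ∀ᵐ S ∂PP m, LF stdA S ∧ Conn S) ∧
    ∀ U, ∀ᵐ S ∂soupN ν c U, LF stdA S ∧ Conn S ∧ (IsOpen U → S.pts ⊆ inK U)

-- deps: PPO MUK
/-- Every fixed point is enclosed by arbitrarily small loops. -/
def S_SURK : Prop := ∀ ν : Measure Br, IsBridge ν → ∀ c : ℝ, 0 < c → ∀ U : Set ℂ, IsOpen U →
  ∀ x ∈ U, ∀ᵐ S ∂soupN ν c U, ∀ r > (0 : ℝ), ∃ K : KC, K ∈ S.pts ∧ ∃ s > (0 : ℝ),
    ball x s ⊆ fill (K : Set ℂ) ∧ (K : Set ℂ) ⊆ ball x r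

-- deps: PPO DEC JMN MUK
/-- Monotonicity in the intensity. -/
def S_MONO : Prop := ∀ ν : Measure Br, IsBridge ν →
  (∀ (U : Set ℂ) (c c' : ℝ), 0 ≤ c → 0 ≤ c' →
    ((soupN ν c U).prod (soupN ν c' U)).map (fun p => p.1 ∪ p.2) = soupN ν (c + c') U) ∧
  (∀ (U : Set ℂ) (E : Set (Cfg KC)), MeasurableSet E →
    (∀ S T : Cfg KC, LF stdA T → S ∈ E → S ∪ T ∈ E) →
    MonotoneOn (fun c => soupN ν c U E) (Ici 0)) ∧
  ∀ c c' : ℝ, c ≤ c' → Sub ν c' → Sub ν c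

-- deps: PPO PPE DEC JMN MUK
/-- With positive probability no chain crosses the annulus. -/
def S_POS : Prop := ∀ ν : Measure Br, IsBridge ν → ∀ c : ℝ, Sub ν c →
  soupN ν c (ball 0 3) {S | LF stdA S ∧ ¬ Joins (sets S) (ball 0 2)ᶜ (ball 0 1)} ≠ 0

-- deps: JMN EXCH CONF
/-- Deterministic gluing at a touching point. -/
def S_GLUE : Prop := ∀ (S S' Φ : Cfg KC) (D : Set ℂ) (f g : ℂ → ℂ), Conn S → Conn S' →
  D = connectedComponentIn (closure ((ball 0 2)ᶜ ∪ kset (ball 0 2)ᶜ (sets S)))ᶜ 0 → Conf D f g →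
  Φ.pts = (S.pts ∩ rch meetK (hitK (ball 0 2)ᶜ) S) ∪ (S'.pts \ rch meetK (hitK (ball 0 2)ᶜ) S) →
  (S'.res (inK D)).map (imK D f) ∈ BTe →
  ∃ i, ¬ Joins (sets Φ) (ball 0 2)ᶜ (rb i) ∧ ∃ x ∈ closedBall (0 : ℂ) 2, ∀ T : Cfg KC,
    (∀ r > (0 : ℝ), ∃ K : KC, K ∈ T.pts ∧ ∃ s > (0 : ℝ),
      ball x s ⊆ fill (K : Set ℂ) ∧ (K : Set ℂ) ⊆ ball x r) →
    Joins (sets (Φ ∪ T)) (ball 0 2)ᶜ (rb i)

-- deps: CIK RMT IMG PPO DEC MUK
/-- The law of the image soup, and the hole of the origin. -/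
def S_IMS : Prop :=
  (∀ ν : Measure Br, IsBridge ν → ∀ (D : Set ℂ) (f g : ℂ → ℂ), Conf D f g → ∀ (c : ℝ)
    (V : Set ℂ), D ⊆ V → MeasurePreserving (fun S : Cfg KC => (S.res (inK D)).map (imK D f))
      (soupN ν c V) (soupN ν c (ball 0 1))) ∧
  ∀ S : Cfg KC, Conn S → ¬ Joins (sets S) (ball 0 2)ᶜ (ball 0 1) → ∀ D : Set ℂ,
    D = connectedComponentIn (closure ((ball 0 2)ᶜ ∪ kset (ball 0 2)ᶜ (sets S)))ᶜ 0 →
    D ⊆ ball 0 3 ∧ ∃ f g, Conf D f g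

-- deps: EXCH JMN DEC SURK MONO POS GLUE IMS
/-- Touching of the unit circle forces a jump of a crossing probability. -/
def S_JMP : Prop := ∀ ν : Measure Br, IsBridge ν → ∀ c : ℝ, 0 ≤ c → Sub ν c →
  soupN ν c (ball 0 1) BTe ≠ 0 → ∃ (i : ℕ) (η : ℝ≥0∞), η ≠ 0 ∧ ∀ n : ℕ,
    soupN ν c (ball 0 3) (EB (rb i)) + η ≤ soupN ν (c + 1 / ((n : ℝ) + 1)) (ball 0 3) (EB (rb i))

-- deps: JMP MONO JMN
/-- No touching of the unit circle. -/
def S_NTJ : Prop := ∀ ν : Measure Br, IsBridge ν → ∀ c c' : ℝ, 0 ≤ c → c < c' → Sub ν c' →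
  soupN ν c (ball 0 1) BTe = 0

-- deps: NTJ IMS RMT JMN DEC CONF
/-- Clusters of the loops inside a domain without holes have their closure inside. -/
def S_NC : Prop := ∀ ν : Measure Br, IsBridge ν → ∀ c c' : ℝ, 0 ≤ c → c < c' → Sub ν c' →
  ∀ U : Set ℂ, IsOpen U → IsPreconnected U → NoHole U → U ≠ univ →
  ∀ᵐ S ∂PP (ENNReal.ofReal c • muK ν), ∀ K ∈ sets S, K ⊆ U →
    closure (cluster {K ∈ sets S | K ⊆ U} K) ⊆ U

-- deps: PPO MUK JMN DEC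
/-- Clusters of small loops are small. -/
def S_SMALL : Prop := ∀ ν : Measure Br, IsBridge ν → ∀ c : ℝ, Sub ν c →
  ∀ᵐ S ∂PP (ENNReal.ofReal c • muK ν), Small S

-- deps:
/-- Deterministic reduction to small discs. -/
def S_NLD : Prop := ∀ (S : Cfg KC) (L V : Set ℂ), LF stdA S → Conn S → Small S → IsClosed L →
  L.Nontrivial → Bornology.IsBounded V →
  (∀ i j : ℕ, ¬ L ⊆ rb i → ∀ W : Set ℂ,
    W = connectedComponentIn (L ∪ (rb i)ᶜ)ᶜ (TopologicalSpace.denseSeq ℂ j) →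
    ∀ K ∈ sets S, K ⊆ W → closure (cluster {K ∈ sets S | K ⊆ W} K) ⊆ W) →
  ∀ K ∈ sets S, K ⊆ V → Disjoint K L →
    Disjoint (closure (cluster {K ∈ sets S | K ⊆ V ∧ Disjoint K L} K)) L

-- deps: NC SMALL NLD IMG DEC MONO
/-- Clusters of the loops that avoid a continuum stay away from it. -/
def S_NL : Prop := ∀ ν : Measure Br, IsBridge ν → ∀ c c' : ℝ, 0 ≤ c → c < c' → Sub ν c' →
  ∀ L V : Set ℂ, IsClosed L → IsPreconnected L → L.Nontrivial → Bornology.IsBounded V →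
  ∀ᵐ S ∂PP (ENNReal.ofReal c • muK ν), ∀ K ∈ sets S, K ⊆ V → Disjoint K L →
    Disjoint (closure (cluster {K ∈ sets S | K ⊆ V ∧ Disjoint K L} K)) L

-- deps: SPLIT BM GM REV
/-- The Markov property at a fixed time, scaling, and absolute continuity of bridges. -/
def S_BMK : Prop := ∀ ν : Measure Br, IsBridge ν →
  (∀ (t : ℝ) (F : ℂ × Br → ℝ≥0∞), Measurable F →
    Measurable fun x => ∫⁻ β, F (x, β) ∂bmM ν t x) ∧
  ∀ t : ℝ, 0 < t → ∀ x : ℂ,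
    (∀ s ∈ Ioo (0 : ℝ) 1, ∀ Ψ : Br × Br → ℝ≥0∞, Measurable Ψ →
      ∫⁻ γ, Ψ (sub 0 s γ, sub s 1 γ) ∂bmM ν t x =
        ∫⁻ α, ∫⁻ β, Ψ (α, β) ∂bmM ν ((1 - s) * t) (α 1) ∂bmM ν (s * t) x) ∧
    (∀ s ∈ Ioo (0 : ℝ) 1, (bmM ν t x).map (sub 0 s) = bmM ν (s * t) x) ∧
    (bmM ν 1 0).map (fun γ => ContinuousMap.const _ x + (√t : ℂ) • γ) = bmM ν t x ∧
    (bmM ν t x).map (fun γ => γ 1) = (gm t).map (fun z => x + z) ∧
    ∀ s ∈ Ioo (0 : ℝ) 1, ∀ y, (brM ν t x y).map (sub 0 s) ≪ bmM ν (s * t) x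

-- deps:
/-- The enclosure condition is closed and monotone. -/
def S_ENC : Prop :=
  (∀ a r : ℝ, IsClosed {q : ℂ × Br | Enc q.2 q.1 a r}) ∧
  (∀ (γ γ' : Br) (z z' : ℂ) (a a' r r' : ℝ), range γ ⊆ range γ' → a' + dist z z' ≤ a →
    r + dist z z' ≤ r' → Enc γ z a r → Enc γ' z' a' r') ∧
  (∀ (γ : Br) (z x : ℂ) (a r k : ℝ), 0 < k →
    (Enc (ContinuousMap.const _ x + (k : ℂ) • γ) (x + k * z) (k * a) (k * r) ↔ Enc γ z a r)) ∧
  ∀ (γ : Br) (z : ℂ) (a r : ℝ) (C : Set ℂ), 0 < a → Enc γ z a r → IsPreconnected C →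
    z ∈ closure C → ¬ C ⊆ closedBall z r → (range γ ∩ C).Nonempty

-- deps: BMK ENC GM BM CUT REV CIRC
-- imports: Pool.Agent.P.MP_d66c6d_pr.S.Supp
/-- Brownian motion winds around its starting point immediately. -/
def S_START : Prop := ∀ ν : Measure Br, IsBridge ν → ∀ t : ℝ, 0 < t → ∀ r : ℝ, 0 < r →
  ∀ η : ℝ≥0∞, η ≠ 0 → ∃ a > (0 : ℝ), ∀ t' : ℝ, t ≤ t' → ∀ x : ℂ,
    bmM ν t' x {γ | ¬ Enc γ x a r} ≤ η

-- deps: ENC
/-- The winding property is measurable. -/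
def S_CIRM : Prop := ∀ F : Set ℂ, IsClosed F → MeasurableSet {γ : Br | CircH F γ}

-- deps: START BMK ENC CUT REV BM
/-- Brownian motion winds around its first point in a closed set. -/
def S_HITB : Prop := ∀ ν : Measure Br, IsBridge ν → ∀ t : ℝ, 0 < t → ∀ (x : ℂ) (F : Set ℂ),
  IsClosed F → ∀ᵐ γ ∂bmM ν t x, CircH F γ

-- deps: HITB CIRM BMK ENC CUT REV MUK
/-- The same for bridges, Green measures and loops. -/
def S_HITG : Prop := ∀ ν : Measure Br, IsBridge ν →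
  (∀ F : Set ℂ, IsClosed F → (∀ t x y, ∀ᵐ γ ∂brM ν t x y, CircH F γ) ∧
    (∀ x y, ∀ᵐ p ∂grM ν x y, CircH F p.2) ∧ ∀ᵐ l ∂loopMeasure ν, CircH F (lp l).2) ∧
  ∀ C : Set ℂ, IsPreconnected C → C.Nontrivial →
    ∀ᵐ K ∂muK ν, K ∈ hitK (closure C) → K ∈ hitK C

-- deps: JMN RCH JOINT ENUM
/-- The two no-touching events are measurable. -/
def S_EXM : Prop := ∀ (A : Set ℂ) (c₀ c₁ R : ℝ), IsCompact A →
  ∃ G : Set (Cfg (KC × ℝ)), MeasurableSet G ∧ ∀ S : Cfg (KC × ℝ),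
    LF (fun j => Prod.fst ⁻¹' stdA j) S → (∀ p ∈ S.pts, p.1 ∈ inK (ball 0 R)) →
    (S ∈ G ↔ (∀ p ∈ S.pts, p.1 ∈ hitK (closure (A ∪ kset A (sets (lev c₀ S)))) →
        p.1 ∈ hitK (A ∪ kset A (sets (lev c₀ S)))) ∧
      ∀ K ∈ sets (lev c₁ S), Disjoint K (closure (A ∪ kset A (sets (lev c₀ S)))) →
        Disjoint (closure (cluster {K ∈ sets (lev c₁ S) |
          Disjoint K (closure (A ∪ kset A (sets (lev c₀ S))))} K))
          (closure (A ∪ kset A (sets (lev c₀ S)))))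

-- deps: EXM EXCH JMN NL HITG DEC MUK PPO JOINT
/-- No touching after the exploration of the clusters of a continuum. -/
def S_EXD : Prop := ∀ ν : Measure Br, IsBridge ν → ∀ c₀ c₁ c' : ℝ, 0 ≤ c₁ → c₁ ≤ 1 → c₁ < c' →
  Sub ν c' → ∀ V A : Set ℂ, IsOpen V → Bornology.IsBounded V → IsCompact A → IsPreconnected A →
  A.Nontrivial → ∀ᵐ S ∂PP (muL ((muK ν).restrict (inK V))),
    (∀ p ∈ S.pts, p.1 ∈ hitK (closure (A ∪ kset A (sets (lev c₀ S)))) →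
      p.1 ∈ hitK (A ∪ kset A (sets (lev c₀ S)))) ∧
    ∀ K ∈ sets (lev c₁ S), Disjoint K (closure (A ∪ kset A (sets (lev c₀ S)))) →
      Disjoint (closure (cluster {K ∈ sets (lev c₁ S) |
        Disjoint K (closure (A ∪ kset A (sets (lev c₀ S))))} K))
        (closure (A ∪ kset A (sets (lev c₀ S))))

end Pool.Agent.P.MP_d66c6d_pr
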