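import Pool.Agent.P.MP_d66c6d_pr.N.Iface
import Pool.Agent.P.MP_d66c6d_pr.C.Iface

/-! Step CIK of the carpet project. -/

namespace Pool.Agent.P.MP_d66c6d_pr

open MeasureTheory ProbabilityTheory Set Metric Filter Topology
open scoped ENNReal

namespace CikA

/-- The code of a trace. -/
def code (U : ℕ → Set ℂ) (K : KC) : ℕ → Prop := fun i => K ∈ hitK (U i)

theorem meas_code {U : ℕ → Set ℂ} (hU : ∀ i, IsOpen (U i)) : Measurable (code U) :=
  measurable_pi_lambda _ fun i => (isOpen_hitK (hU i)).measurableSet.mem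

theorem sub_of_code {K L : KC} (e : code rb K = code rb L) : (K : Set ℂ) ⊆ L := fun x hx => by
  by_contra hL
  obtain ⟨i, h1, h2⟩ := exists_rb L.isCompact.isClosed.isOpen_compl hL
  have h3 : code rb L i := e ▸ (⟨x, hx, h1⟩ : code rb K i)
  obtain ⟨y, h4, h5⟩ := h3
  exact h2 h5 h4

theorem emb_code : MeasurableEmbedding (code rb) :=
  (meas_code isOpen_rb).measurableEmbedding fun _ _ e =>
    TopologicalSpace.NonemptyCompacts.ext ((sub_of_code e).antisymm (sub_of_code e.symm))

theorem code_im {D : Set ℂ} {f : ℂ → ℂ} (hf : ContinuousOn f D) {K : KC} (hK : K ∈ inK D) :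
    code rb (imK D f K) = code (fun i => D ∩ f ⁻¹' rb i) K := by
  funext i
  simp only [code, hitK, mem_ofPred_eq, coe_imK hf hK, eq_iff_iff]
  constructor
  · rintro ⟨_, ⟨x, hx, rfl⟩, h⟩
    exact ⟨x, hx, hK hx, h⟩
  · rintro ⟨x, hx, -, h⟩
    exact ⟨f x, ⟨x, hx, rfl⟩, h⟩

theorem pre_im {D : Set ℂ} {f : ℂ → ℂ} (hf : ContinuousOn f D) (A : Set KC) :
    imK D f ⁻¹' A ∩ inK D = code (fun i => D ∩ f ⁻¹' rb i) ⁻¹' (code rb '' A) ∩ inK D := by
  ext K
  refine and_congr_left fun hK => ?_
  rw [mem_preimage, mem_preimage, ← code_im hf hK, emb_code.injective.mem_set_image]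

end CikA

theorem p_CIK (hCI : S_CI) :
    S_CIK := by
  intro ν hν D f g h
  have hf := h.diff.continuousOn
  have hU : ∀ i, IsOpen (D ∩ f ⁻¹' rb i) := fun i => hf.isOpen_inter_preimage h.op (isOpen_rb i)
  have hD : MeasurableSet (inK D) := (isOpen_inK h.op).measurableSet
  have hB : MeasurableSet (inK (ball (0 : ℂ) 1)) := (isOpen_inK isOpen_ball).measurableSet
  have hP : ∀ A : Set KC, MeasurableSet A → MeasurableSet (imK D f ⁻¹' A ∩ inK D) := fun A hA => by
    rw [CikA.pre_im hf]
    exact (CikA.meas_code hU (CikA.emb_code.measurableSet_image.2 hA)).inter hD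
  have hm : Measurable (imK D f) := fun A hA => by
    refine ((hP A hA).union (hA.diff hD)).congr ?_
    ext K
    by_cases hK : K ∈ inK D
    · simp [hK]
    · have : imK D f K = K := by rw [imK, dif_neg fun e => hK e.1]
      simp [hK, this]
  refine ⟨hm, Measure.ext fun A hA => ?_⟩
  have ht : Measurable fun l : Lp => trB (lp l).2 := by fun_prop
  rw [Measure.map_apply hm hA, Measure.restrict_apply (hm hA), Measure.restrict_apply hA, muK,
    Measure.map_apply ht (hP A hA), Measure.map_apply ht (hA.inter hB), CikA.pre_im hf]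
  have e := hCI ν hν D f g h rb isOpen_rb _ (CikA.emb_code.measurableSet_image.2 hA)
  have c1 : ∀ (U : ℕ → Set ℂ) (l : Lp), CikA.code U (trB (lp l).2) = cod U l := fun U l => by
    funext i
    simp only [CikA.code, hitK, mem_ofPred_eq, coe_trB, range_lp, cod]
  have c2 : ∀ (V : Set ℂ) (l : Lp), trB (lp l).2 ∈ inK V ↔ trace l ⊆ V := fun V l => by
    simp only [inK, mem_ofPred_eq, coe_trB, range_lp]
  refine Eq.trans (congrArg _ ?_) (e.trans (congrArg _ ?_))
  · ext l
    simp only [mem_preimage, mem_inter_iff, mem_ofPred_eq, c1, c2, and_comm]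
  · ext l
    simp only [mem_preimage, mem_inter_iff, mem_ofPred_eq, ← c1, c2,
      CikA.emb_code.injective.mem_set_image, and_comm]

end Pool.Agent.P.MP_d66c6d_pr
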