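import Pool.Agent.P.MP_d66c6d_pr.F.Iface
import Pool.Agent.P.MP_d66c6d_pr.C.Iface
import Pool.Agent.P.MP_d66c6d_pr.S.Dense

/-!
No touching: clusters of subcritical soups stay away from boundaries and from each other.
-/

namespace Pool.Agent.P.MP_d66c6d_pr

open MeasureTheory ProbabilityTheory Set Metric Filter Topology
open scoped ENNReal

/-- A countable base of open discs. -/
noncomputable def rb (i : ℕ) : Set ℂ :=
  ball (TopologicalSpace.denseSeq ℂ i.unpair.1) (1 / ((i.unpair.2 : ℝ) + 1))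

open Classical in
/-- The image of a trace contained in `D`. -/
noncomputable def imK (D : Set ℂ) (f : ℂ → ℂ) (K : KC) : KC :=
  if h : (K : Set ℂ) ⊆ D ∧ ContinuousOn f D then
    ⟨⟨f '' (K : Set ℂ), K.isCompact.image_of_continuousOn (h.2.mono h.1)⟩, K.nonempty.image f⟩
  else K

/-- The law of the soup of intensity `c` of the loops inside `U`. -/
noncomputable def soupN (ν : Measure Br) (c : ℝ) (U : Set ℂ) : Measure (Cfg KC) :=
  PP (ENNReal.ofReal c • (muK ν).restrict (inK U))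

/-- Subcriticality: chains of small loops do not cross an annulus. -/
def Sub (ν : Measure Br) (c : ℝ) : Prop := ∀ η : ℝ≥0∞, η ≠ 0 → ∃ δ > (0 : ℝ),
  PP (ENNReal.ofReal c • muK ν)
    {S | Joins (sets (S.res (bigK δ)ᶜ)) (closedBall 0 1) (ball 0 2)ᶜ} ≤ η

/-- All traces are connected. -/
def Conn (S : Cfg KC) : Prop := ∀ K ∈ S.pts, IsPreconnected (K : Set ℂ)

/-- Clusters of small traces are small. -/
def Small (S : Cfg KC) : Prop := ∀ R ρ : ℝ, 0 < ρ → ∃ δ > (0 : ℝ), ∀ z ∈ closedBall (0 : ℂ) R,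
  ¬ Joins (sets (S.res (bigK δ)ᶜ)) {z} (ball z ρ)ᶜ

/-- The union of the clusters of `T` that meet `A`. -/
def kset (A : Set ℂ) (T : Set (Set ℂ)) : Set ℂ :=
  ⋃ K ∈ {K ∈ T | (K ∩ A).Nonempty}, cluster T K

/-- Two traces meet. -/
def meetK (K L : KC) : Prop := ((K : Set ℂ) ∩ (L : Set ℂ)).Nonempty

/-- A chain joins the outside of the disc of radius two to `B`. -/
def EB (B : Set ℂ) : Set (Cfg KC) := {S | LF stdA S ∧ Joins (sets S) (ball 0 2)ᶜ B}

/-- Chains join a fixed smaller disc to points arbitrarily close to the unit circle. -/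
def BTe : Set (Cfg KC) := {S | LF stdA S ∧ ∃ j : ℕ, ∀ k : ℕ,
  Joins (sets S) (ball 0 (1 - 1 / ((j : ℝ) + 1))) (closedBall 0 (1 - 1 / ((k : ℝ) + 1)))ᶜ}

/-- The part of `γ` in the disc of radius `r` around `z` encloses the disc of radius `a`. -/
def Enc (γ : Br) (z : ℂ) (a r : ℝ) : Prop := closedBall z a ⊆ fill (range γ ∩ closedBall z r)

/-- The path winds around its first point in `F` immediately after it reaches it. -/
def CircH (F : Set ℂ) (γ : Br) : Prop := ∀ τ : unitInterval, (τ : ℝ) < 1 → γ τ ∈ F →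
  (∀ s < τ, γ s ∉ F) → ∀ r > (0 : ℝ), ∃ a > (0 : ℝ), Enc (sub τ 1 γ) (γ τ) a r

theorem isOpen_rb (i : ℕ) : IsOpen (rb i) := isOpen_ball

theorem exists_rb {O : Set ℂ} (hO : IsOpen O) {x : ℂ} (hx : x ∈ O) :
    ∃ i, x ∈ rb i ∧ rb i ⊆ O := by
  obtain ⟨ε, hε, hb⟩ := Metric.isOpen_iff.1 hO x hx
  obtain ⟨n, hn⟩ := exists_nat_one_div_lt (half_pos hε)
  obtain ⟨j, hj⟩ := (TopologicalSpace.denseRange_denseSeq ℂ).exists_dist_lt x
    (show (0 : ℝ) < 1 / ((n : ℝ) + 1) by positivity)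
  refine ⟨Nat.pair j n, by simpa [rb] using hj, fun w hw => hb ?_⟩
  simp only [rb, Nat.unpair_pair, mem_ball] at hw
  have := dist_triangle w (TopologicalSpace.denseSeq ℂ j) x
  rw [dist_comm] at hj
  rw [mem_ball]
  linarith

theorem coe_imK {D : Set ℂ} {f : ℂ → ℂ} (hf : ContinuousOn f D) {K : KC} (hK : K ∈ inK D) :
    (imK D f K : Set ℂ) = f '' (K : Set ℂ) := by
  rw [imK, dif_pos ⟨hK, hf⟩]
  rfl

instance instProbSoupN (ν : Measure Br) (c : ℝ) (U : Set ℂ) :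
    IsProbabilityMeasure (soupN ν c U) := instProbPP _

theorem mem_kset {A : Set ℂ} {T : Set (Set ℂ)} {z : ℂ} :
    z ∈ kset A T ↔ ∃ K ∈ T, (K ∩ A).Nonempty ∧ ∃ K', Lk T K K' ∧ z ∈ K' := by
  simp [kset, cluster, and_assoc]

theorem joins_iff_kset {A B : Set ℂ} {T : Set (Set ℂ)} :
    Joins T A B ↔ (kset A T ∩ B).Nonempty := by
  constructor
  · rintro ⟨K, hK, K', h, h1, z, hz, hz'⟩
    exact ⟨z, mem_kset.2 ⟨K, hK, h1, K', h, hz⟩, hz'⟩
  · rintro ⟨z, hz, hz'⟩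
    obtain ⟨K, hK, h1, K', h, hz⟩ := mem_kset.1 hz
    exact ⟨K, hK, K', h, h1, z, hz, hz'⟩

theorem measurableSet_meetK : MeasurableSet {p : KC × KC | meetK p.1 p.2} :=
  isClosed_meetK.measurableSet

end Pool.Agent.P.MP_d66c6d_pr
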