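import Pool.Agent.P.MP_d66c6d_pr.N.Iface
import Pool.Agent.P.MP_d66c6d_pr.B.Iface
import Pool.Agent.P.MP_d66c6d_pr.F.Iface

/-! Step HITG of the carpet project. -/

namespace Pool.Agent.P.MP_d66c6d_pr

open MeasureTheory ProbabilityTheory Set Metric Filter Topology
open scoped ENNReal

namespace HitgA

theorem s_mem (n : ℕ) : (1 - 1 / ((n : ℝ) + 2)) ∈ Ioo (0 : ℝ) 1 := by
  have h2 : (0 : ℝ) < (n : ℝ) + 2 := by positivity
  have h3 : 1 / ((n : ℝ) + 2) < 1 := by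
    rw [div_lt_one h2]
    have : (0 : ℝ) ≤ n := Nat.cast_nonneg n
    linarith
  have h4 : 0 < 1 / ((n : ℝ) + 2) := by positivity
  constructor <;> linarith

theorem circ_of_sub (hENC : S_ENC) (hCUT : S_CUT) (F : Set ℂ) (γ : Br)
    (h : ∀ n : ℕ, CircH F (sub 0 (1 - 1 / ((n : ℝ) + 2)) γ)) : CircH F γ := by
  intro τ hτ hF hmin r hr
  obtain ⟨n, hn⟩ := exists_nat_one_div_lt (show (0 : ℝ) < 1 - τ by linarith)
  have hs := s_mem n
  have hτs : (τ : ℝ) < 1 - 1 / ((n : ℝ) + 2) := by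
    have : 1 / ((n : ℝ) + 2) ≤ 1 / ((n : ℝ) + 1) :=
      one_div_le_one_div_of_le (by positivity) (by linarith)
    linarith
  have hc := h n
  generalize (1 - 1 / ((n : ℝ) + 2)) = s at hs hτs hc
  have hτ0 : (0 : ℝ) ≤ τ := τ.2.1
  have hlt : (τ : ℝ) / s < 1 := (div_lt_one hs.1).2 hτs
  have hmem : (τ : ℝ) / s ∈ Icc (0 : ℝ) 1 := ⟨div_nonneg hτ0 hs.1.le, hlt.le⟩
  have hcan : (0 : ℝ) + (τ : ℝ) / s * (s - 0) = τ := by
    have := hs.1.ne'
    field_simp
    ring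
  have hval : sub 0 s γ ⟨(τ : ℝ) / s, hmem⟩ = γ τ := by
    rw [sub_apply]
    congr 1
    change projIcc 0 1 zero_le_one (0 + (τ : ℝ) / s * (s - 0)) = τ
    rw [hcan]
    exact projIcc_val zero_le_one τ
  obtain ⟨a, ha, hE⟩ := hc ⟨(τ : ℝ) / s, hmem⟩ hlt (by rw [hval]; exact hF) (fun u hu => by
    rw [sub_apply]
    apply hmin
    have hu' : (u : ℝ) < (τ : ℝ) / s := hu
    have hu0 : (0 : ℝ) ≤ u := u.2.1
    have h1 : (u : ℝ) * s < τ := (lt_div_iff₀ hs.1).1 hu'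
    have hm : (0 : ℝ) + (u : ℝ) * (s - 0) ∈ Icc (0 : ℝ) 1 :=
      ⟨by nlinarith [hs.1], by nlinarith [hs.1]⟩
    rw [projIcc_of_mem zero_le_one hm]
    change (0 : ℝ) + (u : ℝ) * (s - 0) < τ
    linarith) r hr
  refine ⟨a, ha, ?_⟩
  rw [hval] at hE
  have hsub : sub ((τ : ℝ) / s) 1 (sub 0 s γ) = sub τ s γ := by
    rw [hCUT.2.1 0 ⟨le_rfl, zero_le_one⟩ s ⟨hs.1.le, hs.2.le⟩ _ hmem 1 ⟨zero_le_one, le_rfl⟩, hcan]
    congr 1
    ring
  change Enc (sub ((τ : ℝ) / s) 1 (sub 0 s γ)) (γ τ) a r at hE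
  rw [hsub] at hE
  refine hENC.2.1 _ _ _ _ _ _ _ _ ?_ (by simp) (by simp) hE
  rw [hCUT.2.2.2.1 _ _ hτ0 hτs.le hs.2.le, hCUT.2.2.2.1 _ _ hτ0 hτ.le le_rfl]
  exact image_mono fun u hu => ⟨hu.1, u.2.2⟩

theorem hk_nonpos {t : ℝ} (ht : t ≤ 0) (z : ℂ) : hk t z = 0 := by
  unfold hk
  rw [ENNReal.ofReal_eq_zero]
  refine div_nonpos_of_nonneg_of_nonpos (Real.exp_pos _).le ?_
  have := Real.pi_pos
  nlinarith

theorem hk_ne_zero {t : ℝ} (ht : 0 < t) (z : ℂ) : hk t z ≠ 0 := by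
  unfold hk
  rw [Ne, ENNReal.ofReal_eq_zero, not_le]
  have := Real.pi_pos
  positivity

theorem ae_brM (hHITB : S_HITB) (hBMK : S_BMK) (hENC : S_ENC) (hCUT : S_CUT) {ν : Measure Br}
    (hν : IsBridge ν) {F : Set ℂ} (hF : IsClosed F) (t : ℝ) (x y : ℂ) :
    ∀ᵐ γ ∂brM ν t x y, CircH F γ := by
  rcases le_or_gt t 0 with ht | ht
  · rw [brM, hk_nonpos ht, zero_smul]
    simp
  · have h : ∀ n : ℕ, ∀ᵐ γ ∂brM ν t x y, CircH F (sub 0 (1 - 1 / ((n : ℝ) + 2)) γ) := fun n => by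
      have hs := s_mem n
      have hac := ((hBMK ν hν).2 t ht x).2.2.2.2 _ hs y
      have h1 := hHITB ν hν _ (mul_pos hs.1 ht) x F hF
      have hm : Measurable (sub 0 (1 - 1 / ((n : ℝ) + 2))) :=
        Measurable.sub' measurable_const measurable_const measurable_id
      exact ae_of_ae_map hm.aemeasurable (hac.ae_le h1)
    filter_upwards [ae_all_iff.2 h] with γ hγ
    exact circ_of_sub hENC hCUT F γ hγ

theorem hit_of_circ (hENC : S_ENC) (hCUT : S_CUT) {C : Set ℂ} (hC : IsPreconnected C)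
    (hN : C.Nontrivial) {γ : Br} (hc : CircH (closure C) γ) (h01 : γ 0 = γ 1)
    (hit : (range γ ∩ closure C).Nonempty) : (range γ ∩ C).Nonempty := by
  have hT : IsCompact {s : unitInterval | γ s ∈ closure C} :=
    (isClosed_closure.preimage γ.continuous).isCompact
  have hne : {s : unitInterval | γ s ∈ closure C}.Nonempty := by
    obtain ⟨z, ⟨s, rfl⟩, hz⟩ := hit
    exact ⟨s, hz⟩
  obtain ⟨τ, hτ, hmin⟩ := hT.exists_isLeast hne
  have hτ' : γ τ ∈ closure C := hτ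
  have hlt : (τ : ℝ) < 1 := by
    by_contra hge
    have h1 : τ = 1 := Subtype.ext (le_antisymm τ.2.2 (not_lt.1 hge))
    have h0 : (0 : unitInterval) ∈ {s : unitInterval | γ s ∈ closure C} := by
      change γ 0 ∈ closure C
      rw [h01, ← h1]
      exact hτ'
    have := hmin h0
    rw [h1] at this
    exact absurd this (by simp)
  obtain ⟨w, hw, hne'⟩ := hN.exists_ne (γ τ)
  have hd : 0 < dist w (γ τ) := dist_pos.2 hne'
  obtain ⟨a, ha, hE⟩ := hc τ hlt hτ' (fun s hs hs' => absurd (hmin hs') (not_le.2 hs))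
    (dist w (γ τ) / 2) (half_pos hd)
  obtain ⟨z, hz, hz'⟩ := hENC.2.2.2 _ _ _ _ C ha hE hC hτ' (fun hsub => by
    have := mem_closedBall.1 (hsub hw)
    linarith)
  exact ⟨z, hCUT.2.2.1 _ _ _ hz, hz'⟩

end HitgA

theorem p_HITG (hHITB : S_HITB) (hCIRM : S_CIRM) (hBMK : S_BMK) (hENC : S_ENC) (hCUT : S_CUT) (hREV : S_REV) (hMUK : S_MUK) :
    S_HITG := by
  intro ν hν
  have hp := hν.prob
  have hloop : ∀ F : Set ℂ, IsClosed F → ∀ᵐ l ∂loopMeasure ν, CircH F (lp l).2 := fun F hF => by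
    have hm : MeasurableSet {l : Lp | CircH F (lp l).2} :=
      (measurable_snd.comp measurable_lp) (hCIRM F hF)
    unfold loopMeasure
    refine (Measure.ae_prod_iff_ae_ae hm).2 (Eventually.of_forall fun x => ?_)
    refine (Measure.ae_prod_iff_ae_ae (measurable_prodMk_left hm)).2 ?_
    have hpos : ∀ᵐ t ∂(((volume : Measure ℝ).restrict (Ioi 0)).withDensity
        fun t => ENNReal.ofReal (1 / (2 * Real.pi * t ^ 2))), t ∈ Ioi (0 : ℝ) :=
      (withDensity_absolutelyContinuous _ _).ae_le (ae_restrict_mem measurableSet_Ioi)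
    filter_upwards [hpos] with t ht
    have h1 := HitgA.ae_brM hHITB hBMK hENC hCUT hν hF t x x
    rw [brM, Measure.ae_ennreal_smul_measure_iff (HitgA.hk_ne_zero ht _)] at h1
    have hs : Measurable (seg x x t) :=
      Measurable.seg' measurable_const measurable_const measurable_const measurable_id
    exact ae_of_ae_map hs.aemeasurable h1
  refine ⟨fun F hF => ⟨HitgA.ae_brM hHITB hBMK hENC hCUT hν hF, fun x y => ?_, hloop F hF⟩,
    fun C hC hN => ?_⟩
  · have hm : MeasurableSet {p : TP | ¬ CircH F p.2} := (measurable_snd (hCIRM F hF)).compl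
    rw [ae_iff, ← lintegral_indicator_one hm,
      lintegral_grM ν x y (measurable_one.indicator hm)]
    refine (lintegral_congr fun t => ?_).trans lintegral_zero
    refine (lintegral_congr_ae ?_).trans lintegral_zero
    filter_upwards [HitgA.ae_brM hHITB hBMK hENC hCUT hν hF t x y] with γ hγ
    exact indicator_of_notMem (by simpa using hγ) _
  · refine (hMUK ν hν).2.2.2.2.2.2.1 _ ?_
    filter_upwards [hloop (closure C) isClosed_closure, (hREV.2 ν hν).2.2.2.2.2.2.2] with l h1 h2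
    exact HitgA.hit_of_circ hENC hCUT hC hN h1 (h2.2.1.trans h2.2.2.symm)

end Pool.Agent.P.MP_d66c6d_pr
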