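import Pool.Agent.P.MP_d66c6d_pr.N.Iface

/-! Step CIRM of the carpet project. -/

namespace Pool.Agent.P.MP_d66c6d_pr

open MeasureTheory ProbabilityTheory Set Metric Filter Topology
open scoped ENNReal

namespace CirmA

/-- The first time in `F`. -/
noncomputable def tau (F : Set ℂ) (γ : Br) : unitInterval := sInf (γ ⁻¹' F)

variable {F : Set ℂ}

theorem mem (hF : IsClosed F) {γ : Br} (h : tau F γ < 1) : γ (tau F γ) ∈ F := by
  refine IsClosed.sInf_mem (s := γ ⁻¹' F) (nonempty_iff_ne_empty.2 fun e => h.ne ?_)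
    (hF.preimage γ.continuous)
  rw [tau, e, sInf_empty]
  rfl

theorem notMem {γ : Br} {s : unitInterval} (h : s < tau F γ) : γ s ∉ F :=
  fun hs => h.not_ge (sInf_le hs)

theorem meas (hF : IsClosed F) : Measurable (tau F) := by
  refine measurable_of_Ioi fun u => ?_
  rcases eq_or_lt_of_le (unitInterval.le_one' (t := u)) with rfl | hu
  · refine MeasurableSet.empty.congr (eq_empty_of_forall_notMem fun γ h => ?_).symm
    exact (show 1 < tau F γ from h).not_ge unitInterval.le_one'
  · refine (ContinuousMap.isOpen_setOfPred_mapsTo (X := unitInterval) (Y := ℂ)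
      (isClosed_Iic (a := u)).isCompact hF.isOpen_compl).measurableSet.congr ?_
    ext γ
    refine ⟨fun h => lt_of_not_ge fun h' => h h' (mem hF (h'.trans_lt hu)), fun h s hs => ?_⟩
    exact notMem (lt_of_le_of_lt hs h)

end CirmA

open CirmA in
theorem p_CIRM (hENC : S_ENC) :
    S_CIRM := by
  intro F hF
  have hm := meas hF
  have e : {γ : Br | CircH F γ} = {γ | tau F γ < 1}ᶜ ∪ ⋂ m : ℕ, ⋃ n : ℕ,
      (fun γ : Br => (γ (tau F γ), sub (tau F γ) 1 γ)) ⁻¹'
        {q : ℂ × Br | Enc q.2 q.1 (1 / ((n : ℝ) + 1)) (1 / ((m : ℝ) + 1))} := by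
    ext γ
    simp only [mem_union, mem_compl_iff, mem_ofPred_eq, mem_iInter, mem_iUnion, mem_preimage,
      ← imp_iff_not_or]
    constructor
    · intro h h1 m
      obtain ⟨a, ha, h2⟩ := h _ h1 (mem hF h1) (fun s hs => notMem hs) (1 / ((m : ℝ) + 1))
        (by positivity)
      obtain ⟨n, hn⟩ := exists_nat_one_div_lt ha
      exact ⟨n, hENC.2.1 _ _ _ _ _ _ _ _ Subset.rfl (by simpa using hn.le) (by simp) h2⟩
    · intro h τ h1 h2 h3 r hr
      have h4 : tau F γ = τ := by
        have h5 : tau F γ ≤ τ := sInf_le h2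
        exact h5.eq_or_lt.resolve_right fun h6 => h3 _ h6 (mem hF (h6.trans h1))
      obtain ⟨m, hm⟩ := exists_nat_one_div_lt hr
      obtain ⟨n, hn⟩ := h (h4 ▸ h1) m
      rw [h4] at hn
      exact ⟨1 / ((n : ℝ) + 1), by positivity, hENC.2.1 _ _ _ _ _ _ _ _ Subset.rfl (by simp)
        (by simpa using hm.le) hn⟩
  rw [e]
  refine (measurableSet_lt hm measurable_const).compl.union (MeasurableSet.iInter fun m =>
    MeasurableSet.iUnion fun n => Measurable.prodMk ?_ ?_ (hENC.1 _ _).measurableSet)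
  · exact Measurable.evalBr measurable_id hm
  · exact Measurable.sub' (measurable_subtype_coe.comp hm) measurable_const measurable_id

end Pool.Agent.P.MP_d66c6d_pr
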