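import Pool.Agent.P.MP_d66c6d_pr.N.Iface
import Pool.Agent.P.MP_d66c6d_pr.B.Iface

/-! Step BMK of the carpet project. -/

namespace Pool.Agent.P.MP_d66c6d_pr

open MeasureTheory ProbabilityTheory Set Metric Filter Topology
open scoped ENNReal

namespace BmkA

theorem sfinite_gm (t : ℝ) : SFinite (gm t) := by
  unfold gm
  infer_instance

theorem meas_bmM (ν : Measure Br) [SFinite ν] (t : ℝ) {α : Type*} [MeasurableSpace α]
    {x : α → ℂ} {F : α × Br → ℝ≥0∞} (hx : Measurable x) (hF : Measurable F) :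
    Measurable fun a => ∫⁻ β, F (a, β) ∂bmM ν t (x a) := by
  have := sfinite_gm t
  have h1 : ∀ a, ∫⁻ β, F (a, β) ∂bmM ν t (x a) =
      ∫⁻ p, F (a, seg (x a) (x a + p.1) t p.2) ∂(gm t).prod ν := fun a => by
    rw [bmM, lintegral_map (f := fun β => F (a, β)) (by fun_prop) (by fun_prop)]
  simp_rw [h1]
  refine Measurable.lintegral_prod_right'
    (f := fun q : α × ℂ × Br => F (q.1, seg (x q.1) (x q.1 + q.2.1) t q.2.2)) ?_
  fun_prop

theorem markov (hSPLIT : S_SPLIT) (hBM : S_BM) (hREV : S_REV) {ν : Measure Br} (hν : IsBridge ν)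
    {t : ℝ} (ht : 0 < t) (x : ℂ) {s : ℝ} (hs : s ∈ Ioo (0 : ℝ) 1) {Ψ : Br × Br → ℝ≥0∞}
    (hΨ : Measurable Ψ) :
    ∫⁻ γ, Ψ (sub 0 s γ, sub s 1 γ) ∂bmM ν t x =
      ∫⁻ α, ∫⁻ β, Ψ (α, β) ∂bmM ν ((1 - s) * t) (α 1) ∂bmM ν (s * t) x := by
  have := hν.prob
  have h1 : 0 < s * t := mul_pos hs.1 ht
  have h2 : 0 < (1 - s) * t := mul_pos (sub_pos.2 hs.2) ht
  have hH : Measurable fun α : Br => ∫⁻ β, Ψ (α, β) ∂bmM ν ((1 - s) * t) (α 1) :=
    meas_bmM ν _ (by fun_prop) hΨ
  have hin : Measurable fun q : (ℂ × ℂ) × Br =>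
      ∫⁻ β, Ψ (q.2, β) ∂brM ν ((1 - s) * t) q.1.2 q.1.1 :=
    measurable_brM ν (F := fun (q : (ℂ × ℂ) × Br) β => Ψ (q.2, β)) measurable_const
      (by fun_prop) (by fun_prop) (by fun_prop)
  have hout : Measurable fun q : ℂ × ℂ =>
      ∫⁻ α, ∫⁻ β, Ψ (α, β) ∂brM ν ((1 - s) * t) q.2 q.1 ∂brM ν (s * t) x q.2 :=
    measurable_brM ν
      (F := fun (q : ℂ × ℂ) α => ∫⁻ β, Ψ (α, β) ∂brM ν ((1 - s) * t) q.2 q.1)
      measurable_const measurable_const measurable_snd hin
  rw [((hBM ν hν).1 t ht x).2 _ (by fun_prop), ((hBM ν hν).1 _ h1 x).2 _ hH]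
  simp_rw [hSPLIT ν hν t ht s hs x _ Ψ hΨ]
  refine (lintegral_lintegral_swap (f := fun y z : ℂ =>
    ∫⁻ α, ∫⁻ β, Ψ (α, β) ∂brM ν ((1 - s) * t) z y ∂brM ν (s * t) x z) hout.aemeasurable).trans ?_
  refine lintegral_congr fun z => ?_
  have h3 : Measurable fun q : ℂ × Br => ∫⁻ β, Ψ (q.2, β) ∂brM ν ((1 - s) * t) z q.1 :=
    measurable_brM ν (F := fun (q : ℂ × Br) β => Ψ (q.2, β)) measurable_const
      measurable_const measurable_fst (by fun_prop)
  refine (lintegral_lintegral_swap (f := fun (y : ℂ) (α : Br) =>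
    ∫⁻ β, Ψ (α, β) ∂brM ν ((1 - s) * t) z y) h3.aemeasurable).trans ?_
  refine lintegral_congr_ae ?_
  filter_upwards [(hREV.2 ν hν).2.2.2.2.1 (s * t) x z] with α hα
  rw [hα.2, ((hBM ν hν).1 _ h2 z).2 (fun β => Ψ (α, β)) (by fun_prop)]

end BmkA

theorem p_BMK (hSPLIT : S_SPLIT) (hBM : S_BM) (hGM : S_GM) (hREV : S_REV) :
    S_BMK := by
  intro ν hν
  have := hν.prob
  refine ⟨fun t F hF => BmkA.meas_bmM ν t measurable_id hF, fun t ht x =>
    ⟨fun s hs Ψ hΨ => BmkA.markov hSPLIT hBM hREV hν ht x hs hΨ, fun s hs => ?_, ?_, ?_,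
      fun s hs y => ?_⟩⟩
  · have h2 : 0 < (1 - s) * t := mul_pos (sub_pos.2 hs.2) ht
    have hm : Measurable (sub 0 s) := by fun_prop
    ext A hA
    have h := BmkA.markov hSPLIT hBM hREV hν ht x hs
      (Ψ := fun p => A.indicator 1 p.1) ((measurable_one.indicator hA).comp measurable_fst)
    have h3 : ∀ α : Br, ∫⁻ _, A.indicator (1 : Br → ℝ≥0∞) α ∂bmM ν ((1 - s) * t) (α 1) =
        A.indicator 1 α := fun α => by
      have := ((hBM ν hν).1 _ h2 (α 1)).1
      simp
    simp only [h3] at h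
    rw [← lintegral_indicator_one hA, ← lintegral_indicator_one hA,
      lintegral_map (measurable_one.indicator hA) hm, h]
  · have := BmkA.sfinite_gm 1
    have hm : Measurable fun γ : Br => ContinuousMap.const _ x + (√t : ℂ) • γ :=
      (continuous_const.add (continuous_const_smul _)).measurable
    have hz : Measurable fun z : ℂ => (√t : ℂ) * z := by fun_prop
    rw [bmM, bmM, Measure.map_map hm (by fun_prop), ← (hGM t ht).2.2.2.2.2.2.2.1]
    conv_rhs => rw [← Measure.map_id (μ := ν)]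
    rw [Measure.map_prod_map _ _ hz measurable_id,
      Measure.map_map (by fun_prop) (hz.prodMap measurable_id)]
    congr 1
    ext p s
    simp [seg_apply]
    ring
  · have := BmkA.sfinite_gm t
    have hz : Measurable fun z : ℂ => x + z := by fun_prop
    rw [bmM, Measure.map_map (by fun_prop) (by fun_prop)]
    conv_rhs => rw [← Measure.fst_prod (μ := gm t) (ν := ν), Measure.fst]
    rw [Measure.map_map hz measurable_fst]
    refine Measure.map_congr ?_
    filter_upwards [Measure.quasiMeasurePreserving_snd.ae (hREV.2 ν hν).1] with p hp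
    simp [seg_apply, hp.2]
  · have h1 : 0 < s * t := mul_pos hs.1 ht
    have hm : Measurable (sub 0 s) := by fun_prop
    refine Measure.AbsolutelyContinuous.mk fun A hA h0 => ?_
    have hI : Measurable (A.indicator (1 : Br → ℝ≥0∞)) := measurable_one.indicator hA
    have hz : Measurable fun z : ℂ => ∫⁻ γ, A.indicator 1 γ ∂brM ν (s * t) x z :=
      measurable_brM ν (F := fun (_ : ℂ) γ => A.indicator 1 γ) measurable_const measurable_const
        measurable_id (hI.comp measurable_snd)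
    rw [← lintegral_indicator_one hA, ((hBM ν hν).1 _ h1 x).2 _ hI, lintegral_eq_zero_iff hz]
      at h0
    rw [← lintegral_indicator_one hA, lintegral_map hI hm]
    have h := hSPLIT ν hν t ht s hs x y (fun p => A.indicator 1 p.1) (hI.comp measurable_fst)
    rw [h, ← lintegral_zero]
    refine lintegral_congr_ae ?_
    filter_upwards [h0] with z hz
    simp only [lintegral_const]
    rw [lintegral_mul_const _ hI]
    exact mul_eq_zero_of_left hz _

end Pool.Agent.P.MP_d66c6d_pr
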