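import Pool.Agent.P.MP_d66c6d_pr.N.Iface
import Pool.Agent.P.MP_d66c6d_pr.F.Iface

/-! Step DEC of the carpet project. -/

namespace Pool.Agent.P.MP_d66c6d_pr

open MeasureTheory ProbabilityTheory Set Metric Filter Topology
open scoped ENNReal

namespace DecA

theorem exists_add {E : Type} [MeasurableSpace E] {m M : Measure E} [SigmaFinite M] (h : m ≤ M) :
    ∃ m' : Measure E, SFinite m' ∧ m + m' = M := by
  have : SigmaFinite m := Measure.sigmaFinite_of_le M h
  refine ⟨M.withDensity (1 - m.rnDeriv M), inferInstance, ?_⟩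
  have h1 : M.withDensity (m.rnDeriv M) = m :=
    Measure.withDensity_rnDeriv_eq m M (Measure.absolutelyContinuous_of_le h)
  have h2 : m.rnDeriv M + (1 - m.rnDeriv M) =ᵐ[M] 1 := by
    filter_upwards [Measure.rnDeriv_le_one_of_le h] with x hx
    exact add_tsub_cancel_of_le hx
  calc _ = M.withDensity (m.rnDeriv M) + M.withDensity (1 - m.rnDeriv M) := by rw [h1]
    _ = M.withDensity (m.rnDeriv M + (1 - m.rnDeriv M)) :=
      (withDensity_add_left (Measure.measurable_rnDeriv _ _) _).symm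
    _ = M := by rw [withDensity_congr_ae h2, withDensity_one]

theorem dec (hPPO : S_PPO) {E : Type} [MeasurableSpace E] {m M : Measure E} [SigmaFinite M]
    (h : m ≤ M) (p : Cfg E → Prop) (hp : ∀ S T : Cfg E, S.pts ⊆ T.pts → p T → p S)
    (hM : ∀ᵐ S ∂PP M, p S) : ∀ᵐ S ∂PP m, p S := by
  have : SigmaFinite m := Measure.sigmaFinite_of_le M h
  obtain ⟨m', hm', e⟩ := exists_add h
  rw [← e, ← (hPPO E m inferInstance).1 m' hm'] at hM
  have h1 := ae_of_ae_map (by fun_prop : Measurable fun q : Cfg E × Cfg E => q.1 ∪ q.2).aemeasurable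
    hM
  filter_upwards [Measure.ae_ae_of_ae_prod h1] with S hS
  obtain ⟨T, hT⟩ := hS.exists
  exact hp _ _ subset_union_left hT

theorem sf_smul {E : Type} [MeasurableSpace E] (m : Measure E) [SigmaFinite m] (c : ℝ) :
    SigmaFinite (ENNReal.ofReal c • m) :=
  inferInstanceAs (SigmaFinite (c.toNNReal • m))

end DecA

theorem p_DEC (hPPO : S_PPO) (hJOINT : S_JOINT) (hMUK : S_MUK) :
    S_DEC := by
  refine ⟨fun E _ m M hM h p hp hp' => DecA.dec hPPO h p hp hp', fun ν hν c => ?_⟩
  obtain ⟨-, hs, -, ⟨C, -, hC⟩, h0, -, htr, -⟩ := hMUK ν hν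
  have hsf := DecA.sf_smul (muK ν) c
  have hac : ENNReal.ofReal c • muK ν ≪ muK ν := Measure.smul_absolutelyContinuous
  have h3 : ∀ m : Measure KC, m ≤ ENNReal.ofReal c • muK ν →
      ∀ᵐ S ∂PP m, LF stdA S ∧ Conn S := fun m hm => by
    refine DecA.dec hPPO hm _ (fun S T hST hT => ⟨⟨hST.trans hT.1.1, fun j =>
      (hT.1.2 j).subset (inter_subset_inter_left _ hST)⟩, fun K hK => hT.2 K (hST hK)⟩) ?_
    refine ((hJOINT KC).2.1 _ inferInstance stdA measurableSet_stdA (fun j => ?_) (hac h0)).and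
      ((hPPO KC _ inferInstance).2.2.2.2.2.1 (fun K : KC => IsPreconnected (K : Set ℂ))
        (hac.ae_le (htr _ (ae_of_all _ fun l => ?_))))
    · rw [Measure.smul_apply, smul_eq_mul]
      exact ENNReal.mul_ne_top ENNReal.ofReal_ne_top (ne_top_of_le_ne_top ENNReal.ofReal_ne_top
        (hC 0 _ _ (by positivity) (by positivity)))
    · exact isPreconnected_range (lp l).2.continuous
  refine ⟨hsf, fun A => DecA.sf_smul _ c, h3, fun U => ?_⟩
  have hsU := DecA.sf_smul ((muK ν).restrict (inK U)) c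
  have h4 := h3 (ENNReal.ofReal c • (muK ν).restrict (inK U))
    (by rw [← Measure.restrict_smul]; exact Measure.restrict_le_self)
  by_cases hU : IsOpen U
  · have h5 := (hPPO KC (ENNReal.ofReal c • (muK ν).restrict (inK U))
      inferInstance).2.2.2.2.2.1 (fun K : KC => K ∈ inK U)
      (Measure.smul_absolutelyContinuous.ae_le (ae_restrict_mem (isOpen_inK hU).measurableSet))
    filter_upwards [h4, h5] with S h1 h2
    exact ⟨h1.1, h1.2, fun _ => h2⟩
  · filter_upwards [h4] with S h1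
    exact ⟨h1.1, h1.2, fun h => absurd h hU⟩

end Pool.Agent.P.MP_d66c6d_pr
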