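import Pool.Agent.P.MP_d66c6d_pr.N.Iface

/-! Step ENC of the carpet project. -/

namespace Pool.Agent.P.MP_d66c6d_pr

open MeasureTheory ProbabilityTheory Set Metric Filter Topology
open scoped ENNReal

namespace EncA

theorem closed_pt (w : ℂ) (r : ℝ) :
    IsClosed {q : ℂ × Br | q.1 + w ∈ fill (range q.2 ∩ closedBall q.1 r)} := by
  refine isOpen_compl_iff.1 (isOpen_iff_mem_nhds.2 fun ⟨z, g⟩ hz => ?_)
  have hK : IsCompact (range g ∩ closedBall z r) :=
    (isCompact_range g.continuous).inter_right isClosed_closedBall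
  obtain ⟨v, hv, hj⟩ := exists_far hK.isClosed hz z (|r| + 2)
  have hP : IsCompact (range hj.somePath) := isCompact_range hj.somePath.continuous
  obtain ⟨δ, hδ, hd⟩ := Disjoint.exists_thickenings (s := range hj.somePath)
    (t := range g ∩ closedBall z r)
    (disjoint_left.2 fun _ ⟨t, ht⟩ h => hj.somePath_mem t (ht ▸ h)) hP hK.isClosed
  have ev : ∀ᶠ q : ℂ × Br in 𝓝 (z, g), ∀ t ∈ (univ : Set unitInterval),
      q.2 t ∈ thickening δ (range g ∩ closedBall z r) ∨ r < dist (q.2 t) q.1 := by
    refine isCompact_univ.eventually_forall_of_forall_eventually fun t _ => ?_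
    have c1 : Continuous fun u : (ℂ × Br) × unitInterval => u.1.2 u.2 := by fun_prop
    by_cases h : dist (g t) z ≤ r
    · have : ∀ᶠ u : (ℂ × Br) × unitInterval in 𝓝 ((z, g), t),
          u.1.2 u.2 ∈ thickening δ (range g ∩ closedBall z r) :=
        (isOpen_thickening.preimage c1).mem_nhds (self_subset_thickening hδ _ ⟨⟨t, rfl⟩, h⟩)
      exact this.mono fun u hu => Or.inl hu
    · have : ∀ᶠ u : (ℂ × Br) × unitInterval in 𝓝 ((z, g), t), r < dist (u.1.2 u.2) u.1.1 :=
        (isOpen_lt continuous_const (c1.dist (by fun_prop))).mem_nhds (not_le.1 h)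
      exact this.mono fun u hu => Or.inr hu
  have ev2 : ∀ᶠ q : ℂ × Br in 𝓝 (z, g), dist q.1 z < min δ 1 :=
    (isOpen_lt (by fun_prop) continuous_const).mem_nhds (by simpa using hδ)
  filter_upwards [ev, ev2] with ⟨z', g'⟩ h1 h2 hf
  rw [lt_min_iff] at h2
  have hg' : range g' ∩ closedBall z' r ⊆ thickening δ (range g ∩ closedBall z r) := by
    rintro _ ⟨⟨t, rfl⟩, ht⟩
    exact (h1 t trivial).resolve_right (not_lt.2 ht)
  have hz0 : z + w ∈ range hj.somePath := ⟨0, hj.somePath.source⟩
  have hC : IsPreconnected (ball (z + w) δ ∪ range hj.somePath) :=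
    (convex_ball _ δ).isPreconnected.union _ (mem_ball_self hδ) hz0
      (isPreconnected_range hj.somePath.continuous)
  have h3 := fill_conn hC (hd.mono (union_subset (ball_subset_thickening hz0 δ)
    (self_subset_thickening hδ _)) hg') (Or.inl (by simpa using h2.1))
    (Or.inr ⟨1, hj.somePath.target⟩) hf
  refine absurd (fill_subset_ball (c := z) (r := |r| + 2) (by positivity) ?_ h3) (not_lt.2 hv)
  rintro u ⟨-, hu⟩
  rw [mem_closedBall] at hu
  rw [mem_ball]
  linarith [dist_triangle u z' z, le_abs_self r, h2.2]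

theorem img_ball {k : ℝ} (hk : 0 < k) (x z : ℂ) (r : ℝ) :
    closedBall (x + k * z) (k * r) = (fun u : ℂ => k * u + x) '' closedBall z r := by
  have hk' : (k : ℂ) ≠ 0 := by exact_mod_cast hk.ne'
  have e : ∀ u : ℂ, dist (k * u + x) (x + k * z) = k * dist u z := fun u => by
    rw [dist_eq_norm, dist_eq_norm, show (k : ℂ) * u + x - (x + k * z) = k * (u - z) by ring,
      norm_mul, Complex.norm_real, Real.norm_of_nonneg hk.le]
  ext w
  obtain ⟨u, rfl⟩ : ∃ u, w = k * u + x := ⟨(w - x) / k, by field_simp; ring⟩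
  have inj : Function.Injective fun u : ℂ => k * u + x := fun a b h =>
    mul_left_cancel₀ hk' (add_right_cancel h)
  rw [inj.mem_set_image, mem_closedBall, mem_closedBall, e, mul_le_mul_iff_right₀ hk]

end EncA

open EncA in
theorem p_ENC :
    S_ENC := by
  refine ⟨fun a r => ?_, fun γ γ' z z' a a' r r' h ha hr H => ?_, fun γ z x a r k hk => ?_,
    fun γ z a r C ha H hC hz hn => ?_⟩
  · have : {q : ℂ × Br | Enc q.2 q.1 a r} = ⋂ w ∈ closedBall (0 : ℂ) a,
        {q : ℂ × Br | q.1 + w ∈ fill (range q.2 ∩ closedBall q.1 r)} := by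
      ext q
      simp only [Enc, mem_ofPred_eq, mem_iInter]
      refine ⟨fun h w hw => h (by simpa using hw), fun h u hu => ?_⟩
      have := h (u - q.1) (by simpa [dist_eq_norm] using hu)
      rwa [add_sub_cancel] at this
    rw [this]
    exact isClosed_biInter fun w _ => closed_pt w r
  · exact (closedBall_subset_closedBall' (dist_comm z z' ▸ ha)).trans (Subset.trans H
      (fill_mono (inter_subset_inter h (closedBall_subset_closedBall' hr))))
  · have hk' : (k : ℂ) ≠ 0 := by exact_mod_cast hk.ne'
    have inj : Function.Injective fun u : ℂ => k * u + x := fun a b h =>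
      mul_left_cancel₀ hk' (add_right_cancel h)
    have e : range (ContinuousMap.const unitInterval x + (k : ℂ) • γ) =
        (fun u : ℂ => k * u + x) '' range γ := by
      rw [← range_comp]
      congr 1
      funext t
      simp [add_comm]
    rw [Enc, Enc, e, img_ball hk, img_ball hk, ← image_inter inj, image_subset_iff]
    exact forall₂_congr fun u _ => fill_aff hk' x _ u
  · by_contra hne
    have hd : Disjoint C (range γ ∩ closedBall z r) :=
      disjoint_left.2 fun u hu h => hne ⟨u, h.1, hu⟩
    obtain ⟨u, hu, hzu⟩ := Metric.mem_closure_iff.1 hz a ha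
    obtain ⟨w, hw, hwr⟩ := not_subset.1 hn
    have h1 := fill_conn hC hd hu hw (H (mem_closedBall'.2 hzu.le))
    rw [mem_closedBall, not_le] at hwr
    rcases lt_or_ge r 0 with h | h
    · have := fill_subset_ball (c := w + 2) one_pos
        (fun v hv => absurd (dist_nonneg.trans (mem_closedBall.1 hv.2)) (not_le.2 h)) h1
      norm_num at this
    · exact lt_irrefl _ (mem_ball.1 (fill_subset_ball (c := z) (h.trans_lt hwr)
        (fun v hv => (mem_closedBall.1 hv.2).trans_lt hwr) h1))

end Pool.Agent.P.MP_d66c6d_pr
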