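import Pool.Agent.P.MP_d66c6d_pr.N.Iface
import Pool.Agent.P.MP_d66c6d_pr.F.Iface

/-! Step EXD of the carpet project. -/

namespace Pool.Agent.P.MP_d66c6d_pr

open MeasureTheory ProbabilityTheory Set Metric Filter Topology
open scoped ENNReal

namespace ExdA

theorem cluster_mono {T T' : Set (Set ℂ)} (h : T ⊆ T') (K : Set ℂ) :
    cluster T K ⊆ cluster T' K := fun _ ⟨K', h1, h2⟩ => ⟨K', Lk.mono h h1, h2⟩

theorem preconn {A : Set ℂ} {T : Set (Set ℂ)} (hA : IsPreconnected A) (hne : A.Nonempty)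
    (hT : ∀ K ∈ T, IsPreconnected K) : IsPreconnected (A ∪ kset A T) := by
  obtain ⟨x, hx⟩ := hne
  refine isPreconnected_of_forall x fun y hy => ?_
  rcases hy with hy | hy
  · exact ⟨A, subset_union_left, hx, hy, hA⟩
  · obtain ⟨K, hK, ⟨w, hw1, hw2⟩, K', h1, h2⟩ := mem_kset.1 hy
    refine ⟨A ∪ cluster T K, union_subset_union_right _ ?_, Or.inl hx, Or.inr ⟨K', h1, h2⟩,
      hA.union w hw2 ⟨K, .refl, hw1⟩ (isPreconnected_cluster hT hK ⟨w, hw1⟩)⟩
    rintro z ⟨K'', h3, h4⟩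
    exact mem_kset.2 ⟨K, hK, ⟨w, hw1, hw2⟩, K'', h3, h4⟩

theorem eq_of_hit {C C' : Set ℂ}
    (h : (Prod.fst ⁻¹' hitK C : Set (KC × ℝ)) = Prod.fst ⁻¹' hitK C') : C = C' := by
  ext z
  have h1 := Set.ext_iff.1 h (({z} : KC), 0)
  simpa [hitK] using h1

theorem mem_lev {c : ℝ} {S : Cfg (KC × ℝ)} {K : Set ℂ} :
    K ∈ sets (lev c S) ↔ ∃ p ∈ S.pts, p.2 ≤ c ∧ (p.1 : Set ℂ) = K := by
  constructor
  · rintro ⟨_, ⟨p, ⟨h1, h2⟩, rfl⟩, rfl⟩
    exact ⟨p, h1, h2, rfl⟩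
  · rintro ⟨p, h1, h2, rfl⟩
    exact ⟨_, ⟨p, ⟨h1, h2⟩, rfl⟩, rfl⟩

theorem muL_fst (m : Measure KC) (B : Set KC) : muL m (Prod.fst ⁻¹' B) = m B := by
  rw [muL, ← prod_univ, Measure.prod_prod]
  simp

theorem ae_muL {m : Measure KC} {p : KC → Prop} (h : ∀ᵐ K ∂m, p K) : ∀ᵐ q ∂muL m, p q.1 :=
  (Measure.quasiMeasurePreserving_fst (μ := m)
    (ν := (volume : Measure ℝ).restrict (Ioc 0 1))).ae h

end ExdA

open ExdA in
theorem p_EXD (hEXM : S_EXM) (hEXCH : S_EXCH) (hJMN : S_JMN) (hNL : S_NL) (hHITG : S_HITG) (hDEC : S_DEC) (hMUK : S_MUK) (hPPO : S_PPO) (hJOINT : S_JOINT) :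
    S_EXD := by
  intro ν hν c₀ c₁ c' h0 h1 hc hsub V A hV hVb hA hAc hAn
  obtain ⟨-, hsf, -, ⟨C₀, -, hC₀⟩, hcov, -, hpush, hlev⟩ := hMUK ν hν
  obtain ⟨R₀, hR₀⟩ := hVb.subset_ball 0
  obtain ⟨G, hG, hGi⟩ := hEXM A c₀ c₁ R₀ hA
  set m₀ : Measure KC := (muK ν).restrict (inK V) with hm₀
  have hsM : SigmaFinite (muL m₀) := by
    unfold muL
    infer_instance
  have hne : Nonempty (KC × ℝ) := ⟨(({0} : KC), 0)⟩
  obtain ⟨hr, hφ⟩ := hEXCH (KC × ℝ) (fun u v : KC × ℝ => u.2 ≤ c₀ ∧ meetK u.1 v.1)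
    (Prod.fst ⁻¹' hitK A)
  obtain ⟨φ, hφ, hid⟩ := hφ (muL m₀) hsM
    ((measurableSet_le (measurable_snd.comp measurable_fst) measurable_const).inter
      (((measurable_fst.comp measurable_fst).prodMk (measurable_fst.comp measurable_snd))
        measurableSet_meetK))
    (measurable_fst (isClosed_hitK hA.isClosed).measurableSet)
  have hpt := (hPPO (KC × ℝ) (muL m₀) inferInstance).2.2.2.2.2.1
  have hLF : ∀ᵐ S ∂PP (muL m₀), LF (fun j => Prod.fst ⁻¹' stdA j) S := by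
    refine (hJOINT (KC × ℝ)).2.1 (muL m₀) inferInstance _
      (fun j => measurable_fst (measurableSet_stdA j)) (fun j => ?_) ?_
    · rw [muL_fst]
      refine ne_top_of_le_ne_top ENNReal.ofReal_ne_top
        ((Measure.restrict_apply_le _ _).trans (hC₀ 0 _ _ (by positivity) (by positivity)))
    · rw [← preimage_iUnion, ← preimage_compl, muL_fst]
      exact nonpos_iff_eq_zero.1 ((Measure.restrict_apply_le _ _).trans hcov.le)
  have hin : ∀ᵐ S ∂PP (muL m₀), ∀ p ∈ S.pts, p.1 ∈ inK V :=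
    hpt _ (ae_muL (ae_restrict_mem (isOpen_inK hV).measurableSet))
  have hcon : ∀ᵐ S ∂PP (muL m₀), ∀ p ∈ S.pts, IsPreconnected (p.1 : Set ℂ) :=
    hpt _ (ae_muL (p := fun K : KC => IsPreconnected (K : Set ℂ)) (ae_restrict_of_ae
      (hpush _ (Eventually.of_forall fun l => isPreconnected_range (lp l).2.continuous))))
  have hmain : ∀ᵐ p ∂(PP (muL m₀)).prod (PP (muL m₀)), φ p ∈ G := by
    refine (Measure.ae_prod_iff_ae_ae (hφ.measurable hG)).2 ?_
    filter_upwards [Measure.ae_ae_of_ae_prod hid,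
      Measure.ae_ae_of_ae_prod (hφ.quasiMeasurePreserving.ae (hLF.and hin)), hcon]
      with S hS1 hS2 hS3
    set C : Set ℂ := A ∪ kset A (sets (lev c₀ S)) with hC
    have hCc : IsPreconnected C := preconn hAc hAn.nonempty fun K hK => by
      obtain ⟨p, hp, -, rfl⟩ := mem_lev.1 hK
      exact hS3 p hp
    have hCn : C.Nontrivial := hAn.mono subset_union_left
    have ha : ∀ᵐ S' ∂PP (muL m₀), ∀ p ∈ S'.pts, p.1 ∈ hitK (closure C) → p.1 ∈ hitK C :=
      hpt _ (ae_muL (p := fun K : KC => K ∈ hitK (closure C) → K ∈ hitK C)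
        (ae_restrict_of_ae ((hHITG ν hν).2 C hCc hCn)))
    have hb0 := hDEC.1 KC (ENNReal.ofReal c₁ • m₀) (ENNReal.ofReal c₁ • muK ν)
      (hDEC.2 ν hν c₁).1 (smul_le_smul_left _ Measure.restrict_le_self)
      (fun T => ∀ K ∈ sets T, K ⊆ V → Disjoint K (closure C) →
        Disjoint (closure (cluster {K ∈ sets T | K ⊆ V ∧ Disjoint K (closure C)} K)) (closure C))
      (fun T T' hT h K hK h1 h2 => (h K (image_mono hT hK) h1 h2).mono_left
        (closure_mono (cluster_mono (fun _ h => And.intro (image_mono hT h.1) h.2) K)))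
      (hNL ν hν c₁ c' h0 hc hsub (closure C) V isClosed_closure hCc.closure
        (hCn.mono subset_closure) hVb)
    rw [← hlev m₀ inferInstance c₁ ⟨h0, h1⟩] at hb0
    have hb := ae_of_ae_map (measurable_lev c₁).aemeasurable hb0
    filter_upwards [hS1, hS2, ha, hb] with S' e1 e2 e3 e4
    have hCe : A ∪ kset A (sets (lev c₀ (φ (S, S')))) = C := by
      have h := hr S S' _ e1
      rw [hJMN.2.1, hJMN.2.1] at h
      exact eq_of_hit h
    rw [hJMN.2.1] at e1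
    refine (hGi _ e2.1 fun p hp => Subset.trans (e2.2 p hp) hR₀).2 ?_
    rw [hCe]
    have hsub : {K ∈ sets (lev c₁ (φ (S, S'))) | Disjoint K (closure C)} ⊆
        {K ∈ sets (lev c₁ S') | K ⊆ V ∧ Disjoint K (closure C)} := by
      rintro K ⟨hK, hd⟩
      obtain ⟨p, hp, hp', rfl⟩ := mem_lev.1 hK
      refine ⟨mem_lev.2 ⟨p, ?_, hp', rfl⟩, e2.2 p hp, hd⟩
      rw [e1] at hp
      rcases hp with ⟨-, z, hz1, hz2⟩ | hp
      · exact absurd (subset_closure hz2) (disjoint_left.1 hd hz1)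
      · exact hp.1
    refine ⟨fun p hp h => ?_, fun K hK hd => ?_⟩
    · rw [e1] at hp
      rcases hp with hp | hp
      · exact hp.2
      · exact e3 p hp.1 h
    · have h := hsub ⟨hK, hd⟩
      exact (e4 K h.1 h.2.1 h.2.2).mono_left (closure_mono (cluster_mono hsub K))
  have hGae : ∀ᵐ S ∂PP (muL m₀), S ∈ G := by
    rw [← hφ.map_eq]
    exact (ae_map_iff hφ.measurable.aemeasurable hG).2 hmain
  filter_upwards [hGae, hLF, hin] with S e1 e2 e3
  exact (hGi S e2 fun p hp => Subset.trans (e3 p hp) hR₀).1 e1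

end Pool.Agent.P.MP_d66c6d_pr
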