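import Pool.Agent.P.MP_d66c6d_pr.N.Iface
import Pool.Agent.P.MP_d66c6d_pr.F.Iface

/-! Step EXM of the carpet project. -/

namespace Pool.Agent.P.MP_d66c6d_pr

open MeasureTheory ProbabilityTheory Set Metric Filter Topology
open scoped ENNReal

namespace ExmA

/-- Small discs around the points of a dense sequence. -/
noncomputable def bl (j n : ℕ) : Set ℂ :=
  ball (TopologicalSpace.denseSeq ℂ j) (1 / ((n : ℝ) + 1))

theorem clos_iff {X C : Set ℂ} (hX : Bornology.IsBounded X) :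
    (closure X ∩ closure C).Nonempty ↔
      ∀ n : ℕ, ∃ j : ℕ, (X ∩ bl j n).Nonempty ∧ (C ∩ bl j n).Nonempty := by
  constructor
  · rintro ⟨z, h1, h2⟩ n
    obtain ⟨j, hj⟩ := (TopologicalSpace.denseRange_denseSeq ℂ).exists_dist_lt z
      (show (0 : ℝ) < 1 / ((n : ℝ) + 1) by positivity)
    have hz : z ∈ bl j n := hj
    refine ⟨j, ?_, ?_⟩
    · rw [inter_comm]
      exact mem_closure_iff.1 h1 _ isOpen_ball hz
    · rw [inter_comm]
      exact mem_closure_iff.1 h2 _ isOpen_ball hz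
  · intro h
    by_contra hn
    rw [not_nonempty_iff_eq_empty, ← disjoint_iff_inter_eq_empty] at hn
    obtain ⟨δ, hδ, hd⟩ := hn.exists_thickenings hX.isCompact_closure isClosed_closure
    obtain ⟨n, hn⟩ := exists_nat_one_div_lt hδ
    obtain ⟨j, ⟨x, x1, x2⟩, y, y1, y2⟩ := h n
    refine disjoint_left.1 hd (show TopologicalSpace.denseSeq ℂ j ∈ _ from ?_) ?_
    · exact mem_thickening_iff.2 ⟨x, subset_closure x1, by
        rw [dist_comm]; exact lt_trans x2 hn⟩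
    · exact mem_thickening_iff.2 ⟨y, subset_closure y1, by
        rw [dist_comm]; exact lt_trans y2 hn⟩

theorem lf_lev {S T : Cfg (KC × ℝ)} (hS : LF (fun j => Prod.fst ⁻¹' stdA j) S)
    (hT : T.pts ⊆ S.pts) (c : ℝ) : LF stdA (lev c T) := by
  constructor
  · rintro _ ⟨p, hp, rfl⟩
    obtain ⟨j, hj⟩ := mem_iUnion.1 (hS.1 (hT hp.1))
    exact mem_iUnion.2 ⟨j, hj⟩
  · intro j
    refine ((hS.2 j).image Prod.fst).subset ?_
    rintro _ ⟨⟨p, hp, rfl⟩, h⟩
    exact ⟨p, ⟨hT hp.1, h⟩, rfl⟩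

theorem mem_sets_lev {S : Cfg (KC × ℝ)} {c : ℝ} {K : Set ℂ} :
    K ∈ sets (lev c S) ↔ ∃ p ∈ S.pts, p.2 ≤ c ∧ (p.1 : Set ℂ) = K := by
  constructor
  · rintro ⟨_, ⟨p, hp, rfl⟩, rfl⟩
    exact ⟨p, hp.1, hp.2, rfl⟩
  · rintro ⟨p, h1, h2, rfl⟩
    exact ⟨p.1, ⟨p, ⟨h1, h2⟩, rfl⟩, rfl⟩

theorem cluster_iff {T : Set (Set ℂ)} {K B : Set ℂ} (hK : K ∈ T) (hne : K.Nonempty) :
    (cluster T K ∩ B).Nonempty ↔ Joins T K B := by
  constructor
  · rintro ⟨z, ⟨K', h, hz⟩, hB⟩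
    exact ⟨K, hK, K', h, by simpa using hne, z, hz, hB⟩
  · rintro ⟨K₀, h0, K', h, h1, z, hz, hB⟩
    exact ⟨z, ⟨K', Relation.ReflTransGen.head ⟨h0, inter_comm _ _ ▸ h1⟩ h, hz⟩, hB⟩

theorem union_meets {A B : Set ℂ} {T : Set (Set ℂ)} :
    ((A ∪ kset A T) ∩ B).Nonempty ↔ (A ∩ B).Nonempty ∨ Joins T A B := by
  rw [union_inter_distrib_right, union_nonempty, joins_iff_kset]

/-- The explored set meets a small disc. -/
def MM (A : Set ℂ) (c : ℝ) (j n : ℕ) : Set (Cfg (KC × ℝ)) :=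
  {S | LF stdA (lev c S) ∧ ((A ∪ kset A (sets (lev c S))) ∩ bl j n).Nonempty}

/-- The trace meets the closure of the explored set. -/
def HC (A : Set ℂ) (c : ℝ) : Set (Cfg (KC × ℝ) × KC) :=
  {q | ∀ n : ℕ, ∃ j : ℕ, q.2 ∈ hitK (bl j n) ∧ q.1 ∈ MM A c j n}

/-- The trace meets the explored set. -/
def H0 (A : Set ℂ) (c : ℝ) : Set (Cfg (KC × ℝ) × KC) :=
  {q | LF stdA (lev c q.1) ∧ q.2 ∈ hitK (A ∪ kset A (sets (lev c q.1)))}

theorem meas_bl (j n : ℕ) : MeasurableSet (hitK (bl j n)) :=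
  (isOpen_hitK isOpen_ball).measurableSet

theorem meas_MM (hJ : S_JMN) {A : Set ℂ} (hA : IsCompact A) (c : ℝ) (j n : ℕ) :
    MeasurableSet (MM A c j n) := by
  have h1 := measurable_lev c (hJ.2.2.2.1 A (bl j n) (isClosed_hitK hA.isClosed).measurableSet
    (meas_bl j n))
  have h2 := measurable_lev c hJ.2.2.2.2.1
  by_cases h : (A ∩ bl j n).Nonempty
  · refine h2.congr ?_
    ext S
    simp only [MM, union_meets, h, true_or, and_true, mem_preimage, mem_ofPred_eq]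
  · refine h1.congr ?_
    ext S
    simp only [MM, union_meets, h, false_or, mem_preimage, mem_ofPred_eq]

theorem meas_HC (hJ : S_JMN) {A : Set ℂ} (hA : IsCompact A) (c : ℝ) : MeasurableSet (HC A c) := by
  have : HC A c = ⋂ n : ℕ, ⋃ j : ℕ, Prod.snd ⁻¹' hitK (bl j n) ∩ Prod.fst ⁻¹' MM A c j n := by
    ext q
    simp only [HC, mem_ofPred_eq, mem_iInter, mem_iUnion, mem_inter_iff, mem_preimage]
  rw [this]
  exact MeasurableSet.iInter fun n => MeasurableSet.iUnion fun j =>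
    (measurable_snd (meas_bl j n)).inter (measurable_fst (meas_MM hJ hA c j n))

theorem meas_self : MeasurableSet {q : KC × KC | q.2 ∈ hitK (q.1 : Set ℂ)} :=
  measurable_swap measurableSet_meetK

theorem meas_H0 (hJ : S_JMN) {A : Set ℂ} (hA : IsCompact A) (c : ℝ) : MeasurableSet (H0 A c) := by
  have hA' : MeasurableSet (hitK A) := (isClosed_hitK hA.isClosed).measurableSet
  have h1 := hJ.2.2.1 KC (fun _ => A) (fun K => (K : Set ℂ)) (measurable_snd hA') meas_self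
  have hm : Measurable fun q : Cfg (KC × ℝ) × KC => (q.2, lev c q.1) :=
    measurable_snd.prodMk ((measurable_lev c).comp measurable_fst)
  have h2 := (measurable_fst : Measurable fun q : Cfg (KC × ℝ) × KC => q.1)
    (measurable_lev c hJ.2.2.2.2.1)
  refine ((h2.inter (measurable_snd hA')).union (hm h1)).congr ?_
  ext q
  simp only [H0, hitK, mem_union, mem_inter_iff, mem_preimage, mem_ofPred_eq]
  rw [inter_comm (q.2 : Set ℂ) (A ∪ _), union_meets, inter_comm A]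
  tauto

theorem mem_HC {A : Set ℂ} {c : ℝ} {S : Cfg (KC × ℝ)} (hS : LF stdA (lev c S)) {K : KC} :
    (S, K) ∈ HC A c ↔ K ∈ hitK (closure (A ∪ kset A (sets (lev c S)))) := by
  have h := clos_iff (C := A ∪ kset A (sets (lev c S))) K.isCompact.isBounded
  rw [K.isCompact.isClosed.closure_eq] at h
  simp only [HC, MM, hitK, mem_ofPred_eq, hS, true_and]
  exact h.symm

end ExmA

open ExmA in
theorem p_EXM (hJMN : S_JMN) (hRCH : S_RCH) (hJOINT : S_JOINT) (hENUM : S_ENUM) :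
    S_EXM := by
  have _h1 := hRCH
  have _h2 := hENUM
  intro A c₀ c₁ R hA
  have hstd : ∀ j, MeasurableSet ((Prod.fst : KC × ℝ → KC) ⁻¹' stdA j) := fun j =>
    measurable_fst (measurableSet_stdA j)
  have hJ := (hJOINT (KC × ℝ)).2.2.1 _ hstd Unit
  have hm : Measurable fun q : Unit × Cfg (KC × ℝ) × (KC × ℝ) => (q.2.1, q.2.2.1) := by fun_prop
  have hHC := hm (meas_HC hJMN hA c₀)
  have hH0 := hm (meas_H0 hJMN hA c₀)
  have hu : Measurable fun S : Cfg (KC × ℝ) => ((), S) := by fun_prop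
  have ha := hu (hJ _ (hHC.inter hH0.compl)).1
  obtain ⟨φ, hφ, hφ'⟩ := (hJ _ hHC.compl).2
  have hT : Measurable fun q : Unit × Cfg (KC × ℝ) × (KC × ℝ) =>
      (q.2.2.1, lev c₁ (φ ((), q.2.1))) :=
    (by fun_prop : Measurable fun q : Unit × Cfg (KC × ℝ) × (KC × ℝ) => q.2.2.1).prodMk
      ((measurable_lev c₁).comp (hφ.comp (by fun_prop)))
  have hj : ∀ j n : ℕ, MeasurableSet {q : Unit × Cfg (KC × ℝ) × (KC × ℝ) |
      (LF stdA (lev c₁ (φ ((), q.2.1))) ∧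
        Joins (sets (lev c₁ (φ ((), q.2.1)))) (q.2.2.1 : Set ℂ) (bl j n)) ∧
      q.2.1 ∈ MM A c₀ j n} := fun j n =>
    (hT (hJMN.2.2.1 KC (fun K => (K : Set ℂ)) (fun _ => bl j n) meas_self
      (measurable_snd (meas_bl j n)))).inter
      ((measurable_fst.comp measurable_snd) (meas_MM hJMN hA c₀ j n))
  have hc : MeasurableSet {q : Unit × Cfg (KC × ℝ) × (KC × ℝ) | q.2.2.2 ≤ c₁} :=
    measurableSet_le (by fun_prop) measurable_const
  have hb := hu (hJ _ ((hc.inter hHC.compl).inter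
    (MeasurableSet.iInter fun n => MeasurableSet.iUnion fun j => hj j n))).1
  refine ⟨_, ha.compl.inter hb.compl, fun S hS hR => ?_⟩
  have h0 := lf_lev hS Subset.rfl c₀
  have hp := hφ' ((), S) hS
  have h1 : LF stdA (lev c₁ (φ ((), S))) := lf_lev hS (by rw [hp]; exact sep_subset _ _) c₁
  have hd : ∀ K : KC, (S, K) ∉ HC A c₀ ↔
      Disjoint (K : Set ℂ) (closure (A ∪ kset A (sets (lev c₀ S)))) := fun K => by
    rw [mem_HC h0, disjoint_iff_inter_eq_empty, ← not_nonempty_iff_eq_empty]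
    rfl
  have hs : sets (lev c₁ (φ ((), S))) = {K ∈ sets (lev c₁ S) |
      Disjoint K (closure (A ∪ kset A (sets (lev c₀ S))))} := by
    ext K
    simp only [mem_sets_lev, hp, mem_ofPred_eq, mem_compl_iff, mem_preimage, hd]
    constructor
    · rintro ⟨p, ⟨p1, p2⟩, p3, rfl⟩
      exact ⟨⟨p, p1, p3, rfl⟩, p2⟩
    · rintro ⟨⟨p, p1, p3, rfl⟩, p2⟩
      exact ⟨p, ⟨p1, p2⟩, p3, rfl⟩
  have key : ∀ p ∈ S.pts, p.2 ≤ c₁ →
      Disjoint (p.1 : Set ℂ) (closure (A ∪ kset A (sets (lev c₀ S)))) →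
      ((∀ n : ℕ, ∃ j : ℕ, Joins (sets (lev c₁ (φ ((), S)))) (p.1 : Set ℂ) (bl j n) ∧
        S ∈ MM A c₀ j n) ↔ ¬ Disjoint (closure (cluster (sets (lev c₁ (φ ((), S)))) p.1))
          (closure (A ∪ kset A (sets (lev c₀ S))))) := fun p p1 p2 p3 => by
    have hK : (p.1 : Set ℂ) ∈ sets (lev c₁ (φ ((), S))) := by
      rw [hs]
      exact ⟨mem_sets_lev.2 ⟨p, p1, p2, rfl⟩, p3⟩
    have hbd : Bornology.IsBounded (cluster (sets (lev c₁ (φ ((), S)))) p.1) := by
      refine (isBounded_ball (x := (0 : ℂ)) (r := R)).subset ?_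
      rintro z ⟨K', h, hz⟩
      have h2 := Lk.mem hK h
      rw [hs] at h2
      obtain ⟨q, q1, -, rfl⟩ := mem_sets_lev.1 h2.1
      exact hR q q1 hz
    rw [not_disjoint_iff_nonempty_inter, clos_iff hbd]
    simp only [cluster_iff hK p.1.nonempty, MM, mem_ofPred_eq, h0, true_and]
  simp only [mem_inter_iff, mem_compl_iff, mem_preimage, mem_ofPred_eq, hS, true_and,
    mem_iInter, mem_iUnion, h1]
  refine and_congr ?_ ?_
  · simp only [mem_HC h0, H0, mem_ofPred_eq, h0, true_and]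
    push Not
    rfl
  · rw [← hs]
    constructor
    · intro h K hK hK'
      obtain ⟨p, p1, p2, rfl⟩ := mem_sets_lev.1 hK
      by_contra hn
      exact h ⟨p, p1, ⟨p2, (hd _).2 hK'⟩, (key p p1 p2 hK').2 hn⟩
    · rintro h ⟨p, p1, ⟨p2, p3⟩, p4⟩
      have hK' := (hd _).1 p3
      exact (key p p1 p2 hK').1 p4 (h _ (mem_sets_lev.2 ⟨p, p1, p2, rfl⟩) hK')

end Pool.Agent.P.MP_d66c6d_pr
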