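import Pool.Agent.P.MP_d66c6d_pr.N.Iface
import Pool.Agent.P.MP_d66c6d_pr.F.Iface
import Pool.Agent.P.MP_d66c6d_pr.C.Iface

/-! Step GLUE of the carpet project. -/

namespace Pool.Agent.P.MP_d66c6d_pr

open MeasureTheory ProbabilityTheory Set Metric Filter Topology
open scoped ENNReal

namespace GlueA

/-- A set whose filling leaves a disc centred at the origin leaves this disc. -/
theorem meets_out {K : Set ℂ} {w : ℂ} (hw : w ∈ fill K) (hw' : w ∈ (ball (0 : ℂ) 2)ᶜ) :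
    (K ∩ (ball 0 2)ᶜ).Nonempty := by
  by_contra hn
  exact hw' (fill_subset_ball two_pos (fun z hz => by_contra fun h => hn ⟨z, hz, h⟩) hw)

/-- Chains of images come from chains inside the domain. -/
theorem pull {S' : Cfg KC} {D : Set ℂ} {f : ℂ → ℂ} (hf : ContinuousOn f D) (hi : InjOn f D)
    {M M' : Set ℂ} (hM : M ∈ sets ((S'.res (inK D)).map (imK D f)))
    (h : Lk (sets ((S'.res (inK D)).map (imK D f))) M M') :
    ∃ K ∈ {K ∈ sets S' | K ⊆ D}, ∃ K', Lk {K ∈ sets S' | K ⊆ D} K K' ∧ M = f '' K ∧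
      M' = f '' K' := by
  have key : ∀ M ∈ sets ((S'.res (inK D)).map (imK D f)),
      ∃ K ∈ {K ∈ sets S' | K ⊆ D}, M = f '' K := by
    rintro _ ⟨_, ⟨L, hL, rfl⟩, rfl⟩
    exact ⟨L, ⟨⟨L, hL.1, rfl⟩, hL.2⟩, coe_imK hf hL.2⟩
  obtain ⟨K, hK, rfl⟩ := key M hM
  refine ⟨K, hK, ?_⟩
  induction h with
  | refl => exact ⟨K, .refl, rfl, rfl⟩
  | tail h1 h2 ih =>
    obtain ⟨K', c1, -, rfl⟩ := ih
    obtain ⟨K'', c2, rfl⟩ := key _ h2.1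
    obtain ⟨_, ⟨u, hu, rfl⟩, v, hv, e⟩ := h2.2
    have := hi (c2.2 hv) ((c1.mem hK).2 hu) e
    exact ⟨K'', c1.tail ⟨c2, u, hu, this ▸ hv⟩, rfl, rfl⟩

/-- A boundary point of a component of the complement of a closed set is in the closed set. -/
theorem mem_of_boundary {F : Set ℂ} (hF : IsClosed F) {c x : ℂ}
    (h1 : x ∈ closure (connectedComponentIn Fᶜ c)) (h2 : x ∉ connectedComponentIn Fᶜ c) :
    x ∈ F := by
  by_contra hn
  obtain ⟨z, z1, z2⟩ := mem_closure_iff.1 h1 _ (hF.isOpen_compl.connectedComponentIn (x := x))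
    (mem_connectedComponentIn hn)
  refine h2 ?_
  rw [connectedComponentIn_eq z2, ← connectedComponentIn_eq z1]
  exact mem_connectedComponentIn hn

/-- A set whose filling meets the explored set is reached from the seed. -/
theorem reach {S : Set (Set ℂ)} (hS : ∀ K ∈ S, IsPreconnected K) {K : Set ℂ} {w : ℂ}
    (hw : w ∈ fill K) (hw' : w ∈ (ball (0 : ℂ) 2)ᶜ ∪ kset (ball 0 2)ᶜ S) :
    (K ∩ (ball 0 2)ᶜ).Nonempty ∨ ∃ K₀ ∈ S, (K₀ ∩ (ball 0 2)ᶜ).Nonempty ∧ ∃ M, Lk S K₀ M ∧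
      (M ∩ K).Nonempty := by
  rcases hw' with h | h
  · exact Or.inl (meets_out hw h)
  obtain ⟨K₀, hK₀, ⟨a, a1, a2⟩, K₁, h1, h2⟩ := mem_kset.1 h
  by_cases ha : a ∈ fill K
  · exact Or.inl (meets_out ha a2)
  obtain ⟨M, m1, m2⟩ := Lk.meets hS (h1.mem hK₀) (h1.symm hK₀) ⟨w, h2, hw⟩ ⟨a, a1, ha⟩
  exact Or.inr ⟨K₀, hK₀, ⟨a, a1, a2⟩, M, h1.trans m1, m2⟩

/-- Chains from the seed stay in the explored part. -/
theorem stay {S Φ : Cfg KC} {A : Set ℂ} (h : S.pts ∩ hitK (A ∪ kset A (sets S)) ⊆ Φ.pts)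
    {K₀ M : Set ℂ} (hK₀ : K₀ ∈ sets S) (hA : (K₀ ∩ A).Nonempty) (hM : Lk (sets S) K₀ M) :
    K₀ ∈ sets Φ ∧ Lk (sets Φ) K₀ M := by
  have key : ∀ M ∈ sets S, Lk (sets S) K₀ M → M ∈ sets Φ := by
    rintro _ ⟨L, hL, rfl⟩ hM
    obtain ⟨z, hz⟩ := L.nonempty
    exact ⟨L, h ⟨hL, z, hz, Or.inr (mem_kset.2 ⟨K₀, hK₀, hA, _, hM, hz⟩)⟩, rfl⟩
  refine ⟨key _ hK₀ .refl, ?_⟩
  induction hM with
  | refl => exact .refl
  | tail h1 h2 ih => exact ih.tail ⟨key _ h2.1 (h1.tail h2), h2.2⟩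

end GlueA

open GlueA in
theorem p_GLUE (hJMN : S_JMN) (hEXCH : S_EXCH) (hCONF : S_CONF) :
    S_GLUE := by
  intro S S' Φ D f g hS hS' hD hc hΦ hB
  have hr := (hEXCH KC meetK (hitK (ball 0 2)ᶜ)).1 S S' Φ hΦ
  rw [hJMN.1, hJMN.1] at hr
  rw [hJMN.1] at hΦ
  set C := (ball (0 : ℂ) 2)ᶜ ∪ kset (ball 0 2)ᶜ (sets S) with hC
  have hDC : ∀ z ∈ D, z ∉ C := fun z hz h =>
    (connectedComponentIn_subset (closure C)ᶜ 0 (hD ▸ hz) : z ∉ closure C) (subset_closure h)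
  have hD2 : D ⊆ closedBall 0 2 := fun z hz =>
    ball_subset_closedBall (by_contra fun h => hDC z hz (Or.inl h))
  set T1 := {K ∈ sets S' | K ⊆ D} with hT1
  have hT1Φ : T1 ⊆ sets Φ := by
    rintro _ ⟨⟨L, hL, rfl⟩, hLD⟩
    refine ⟨L, ?_, rfl⟩
    rw [hΦ]
    exact Or.inr ⟨hL, fun ⟨z, z1, z2⟩ => hDC z (hLD z1) z2⟩
  have hT1c : ∀ K ∈ T1, IsPreconnected K := by
    rintro _ ⟨⟨L, hL, rfl⟩, -⟩
    exact hS' L hL
  have hSc : ∀ K ∈ sets S, IsPreconnected K := by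
    rintro _ ⟨L, hL, rfl⟩
    exact hS L hL
  obtain ⟨-, j, hj⟩ := hB
  set a : ℝ := 1 - 1 / ((j : ℝ) + 1) with ha
  have ha1 : a < 1 := sub_lt_self _ (by positivity)
  have hch : ∀ k : ℕ, ∃ K ∈ T1, ∃ K', Lk T1 K K' ∧ ∃ y ∈ K, ∃ x ∈ K',
      y ∈ g '' closedBall 0 a ∧ 1 - 1 / ((k : ℝ) + 1) < ‖f x‖ := fun k => by
    obtain ⟨M, hM, M', h, h1, h2⟩ := hj k
    obtain ⟨K, hK, K', h', rfl, rfl⟩ := pull hc.diff.continuousOn hc.inj hM h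
    obtain ⟨_, ⟨y, hy, rfl⟩, hy'⟩ := h1
    obtain ⟨_, ⟨x, hx, rfl⟩, hx'⟩ := h2
    exact ⟨K, hK, K', h', y, hy, x, hx,
      ⟨f y, ball_subset_closedBall hy', hc.left y (hK.2 hy)⟩, by simpa using hx'⟩
  choose K hK K' hKK y hy x hx hyQ hxf using hch
  have hxD : ∀ k, x k ∈ D := fun k => ((hKK k).mem (hK k)).2 (hx k)
  have hQ : IsCompact (g '' closedBall 0 a) :=
    (isCompact_closedBall 0 a).image_of_continuousOn (hc.cg.mono (closedBall_subset_ball ha1))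
  obtain ⟨⟨y₀, x₀⟩, ⟨hy₀, hx₀⟩, φ, hφ, hl⟩ :=
    (hQ.prod (isCompact_closedBall (0 : ℂ) 2)).tendsto_subseq (x := fun k => (y k, x k))
      fun k => ⟨hyQ k, hD2 (hxD k)⟩
  have ly : Tendsto (fun k => y (φ k)) atTop (𝓝 y₀) := (continuous_fst.tendsto _).comp hl
  have lx : Tendsto (fun k => x (φ k)) atTop (𝓝 x₀) := (continuous_snd.tendsto _).comp hl
  have hy₀D : y₀ ∈ D := by
    obtain ⟨w, hw, rfl⟩ := hy₀
    exact hc.mapsg (closedBall_subset_ball ha1 hw)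
  have hx₀D : x₀ ∉ D := fun h => by
    have h1 : Tendsto (fun k => ‖f (x (φ k))‖) atTop (𝓝 ‖f x₀‖) :=
      (((hc.diff.continuousOn.continuousAt (hc.op.mem_nhds h)).tendsto).comp lx).norm
    have h2 : Tendsto (fun k => 1 - 1 / ((φ k : ℝ) + 1)) atTop (𝓝 (1 - 0)) :=
      tendsto_const_nhds.sub
        ((tendsto_one_div_add_atTop_nhds_zero_nat (𝕜 := ℝ)).comp hφ.tendsto_atTop)
    have h3 := le_of_tendsto_of_tendsto' h2 h1 fun k => (hxf _).le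
    have h4 := mem_ball_zero_iff.1 (hc.mapsf h)
    linarith
  have hx₀C : x₀ ∈ closure C := by
    refine mem_of_boundary isClosed_closure (c := 0) ?_ (hD ▸ hx₀D)
    rw [← hD]
    exact mem_closure_of_tendsto lx (Eventually.of_forall fun k => hxD _)
  obtain ⟨i, hi, hiD⟩ := exists_rb hc.op hy₀D
  refine ⟨i, fun h => ?_, x₀, hx₀, fun T hT => ?_⟩
  · obtain ⟨z, z1, z2⟩ := joins_iff_kset.1 h
    have h1 : (⟨⟨{z}, isCompact_singleton⟩, singleton_nonempty z⟩ : KC) ∈ hitK C := by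
      rw [← hr]
      exact ⟨z, rfl, Or.inr z1⟩
    obtain ⟨w, rfl, w2⟩ := h1
    exact hDC _ (hiD z2) w2
  have hd : 0 < dist x₀ y₀ := dist_pos.2 fun e => hx₀D (e ▸ hy₀D)
  obtain ⟨L, hL, s, hs, hL1, hL2⟩ := hT _ (half_pos hd)
  have hL3 := fill_subset_ball (half_pos hd) hL2
  have hΦT : sets Φ ⊆ sets (Φ ∪ T) := image_mono subset_union_left
  have hLT : (L : Set ℂ) ∈ sets (Φ ∪ T) := ⟨L, Or.inr hL, rfl⟩
  obtain ⟨k, k1, k2, k3⟩ := ((lx.eventually (ball_mem_nhds x₀ hs)).and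
    ((ly.eventually ((isOpen_rb i).mem_nhds hi)).and
      (ly.eventually (ball_mem_nhds y₀ (half_pos hd))))).exists
  have hK' := (hKK (φ k)).mem (hK _)
  obtain ⟨M, m1, m2⟩ := Lk.meets hT1c hK' ((hKK (φ k)).symm (hK _)) (L := L)
    ⟨_, hx _, hL1 k1⟩ ⟨_, hy _, fun h => by
      have h1 := hL3 h
      have h2 := dist_triangle_left x₀ y₀ (y (φ k))
      rw [mem_ball] at h1
      linarith⟩
  have hch : Lk (sets (Φ ∪ T)) L (K (φ k)) :=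
    .head ⟨hΦT (hT1Φ (m1.mem hK')), inter_comm _ _ ▸ m2⟩
      (Lk.mono (hT1Φ.trans hΦT) ((m1.symm hK').trans ((hKK (φ k)).symm (hK _))))
  obtain ⟨w, w1, w2⟩ := mem_closure_iff.1 hx₀C _ isOpen_ball (mem_ball_self hs)
  rcases reach hSc (hL1 w1) w2 with h | ⟨K₀, hK₀, hA, N, n1, n2⟩
  · exact ⟨L, hLT, _, hch, h, _, hy _, k2⟩
  · obtain ⟨h1, h2⟩ := stay (Φ := Φ) (by rw [hΦ]; exact subset_union_left) hK₀ hA n1
    exact ⟨K₀, hΦT h1, _, ((h2.mono hΦT).tail ⟨hLT, n2⟩).trans hch, hA, _, hy _, k2⟩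

end Pool.Agent.P.MP_d66c6d_pr
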