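import Pool.Agent.P.MP_d66c6d_pr.N.Iface
import Pool.Agent.P.MP_d66c6d_pr.B.Iface

/-! Step HITB of the carpet project. -/

namespace Pool.Agent.P.MP_d66c6d_pr

open MeasureTheory ProbabilityTheory Set Metric Filter Topology
open scoped ENNReal

namespace HitbA

/-- Paths that meet `F`. -/
def M (F : Set ℂ) : Set Br := {α | (range α ∩ F).Nonempty}

theorem meas_M {F : Set ℂ} (hF : IsClosed F) : MeasurableSet (M F) := by
  have h : (M F)ᶜ = {α : Br | MapsTo α univ Fᶜ} := by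
    ext α
    simp only [M, mem_compl_iff, mem_ofPred_eq, MapsTo, mem_univ, forall_const]
    constructor
    · intro h s hs
      exact h ⟨α s, ⟨s, rfl⟩, hs⟩
    · rintro h ⟨z, ⟨s, rfl⟩, hs⟩
      exact h hs
  have ho : IsOpen (M F)ᶜ := by
    rw [h]
    exact ContinuousMap.isOpen_setOfPred_mapsTo isCompact_univ hF.isOpen_compl
  exact MeasurableSet.of_compl ho.measurableSet

/-- The path meets `F`, but not before the last of `j + 1` equal time intervals. -/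
def G (F : Set ℂ) (j : ℕ) : Set Br :=
  M F ∩ ⋂ i ∈ Finset.range j, (sub 0 (((i : ℝ) + 1) / ((j : ℝ) + 1)) ⁻¹' M F)ᶜ

theorem meas_sub (u v : ℝ) : Measurable (sub u v) :=
  Measurable.sub' measurable_const measurable_const measurable_id

theorem meas_G {F : Set ℂ} (hF : IsClosed F) (j : ℕ) : MeasurableSet (G F j) :=
  (meas_M hF).inter (Finset.measurableSet_biInter _ fun _ _ => ((meas_sub _ _) (meas_M hF)).compl)

theorem mem_G (hCUT : S_CUT) {F : Set ℂ} {n : ℝ} (hn : 0 < n) {j : ℕ} (hj : ((j : ℝ) + 1) / n ≤ 1)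
    (γ : Br) : sub 0 (((j : ℝ) + 1) / n) γ ∈ G F j ↔ sub 0 (((j : ℝ) + 1) / n) γ ∈ M F ∧
      ∀ i < j, sub 0 (((i : ℝ) + 1) / n) γ ∉ M F := by
  have key : ∀ i < j, sub 0 (((i : ℝ) + 1) / ((j : ℝ) + 1)) (sub 0 (((j : ℝ) + 1) / n) γ) =
      sub 0 (((i : ℝ) + 1) / n) γ := by
    intro i hi
    have hi' : (i : ℝ) + 1 ≤ (j : ℝ) + 1 := by
      have : (i : ℝ) ≤ j := by exact_mod_cast hi.le
      linarith
    have hj0 : (0 : ℝ) < (j : ℝ) + 1 := by positivity
    rw [hCUT.2.1 0 ⟨le_rfl, zero_le_one⟩ _ ⟨by positivity, hj⟩ 0 ⟨le_rfl, zero_le_one⟩ _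
      ⟨by positivity, (div_le_one hj0).2 hi'⟩]
    congr 1
    · simp
    · field_simp
      ring
  simp only [G, mem_inter_iff, mem_iInter, Finset.mem_range, mem_compl_iff, mem_preimage]
  refine and_congr_right fun _ => forall₂_congr fun i hi => ?_
  rw [key i hi]

theorem markov (hBMK : S_BMK) (hENC : S_ENC) {ν : Measure Br} (hν : IsBridge ν) {t : ℝ}
    (ht : 0 < t) (x : ℂ) {s : ℝ} (hs : s ∈ Ioo (0 : ℝ) 1) {E : Set Br} (hE : MeasurableSet E)
    {a r : ℝ} {η : ℝ≥0∞} (h : ∀ y, bmM ν ((1 - s) * t) y {γ | ¬ Enc γ y a r} ≤ η) :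
    bmM ν t x {γ | sub 0 s γ ∈ E ∧ ¬ Enc (sub s 1 γ) (sub 0 s γ 1) a r} ≤
      η * bmM ν t x (sub 0 s ⁻¹' E) := by
  obtain ⟨h1, h2, -⟩ := (hBMK ν hν).2 t ht x
  have hN : MeasurableSet {q : ℂ × Br | ¬ Enc q.2 q.1 a r} :=
    (hENC.1 a r).measurableSet.compl
  have hev : Measurable fun α : Br => α 1 := (continuous_eval_const (1 : unitInterval)).measurable
  have hQ : MeasurableSet {p : Br × Br | p.1 ∈ E ∧ ¬ Enc p.2 (p.1 1) a r} :=
    (measurable_fst hE).inter (((hev.comp measurable_fst).prodMk measurable_snd) hN)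
  have hpair : Measurable fun γ : Br => (sub 0 s γ, sub s 1 γ) :=
    (meas_sub _ _).prodMk (meas_sub _ _)
  have e1 : bmM ν t x {γ | sub 0 s γ ∈ E ∧ ¬ Enc (sub s 1 γ) (sub 0 s γ 1) a r} =
      ∫⁻ γ, indicator {p : Br × Br | p.1 ∈ E ∧ ¬ Enc p.2 (p.1 1) a r} 1
        (sub 0 s γ, sub s 1 γ) ∂bmM ν t x := by
    exact (lintegral_indicator_one (hpair hQ)).symm
  rw [e1, h1 s hs _ (measurable_one.indicator hQ), ← Measure.map_apply (meas_sub _ _) hE,
    h2 s hs, ← lintegral_indicator_one hE, ← lintegral_const_mul _ (measurable_one.indicator hE)]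
  refine lintegral_mono fun α => ?_
  by_cases hα : α ∈ E
  · have hN' : MeasurableSet {β : Br | ¬ Enc β (α 1) a r} :=
      (measurable_const.prodMk measurable_id) hN
    calc ∫⁻ β, indicator {p : Br × Br | p.1 ∈ E ∧ ¬ Enc p.2 (p.1 1) a r} 1 (α, β)
          ∂bmM ν ((1 - s) * t) (α 1)
        = ∫⁻ β, indicator {β : Br | ¬ Enc β (α 1) a r} 1 β ∂bmM ν ((1 - s) * t) (α 1) := by
          refine lintegral_congr fun β => ?_
          by_cases hβ : Enc β (α 1) a r <;> simp [indicator, hα, hβ]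
      _ = bmM ν ((1 - s) * t) (α 1) {β : Br | ¬ Enc β (α 1) a r} := lintegral_indicator_one hN'
      _ ≤ η * indicator E 1 α := by simpa [hα] using h (α 1)
  · simp [indicator, hα]

/-- Small oscillation at scale `1 / (n + 1)`. -/
def Good (d : ℝ) (n : ℕ) : Set Br :=
  {γ | ∀ s s' : unitInterval, dist s s' ≤ 1 / ((n : ℝ) + 1) → dist (γ s) (γ s') ≤ d}

theorem good_mono (d : ℝ) : Monotone (Good d) := by
  intro n m hnm γ hγ s s' h
  refine hγ s s' (h.trans ?_)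
  have : (n : ℝ) ≤ m := by exact_mod_cast hnm
  exact one_div_le_one_div_of_le (by positivity) (by linarith)

theorem exists_good {d : ℝ} (hd : 0 < d) (γ : Br) : ∃ n, γ ∈ Good d n := by
  have hu := CompactSpace.uniformContinuous_of_continuous γ.continuous
  obtain ⟨δ, hδ, h⟩ := Metric.uniformContinuous_iff.1 hu d hd
  obtain ⟨n, hn⟩ := exists_nat_one_div_lt hδ
  exact ⟨n, fun s s' hs => (h (hs.trans_lt hn)).le⟩

/-- The first time in `F` is at most `1 - κ` and the path does not wind at radius `r`. -/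
def Bad (F : Set ℂ) (κ r : ℝ) : Set Br := {γ | ∃ τ : unitInterval, (τ : ℝ) ≤ 1 - κ ∧ γ τ ∈ F ∧
  (∀ s < τ, γ s ∉ F) ∧ ∀ a > (0 : ℝ), ¬ Enc (sub τ 1 γ) (γ τ) a r}

theorem cover (hENC : S_ENC) (hCUT : S_CUT) {F : Set ℂ} {κ r a : ℝ} (ha : 0 < a) (hr : 0 < r)
    {n : ℕ} (hn : 1 / ((n : ℝ) + 1) ≤ κ / 2) {γ : Br} (hb : γ ∈ Bad F κ r)
    (hg : γ ∈ Good (min a r / 2) n) : ∃ j : ℕ, ((j : ℝ) + 1) / ((n : ℝ) + 1) ≤ 1 - κ / 2 ∧
      sub 0 (((j : ℝ) + 1) / ((n : ℝ) + 1)) γ ∈ G F j ∧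
      ¬ Enc (sub (((j : ℝ) + 1) / ((n : ℝ) + 1)) 1 γ)
        (sub 0 (((j : ℝ) + 1) / ((n : ℝ) + 1)) γ 1) a (r / 2) := by
  classical
  obtain ⟨τ, hτ, hF, hfirst, hno⟩ := hb
  have hn0 : (0 : ℝ) < (n : ℝ) + 1 := by positivity
  have hκ : 0 < κ := by
    have : (0 : ℝ) < 1 / ((n : ℝ) + 1) := by positivity
    linarith
  have hex : ∃ j : ℕ, (τ : ℝ) ≤ ((j : ℝ) + 1) / ((n : ℝ) + 1) :=
    ⟨n, by rw [div_self hn0.ne']; exact τ.2.2⟩
  set j := Nat.find hex with hj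
  have h1 : (τ : ℝ) ≤ ((j : ℝ) + 1) / ((n : ℝ) + 1) := Nat.find_spec hex
  have h2 : ∀ i < j, ((i : ℝ) + 1) / ((n : ℝ) + 1) < τ := fun i hi =>
    not_le.1 (Nat.find_min hex hi)
  have h3 : ((j : ℝ) + 1) / ((n : ℝ) + 1) ≤ τ + 1 / ((n : ℝ) + 1) := by
    rcases Nat.eq_zero_or_pos j with h0 | h0
    · rw [h0]
      have := τ.2.1
      simp only [Nat.cast_zero, zero_add]
      linarith
    · have := h2 (j - 1) (by omega)
      rw [Nat.cast_pred h0, sub_add_cancel] at this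
      rw [add_div]
      linarith
  set s : ℝ := ((j : ℝ) + 1) / ((n : ℝ) + 1) with hs
  have hs0 : 0 ≤ s := by positivity
  have hs1 : s ≤ 1 - κ / 2 := by linarith
  have hs2 : s ≤ 1 := by linarith
  refine ⟨j, hs1, (mem_G hCUT hn0 hs2 γ).2 ⟨?_, fun i hi hM => ?_⟩, fun hE => ?_⟩
  · refine ⟨γ τ, ?_, hF⟩
    rw [hCUT.2.2.2.1 0 s le_rfl hs0 hs2]
    exact ⟨τ, ⟨τ.2.1, h1⟩, rfl⟩
  · obtain ⟨z, hz, hzF⟩ := hM
    have hi2 := h2 i hi
    rw [hCUT.2.2.2.1 0 _ le_rfl (by positivity) (hi2.le.trans τ.2.2)] at hz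
    obtain ⟨u, hu, rfl⟩ := hz
    exact hfirst u (Subtype.coe_lt_coe.1 (hu.2.trans_lt hi2)) hzF
  · have hm : 0 < min a r := lt_min ha hr
    have hv : sub 0 s γ 1 = γ ⟨s, hs0, hs2⟩ := by
      rw [sub_apply]
      congr 1
      simp [projIcc_of_mem zero_le_one ⟨hs0, hs2⟩]
    have hd : dist (γ ⟨s, hs0, hs2⟩) (γ τ) ≤ min a r / 2 := by
      refine hg _ _ ?_
      rw [Subtype.dist_eq, Real.dist_eq, abs_le]
      constructor
      · have : (0 : ℝ) < 1 / ((n : ℝ) + 1) := by positivity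
        simp only
        linarith
      · simp only
        linarith
    rw [hv] at hE
    refine hno (min a r / 2) (half_pos hm) (hENC.2.1 _ _ _ _ _ _ _ _ ?_ ?_ ?_ hE)
    · rw [hCUT.2.2.2.1 s 1 hs0 hs2 le_rfl, hCUT.2.2.2.1 τ 1 τ.2.1 τ.2.2 le_rfl]
      exact image_mono fun u hu => ⟨h1.trans hu.1, hu.2⟩
    · have := min_le_left a r
      linarith
    · have := min_le_right a r
      linarith

theorem bad_zero (hSTART : S_START) (hBMK : S_BMK) (hENC : S_ENC) (hCUT : S_CUT) (hBM : S_BM)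
    {ν : Measure Br} (hν : IsBridge ν) {t : ℝ} (ht : 0 < t) (x : ℂ) {F : Set ℂ} (hF : IsClosed F)
    {κ r : ℝ} (hκ : 0 < κ) (hr : 0 < r) : bmM ν t x (Bad F κ r) = 0 := by
  classical
  have := ((hBM ν hν).1 t ht x).1
  refine le_antisymm (ENNReal.le_of_forall_pos_le_add fun η hη _ => ?_) zero_le
  rw [zero_add]
  obtain ⟨a, ha, hS⟩ := hSTART ν hν (κ / 2 * t) (by positivity) (r / 2) (half_pos hr) η
    (by exact_mod_cast hη.ne')
  obtain ⟨N, hN⟩ := exists_nat_one_div_lt (half_pos hκ)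
  have hm : 0 < min a r / 2 := half_pos (lt_min ha hr)
  have hU : Bad F κ r = ⋃ k : ℕ, Bad F κ r ∩ Good (min a r / 2) (k + N) := by
    refine Subset.antisymm (fun γ hγ => ?_) (iUnion_subset fun _ => inter_subset_left)
    obtain ⟨k, hk⟩ := exists_good hm γ
    exact mem_iUnion.2 ⟨k, hγ, good_mono _ (Nat.le_add_right k N) hk⟩
  have hmono : Monotone fun k : ℕ => Bad F κ r ∩ Good (min a r / 2) (k + N) :=
    fun k l hkl => inter_subset_inter_right _ (good_mono _ (Nat.add_le_add_right hkl N))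
  rw [hU, hmono.measure_iUnion]
  refine iSup_le fun k => ?_
  set n := k + N with hn
  have hn0 : (0 : ℝ) < (n : ℝ) + 1 := by positivity
  have hn1 : 1 / ((n : ℝ) + 1) ≤ κ / 2 := by
    refine le_trans (one_div_le_one_div_of_le (by positivity) ?_) hN.le
    rw [hn]
    push_cast
    have : (0 : ℝ) ≤ k := by positivity
    linarith
  let s : ℕ → ℝ := fun j => ((j : ℝ) + 1) / ((n : ℝ) + 1)
  let J : Finset ℕ := (Finset.range (n + 1)).filter fun j => s j ≤ 1 - κ / 2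
  have hJ : ∀ j ∈ J, s j ≤ 1 - κ / 2 := fun j hj => (Finset.mem_filter.1 hj).2
  have hs0 : ∀ j, 0 < s j := fun j => by positivity
  calc bmM ν t x (Bad F κ r ∩ Good (min a r / 2) n)
      ≤ bmM ν t x (⋃ j ∈ J, {γ | sub 0 (s j) γ ∈ G F j ∧
          ¬ Enc (sub (s j) 1 γ) (sub 0 (s j) γ 1) a (r / 2)}) := by
        refine measure_mono fun γ hγ => ?_
        obtain ⟨j, h1, h2⟩ := cover hENC hCUT ha hr hn1 hγ.1 hγ.2
        refine mem_biUnion (x := j) (Finset.mem_coe.2 (Finset.mem_filter.2 ⟨?_, h1⟩)) h2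
        rw [Finset.mem_range]
        have h3 : ((j : ℝ) + 1) / ((n : ℝ) + 1) ≤ 1 := by linarith
        rw [div_le_one hn0] at h3
        have : (j : ℝ) ≤ n := by linarith
        have : j ≤ n := by exact_mod_cast this
        omega
    _ ≤ ∑ j ∈ J, bmM ν t x {γ | sub 0 (s j) γ ∈ G F j ∧
          ¬ Enc (sub (s j) 1 γ) (sub 0 (s j) γ 1) a (r / 2)} := measure_biUnion_finset_le _ _
    _ ≤ ∑ j ∈ J, η * bmM ν t x (sub 0 (s j) ⁻¹' G F j) := by
        refine Finset.sum_le_sum fun j hj => ?_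
        have h1 := hJ j hj
        refine markov hBMK hENC hν ht x ⟨hs0 j, by linarith⟩ (meas_G hF j) fun y => ?_
        exact hS _ (mul_le_mul_of_nonneg_right (by linarith) ht.le) y
    _ = η * bmM ν t x (⋃ j ∈ J, sub 0 (s j) ⁻¹' G F j) := by
        rw [← Finset.mul_sum, measure_biUnion_finset ?_
          fun j _ => meas_sub _ _ (meas_G hF j)]
        have key : ∀ i ∈ J, ∀ j ∈ J, i < j →
            Disjoint (sub 0 (s i) ⁻¹' G F i) (sub 0 (s j) ⁻¹' G F j) := by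
          intro i hi j hj hij
          refine Set.disjoint_left.2 fun γ h1 h2 => ?_
          have a1 := hJ i hi
          have a2 := hJ j hj
          exact ((mem_G hCUT hn0 (by change s j ≤ 1; linarith) γ).1 h2).2 i hij
            ((mem_G hCUT hn0 (by change s i ≤ 1; linarith) γ).1 h1).1
        intro i hi j hj hij
        rcases lt_or_gt_of_ne hij with h | h
        · exact key i hi j hj h
        · exact (key j hj i hi h).symm
    _ ≤ η := by
        calc _ ≤ (η : ℝ≥0∞) * 1 := by gcongr; exact prob_le_one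
          _ = η := mul_one _

end HitbA

theorem p_HITB (hSTART : S_START) (hBMK : S_BMK) (hENC : S_ENC) (hCUT : S_CUT) (hREV : S_REV) (hBM : S_BM) :
    S_HITB := by
  intro ν hν t ht x F hF
  have h : ∀ᵐ γ ∂bmM ν t x, ∀ k m : ℕ,
      γ ∉ HitbA.Bad F (1 / ((k : ℝ) + 1)) (1 / ((m : ℝ) + 1)) := by
    refine ae_all_iff.2 fun k => ae_all_iff.2 fun m => ?_
    exact measure_eq_zero_iff_ae_notMem.1 (HitbA.bad_zero hSTART hBMK hENC hCUT hBM hν ht x hF
      (by positivity) (by positivity))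
  filter_upwards [h] with γ hγ τ hτ hF hfirst r hr
  obtain ⟨k, hk⟩ := exists_nat_one_div_lt (sub_pos.2 hτ)
  obtain ⟨m, hm⟩ := exists_nat_one_div_lt hr
  by_contra hno
  refine hγ k m ⟨τ, by linarith, hF, hfirst, fun a ha hE => hno ⟨a, ha, ?_⟩⟩
  exact hENC.2.1 _ _ _ _ _ _ _ _ Subset.rfl (by simp) (by simpa using hm.le) hE

end Pool.Agent.P.MP_d66c6d_pr
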