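import Pool.Agent.P.MP_d66c6d_pr.N.Iface
import Pool.Agent.P.MP_d66c6d_pr.T.Iface
import Pool.Agent.P.MP_d66c6d_pr.F.Iface

/-! Step IMS of the carpet project. -/

namespace Pool.Agent.P.MP_d66c6d_pr

open MeasureTheory ProbabilityTheory Set Metric Filter Topology
open scoped ENNReal

namespace ImsA

/-- The outside of a disc is connected. -/
theorem preconn_out : IsPreconnected (ball (0 : ℂ) 2)ᶜ := by
  have h1 : IsPreconnected (Ici (2 : ℝ) ×ˢ (univ : Set ℝ)) :=
    isPreconnected_Ici.prod isPreconnected_univ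
  have h2 := h1.image (fun p : ℝ × ℝ => (p.1 : ℂ) * Complex.exp (p.2 * Complex.I))
    (by fun_prop)
  have e : (fun p : ℝ × ℝ => (p.1 : ℂ) * Complex.exp (p.2 * Complex.I)) ''
      (Ici (2 : ℝ) ×ˢ (univ : Set ℝ)) = (ball (0 : ℂ) 2)ᶜ := by
    ext z
    simp only [mem_image, mem_prod, mem_Ici, mem_univ, and_true, mem_compl_iff, mem_ball,
      dist_zero_right, not_lt]
    constructor
    · rintro ⟨p, hp, rfl⟩
      rw [norm_mul, Complex.norm_exp_ofReal_mul_I, mul_one, Complex.norm_real, Real.norm_eq_abs]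
      exact hp.trans (le_abs_self _)
    · intro hz
      exact ⟨(‖z‖, z.arg), hz, Complex.norm_mul_exp_arg_mul_I z⟩
  rwa [e] at h2

theorem preconn_kset {A : Set ℂ} {T : Set (Set ℂ)} (hA : IsPreconnected A) (hne : A.Nonempty)
    (hT : ∀ K ∈ T, IsPreconnected K) : IsPreconnected (A ∪ kset A T) := by
  obtain ⟨x, hx⟩ := hne
  refine isPreconnected_of_forall x ?_
  rintro y (hy | hy)
  · exact ⟨A, subset_union_left, hx, hy, hA⟩
  · obtain ⟨K, hK, ⟨w, w1, w2⟩, K', h, hz⟩ := mem_kset.1 hy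
    refine ⟨A ∪ cluster T K, union_subset_union_right _ ?_, Or.inl hx, Or.inr ⟨K', h, hz⟩,
      hA.union w w2 ⟨K, .refl, w1⟩ (isPreconnected_cluster hT hK ⟨w, w1⟩)⟩
    rintro u ⟨M, hM, hu⟩
    exact mem_kset.2 ⟨K, hK, ⟨w, w1, w2⟩, M, hM, hu⟩

theorem unbdd_out : ¬ Bornology.IsBounded (ball (0 : ℂ) 2)ᶜ := fun h => by
  have h1 := (isBounded_ball (x := (0 : ℂ)) (r := 2)).union h
  rw [union_compl_self] at h1
  exact NormedSpace.unbounded_univ ℝ ℂ h1

end ImsA

theorem p_IMS (hCIK : S_CIK) (hRMT : S_RMT) (hIMG : S_IMG) (hPPO : S_PPO) (hDEC : S_DEC) (hMUK : S_MUK) :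
    S_IMS := by
  refine ⟨fun ν hν D f g hc c V hDV => ?_, fun S hS hJ D hD => ?_⟩
  · obtain ⟨hm, hmap⟩ := hCIK ν hν D f g hc
    have hD : MeasurableSet (inK D) := (isOpen_inK hc.op).measurableSet
    have s1 := (hDEC.2 ν hν c).2.1 (inK V)
    have s2 := (hDEC.2 ν hν c).2.1 (inK D)
    refine ⟨(measurable_cfgMap hm).comp (measurable_res hD), ?_⟩
    have e0 : (fun S : Cfg KC => (S.res (inK D)).map (imK D f)) =
        Cfg.map (imK D f) ∘ Cfg.res (inK D) := rfl
    have e1 : inK D ∩ inK V = inK D := inter_eq_left.2 fun K hK => Subset.trans hK hDV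
    rw [e0, ← Measure.map_map (measurable_cfgMap hm) (measurable_res hD), soupN, soupN,
      (hPPO KC _ inferInstance).2.1 _ hD, Measure.restrict_smul, Measure.restrict_restrict hD, e1,
      (hPPO KC _ inferInstance).2.2.1 KC _ hm, Measure.map_smul, hmap]
  · set C := closure ((ball (0 : ℂ) 2)ᶜ ∪ kset (ball 0 2)ᶜ (sets S)) with hC
    have hT : ∀ K ∈ sets S, IsPreconnected K := by
      rintro _ ⟨K, hK, rfl⟩
      exact hS K hK
    have hsub : (ball (0 : ℂ) 2)ᶜ ⊆ C := subset_union_left.trans subset_closure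
    have h0 : (0 : ℂ) ∈ Cᶜ := by
      intro h
      obtain ⟨z, z1, z2 | z2⟩ := mem_closure_iff.1 h (ball 0 1) isOpen_ball (mem_ball_self one_pos)
      · exact z2 (ball_subset_ball (by norm_num) z1)
      · exact hJ (joins_iff_kset.2 ⟨z, z2, z1⟩)
    have hD2 : D ⊆ ball 0 2 := by
      rw [hD]
      exact (connectedComponentIn_subset _ _).trans (compl_subset_comm.1 hsub)
    have hne : ((ball (0 : ℂ) 2)ᶜ).Nonempty := ⟨2, by simp⟩
    refine ⟨hD2.trans (ball_subset_ball (by norm_num)), ?_⟩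
    have hno := hIMG.2 C isClosed_closure (ImsA.preconn_kset ImsA.preconn_out hne hT).closure
      (fun h => ImsA.unbdd_out (h.subset hsub)) 0
    obtain ⟨f, g, h, -⟩ := hRMT D (hD ▸ isClosed_closure.isOpen_compl.connectedComponentIn)
      (hD ▸ isPreconnected_connectedComponentIn) (hD ▸ hno) (by
        intro h
        obtain ⟨x, hx⟩ := hne
        exact hx (hD2 (h ▸ mem_univ x))) 0 (hD ▸ mem_connectedComponentIn h0)
    exact ⟨f, g, h⟩

end Pool.Agent.P.MP_d66c6d_pr
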