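import Pool.Agent.P.MP_d66c6d_pr.N.Iface
import Pool.Agent.P.MP_d66c6d_pr.F.Iface

/-! Step JMN of the carpet project. -/

namespace Pool.Agent.P.MP_d66c6d_pr

open MeasureTheory ProbabilityTheory Set Metric Filter Topology
open scoped ENNReal

namespace JmnA

theorem sub_kset {A K : Set ℂ} {T : Set (Set ℂ)} (hK : K ∈ T)
    (h : (K ∩ (A ∪ kset A T)).Nonempty) : K ⊆ kset A T := by
  obtain ⟨z, hz, h | h⟩ := h
  · exact fun w hw => mem_kset.2 ⟨K, hK, ⟨z, hz, h⟩, K, .refl, hw⟩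
  · obtain ⟨K0, h0, h1, K', hl, hz'⟩ := mem_kset.1 h
    exact fun w hw => mem_kset.2 ⟨K0, h0, h1, K, hl.tail ⟨hK, z, hz', hz⟩, hw⟩

theorem gen {E : Type} (π : E → KC) (ok : E → Prop) (S : Cfg E) (T : Set (Set ℂ))
    (hT : ∀ K, K ∈ T ↔ ∃ u ∈ S.pts, ok u ∧ (π u : Set ℂ) = K) (A : Set ℂ) (R : E → E → Prop)
    (hR : ∀ u v, R u v ↔ ok u ∧ meetK (π u) (π v)) :
    rch R (π ⁻¹' hitK A) S = π ⁻¹' hitK (A ∪ kset A T) := by
  ext x
  constructor
  · rintro ⟨y, hy, h⟩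
    induction h with
    | refl => exact Nonempty.mono (inter_subset_inter_right _ subset_union_left) hy
    | tail _ h2 ih =>
      obtain ⟨o, z, z1, z2⟩ := (hR _ _).1 h2.2
      exact ⟨z, z2, Or.inr (sub_kset ((hT _).2 ⟨_, h2.1, o, rfl⟩) ih z1)⟩
  · rintro ⟨z, hz, h | h⟩
    · exact ⟨x, ⟨z, hz, h⟩, .refl⟩
    · obtain ⟨K0, h0, h1, K', hl, hz'⟩ := mem_kset.1 h
      have key : ∀ x : E, (K' ∩ (π x : Set ℂ)).Nonempty → x ∈ rch R (π ⁻¹' hitK A) S := by
        clear hz'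
        induction hl with
        | refl =>
          obtain ⟨u, hu, o, rfl⟩ := (hT _).1 h0
          exact fun x hx => ⟨u, h1, .single ⟨hu, (hR _ _).2 ⟨o, hx⟩⟩⟩
        | tail _ h2 ih =>
          obtain ⟨u, hu, o, rfl⟩ := (hT _).1 h2.1
          obtain ⟨y, hy, hc⟩ := ih u h2.2
          exact fun x hx => ⟨y, hy, hc.tail ⟨hu, (hR _ _).2 ⟨o, hx⟩⟩⟩
      exact key x ⟨z, hz', hz⟩

theorem one (A : Set ℂ) (S : Cfg KC) : rch meetK (hitK A) S = hitK (A ∪ kset A (sets S)) :=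
  gen id (fun _ => True) S (sets S) (fun K => by simp [mem_sets]) A meetK fun _ _ => by simp

theorem joins_iff (A B : Set ℂ) (S : Cfg KC) :
    Joins (sets S) A B ↔ ∃ x ∈ S.pts, x ∈ rch meetK (hitK A) S ∧ x ∈ hitK B := by
  rw [one]
  constructor
  · rintro ⟨K, hK, K', hl, h1, h2⟩
    obtain ⟨x, hx, rfl⟩ := mem_sets.1 (hl.mem hK)
    obtain ⟨z, hz⟩ := x.nonempty
    exact ⟨x, hx, ⟨z, hz, Or.inr (mem_kset.2 ⟨K, hK, h1, _, hl, hz⟩)⟩, h2⟩
  · rintro ⟨x, hx, h1, z, z1, z2⟩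
    exact joins_iff_kset.2 ⟨z, sub_kset (mem_sets.2 ⟨x, hx, rfl⟩) h1 z1, z2⟩

end JmnA

open JmnA in
theorem p_JMN (hRCH : S_RCH) (hJOINT : S_JOINT) :
    S_JMN := by
  have h3 : ∀ (Y : Type) [MeasurableSpace Y] (A B : Y → Set ℂ),
      MeasurableSet {q : Y × KC | q.2 ∈ hitK (A q.1)} →
      MeasurableSet {q : Y × KC | q.2 ∈ hitK (B q.1)} →
      MeasurableSet {q : Y × Cfg KC | LF stdA q.2 ∧ Joins (sets q.2) (A q.1) (B q.1)} := by
    intro Y _ A B hA hB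
    have m1 := hRCH KC stdA measurableSet_stdA Y (fun _ => meetK) (fun y => hitK (A y))
      (measurable_snd measurableSet_meetK) hA
    have m2 : MeasurableSet {q : Y × Cfg KC × KC | q.2.2 ∈ hitK (B q.1)} :=
      (measurable_fst.prodMk (measurable_snd.comp measurable_snd)) hB
    refine ((hJOINT KC).2.2.1 stdA measurableSet_stdA Y _ (m1.inter m2)).1.congr ?_
    ext q
    simp only [mem_ofPred_eq, mem_inter_iff, joins_iff]
    exact ⟨fun ⟨h, x, hx, a, b⟩ => ⟨h, x, hx, a.2, b⟩, fun ⟨h, x, hx, a, b⟩ => ⟨h, x, hx, ⟨h, a⟩, b⟩⟩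
  have h4 : ∀ A B : Set ℂ, MeasurableSet (hitK A) → MeasurableSet (hitK B) →
      MeasurableSet {S : Cfg KC | LF stdA S ∧ Joins (sets S) A B} := fun A B hA hB =>
    (measurable_const.prodMk measurable_id : Measurable fun S : Cfg KC => ((), S))
      (h3 Unit (fun _ => A) (fun _ => B) (measurable_snd hA) (measurable_snd hB))
  have h5 : MeasurableSet {S : Cfg KC | LF stdA S} := by
    have m1 := (measurable_const.prodMk measurable_id : Measurable fun S : Cfg KC => ((), S))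
      ((hJOINT KC).2.2.1 stdA measurableSet_stdA Unit univ MeasurableSet.univ).1
    refine (m1.union (measurableSet_vd MeasurableSet.univ)).congr ?_
    ext S
    simp only [mem_union, mem_preimage, mem_ofPred_eq, mem_univ, and_true, mem_vd,
      not_true_eq_false]
    constructor
    · rintro (h | h)
      · exact h.1
      · have e : S.pts = ∅ := eq_empty_iff_forall_notMem.2 h
        exact ⟨by simp [e], fun j => by simp [e]⟩
    · intro h
      by_cases e : ∃ x, x ∈ S.pts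
      · exact Or.inl ⟨h, e⟩
      · exact Or.inr fun x hx => e ⟨x, hx⟩
  refine ⟨one, fun A c S => JmnA.gen Prod.fst (fun u => u.2 ≤ c) S _ (fun K => ?_) A _
    fun _ _ => Iff.rfl, h3, h4, h5, ?_, fun i => h4 _ _
      (isClosed_hitK isOpen_ball.isClosed_compl).measurableSet
      (isOpen_hitK (isOpen_rb i)).measurableSet⟩
  · constructor
    · rintro ⟨_, ⟨u, hu, rfl⟩, rfl⟩
      exact ⟨u, hu.1, hu.2, rfl⟩
    · rintro ⟨u, h1, h2, rfl⟩
      exact ⟨u.1, ⟨u, ⟨h1, h2⟩, rfl⟩, rfl⟩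
  · refine (MeasurableSet.iUnion fun j : ℕ => MeasurableSet.iInter fun k : ℕ =>
      h4 (ball 0 (1 - 1 / ((j : ℝ) + 1))) (closedBall 0 (1 - 1 / ((k : ℝ) + 1)))ᶜ
        (isOpen_hitK isOpen_ball).measurableSet
        (isOpen_hitK isClosed_closedBall.isOpen_compl).measurableSet).congr ?_
    ext S
    simp only [mem_iUnion, mem_iInter, mem_ofPred_eq, BTe]
    exact ⟨fun ⟨j, h⟩ => ⟨(h 0).1, j, fun k => (h k).2⟩, fun ⟨h, j, h'⟩ => ⟨j, fun k => ⟨h, h' k⟩⟩⟩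

end Pool.Agent.P.MP_d66c6d_pr
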