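import Pool.Agent.P.MP_d66c6d_pr.N.Iface
import Pool.Agent.P.MP_d66c6d_pr.F.Iface

/-! Step JMP of the carpet project. -/

namespace Pool.Agent.P.MP_d66c6d_pr

open MeasureTheory ProbabilityTheory Set Metric Filter Topology
open scoped ENNReal

namespace JmpA

theorem exists_of_ae {Ω : Type*} [MeasurableSpace Ω] {μ : Measure Ω} {s : Set Ω} (hs : μ s ≠ 0)
    {p : Ω → Prop} (hp : ∀ᵐ x ∂μ, p x) : ∃ x ∈ s, p x := by
  by_contra h
  push Not at h
  exact hs (measure_mono_null (fun x hx => h x hx) (ae_iff.1 hp))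

theorem lf_union {E : Type} {A : ℕ → Set E} {S T : Cfg E} (hS : LF A S) (hT : LF A T) :
    LF A (S ∪ T) := by
  refine ⟨union_subset hS.1 hT.1, fun j => ?_⟩
  rw [Cfg.pts_union, union_inter_distrib_right]
  exact (hS.2 j).union (hT.2 j)

theorem lower {Ω : Type*} [MeasurableSpace Ω] (P Q : Measure Ω) [IsProbabilityMeasure P]
    [IsProbabilityMeasure Q] {W : Set (Ω × Ω)} (hW : MeasurableSet W) {E B : Set Ω}
    (hE : MeasurableSet E) (hB : MeasurableSet B) (hd : Disjoint E B)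
    (h : ∀ S ∈ E ∪ B, Q (Prod.mk S ⁻¹' W) = 1) : P E + P B ≤ (P.prod Q) W := by
  rw [← measure_union hd hB, Measure.prod_apply hW, ← lintegral_indicator_one (hE.union hB)]
  refine lintegral_mono fun S => ?_
  by_cases hS : S ∈ E ∪ B
  · simp [indicator_of_mem hS, h S hS]
  · simp [indicator_of_notMem hS]

end JmpA

open JmpA in
theorem p_JMP (hEXCH : S_EXCH) (hJMN : S_JMN) (hDEC : S_DEC) (hSURK : S_SURK) (hMONO : S_MONO) (hPOS : S_POS) (hGLUE : S_GLUE) (hIMS : S_IMS) :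
    S_JMP := by
  intro ν hν c hc hsub hp
  obtain ⟨-, -, -, -, -, hBT, hEB⟩ := hJMN
  have hd : ∀ n : ℕ, (0 : ℝ) < 1 / ((n : ℝ) + 1) := fun n => by positivity
  set P := soupN ν c (ball 0 3) with hP
  set Q : ℕ → Measure (Cfg KC) := fun n => soupN ν (1 / ((n : ℝ) + 1)) (ball 0 3) with hQ
  have hU : Measurable fun p : Cfg KC × Cfg KC => p.1 ∪ p.2 :=
    Measurable.cfgUnion measurable_fst measurable_snd
  set W : ℕ → Set (Cfg KC × Cfg KC) := fun i => (fun p => p.1 ∪ p.2) ⁻¹' EB (rb i) with hW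
  have hWm : ∀ i, MeasurableSet (W i) := fun i => hU (hEB i)
  set B : ℕ → Set (Cfg KC) := fun i =>
    (EB (rb i))ᶜ ∩ ⋂ n, {S | Q n (Prod.mk S ⁻¹' W i) = 1} with hB
  have hBm : ∀ i, MeasurableSet (B i) := fun i =>
    (hEB i).compl.inter (MeasurableSet.iInter fun n =>
      measurable_measure_prodMk_left (ν := Q n) (hWm i) (measurableSet_singleton 1))
  have hQLF : ∀ n, ∀ᵐ T ∂Q n, LF stdA T := fun n =>
    (((hDEC.2 ν hν (1 / ((n : ℝ) + 1))).2.2.2 (ball 0 3)).mono fun T hT => hT.1)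
  have hone : ∀ n i S, (∀ᵐ T ∂Q n, S ∪ T ∈ EB (rb i)) → Q n (Prod.mk S ⁻¹' W i) = 1 :=
    fun n i S h => (prob_compl_eq_zero_iff (measurable_prodMk_left (hWm i))).1 (ae_iff.1 h)
  have hex : ∃ i, P (B i) ≠ 0 := by
    by_contra hno
    push Not at hno
    have h0 : ∀ᵐ S ∂P, LF stdA S ∧ ∀ i, S ∉ B i :=
      (((hDEC.2 ν hν c).2.2.2 (ball 0 3)).mono fun T hT => hT.1).and
        (ae_all_iff.2 fun i => measure_eq_zero_iff_ae_notMem.1 (hno i))
    obtain ⟨φ, hφ, hid⟩ := (hEXCH KC meetK (hitK (ball 0 2)ᶜ)).2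
      (ENNReal.ofReal c • (muK ν).restrict (inK (ball 0 3))) ((hDEC.2 ν hν c).2.1 _)
      measurableSet_meetK (isClosed_hitK isOpen_ball.isClosed_compl).measurableSet
    have h1 := (hφ.quasiMeasurePreserving.ae h0).and hid
    have h2 := Measure.ae_ae_of_ae_prod h1
    have hC : ∀ᵐ S ∂P, Conn S :=
      ((hDEC.2 ν hν c).2.2.2 (ball 0 3)).mono fun T hT => hT.2.1
    obtain ⟨S, hS, hSc, hS2⟩ := exists_of_ae (hPOS ν hν c hsub) (hC.and h2)
    obtain ⟨hD3, f, g, hfg⟩ := hIMS.2 S hSc hS.2 _ rfl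
    have hmp := hIMS.1 ν hν _ f g hfg c (ball 0 3) hD3
    rw [← hmp.measure_preimage hBT.nullMeasurableSet] at hp
    obtain ⟨S', hS', hSc', ⟨hLF, hnB⟩, hpts⟩ := exists_of_ae hp (hC.and hS2)
    obtain ⟨i, hi, x, hx, hT⟩ := hGLUE S S' (φ (S, S')) _ f g hSc hSc' rfl hfg hpts hS'
    refine hnB i ⟨fun h => hi h.2, mem_iInter.2 fun n => hone n i _ ?_⟩
    filter_upwards [hQLF n, hSURK ν hν _ (hd n) (ball 0 3) isOpen_ball x
      (closedBall_subset_ball (by norm_num) hx)] with T h1 h2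
    exact ⟨lf_union hLF h1, hT T h2⟩
  obtain ⟨i, hi⟩ := hex
  refine ⟨i, P (B i), hi, fun n => ?_⟩
  rw [← (hMONO ν hν).1 (ball 0 3) c _ hc (hd n).le, Measure.map_apply hU (hEB i)]
  refine lower P (Q n) (hWm i) (hEB i) (hBm i)
    (disjoint_left.2 fun S h1 h2 => h2.1 h1) ?_
  rintro S (hS | hS)
  · refine hone n i S ?_
    filter_upwards [hQLF n] with T hT
    exact ⟨lf_union hS.1 hT,
      hS.2.mono (image_mono subset_union_left) Subset.rfl Subset.rfl⟩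
  · exact mem_iInter.1 hS.2 n

end Pool.Agent.P.MP_d66c6d_pr
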