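import Pool.Agent.P.MP_d66c6d_pr.N.Iface
import Pool.Agent.P.MP_d66c6d_pr.F.Iface

/-! Step MONO of the carpet project. -/

namespace Pool.Agent.P.MP_d66c6d_pr

open MeasureTheory ProbabilityTheory Set Metric Filter Topology
open scoped ENNReal

namespace MonoA

theorem le_union (P Q : Measure (Cfg KC)) [IsProbabilityMeasure P] [IsProbabilityMeasure Q]
    {E F : Set (Cfg KC)} (hF : ∀ᵐ T ∂Q, T ∈ F) (h : ∀ S ∈ E, ∀ T ∈ F, S ∪ T ∈ E) :
    P E ≤ ((P.prod Q).map fun p => p.1 ∪ p.2) E := by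
  have h1 : Q F = 1 := (measure_congr (ae_eq_univ.2 hF)).trans measure_univ
  have h2 : Measurable fun p : Cfg KC × Cfg KC => p.1 ∪ p.2 :=
    Measurable.cfgUnion measurable_fst measurable_snd
  calc P E = (P.prod Q) (E ×ˢ F) := by rw [Measure.prod_prod, h1, mul_one]
    _ ≤ (P.prod Q) ((fun p => p.1 ∪ p.2) ⁻¹' E) := measure_mono fun p hp => h _ hp.1 _ hp.2
    _ ≤ _ := Measure.le_map_apply h2.aemeasurable E

end MonoA

theorem p_MONO (hPPO : S_PPO) (hDEC : S_DEC) (hJMN : S_JMN) (hMUK : S_MUK) :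
    S_MONO := by
  intro ν hν
  have h1 : ∀ (U : Set ℂ) (c c' : ℝ), 0 ≤ c → 0 ≤ c' →
      ((soupN ν c U).prod (soupN ν c' U)).map (fun p => p.1 ∪ p.2) = soupN ν (c + c') U := by
    intro U c c' hc hc'
    have i1 := (hDEC.2 ν hν c).2.1 (inK U)
    have i2 := (hDEC.2 ν hν c').2.1 (inK U)
    unfold soupN
    rw [ENNReal.ofReal_add hc hc', add_smul]
    exact (hPPO KC _ inferInstance).1 _ inferInstance
  refine ⟨h1, fun U E _ hE c hc c' _ hcc => ?_, fun c c' hcc hS η hη => ?_⟩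
  · have e := h1 U c (c' - c) hc (sub_nonneg.2 hcc)
    rw [add_sub_cancel] at e
    change soupN ν c U E ≤ soupN ν c' U E
    rw [← e]
    exact MonoA.le_union _ _ (F := {T | LF stdA T})
      (((hDEC.2 ν hν (c' - c)).2.2.2 U).mono fun _ h => h.1) fun S hS T hT => hE S T hT hS
  · obtain ⟨δ, hδ, h⟩ := hS η hη
    refine ⟨δ, hδ, le_trans ?_ h⟩
    have i1 := (hDEC.2 ν hν c).1
    have i2 := (hDEC.2 ν hν (max c' 0 - max c 0)).1
    have e : ENNReal.ofReal c' = ENNReal.ofReal c + ENNReal.ofReal (max c' 0 - max c 0) := by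
      have k : ∀ x : ℝ, ENNReal.ofReal x = ENNReal.ofReal (max x 0) := fun x => by
        rw [ENNReal.ofReal_max, ENNReal.ofReal_zero, max_eq_left zero_le]
      rw [k c, k c', ← ENNReal.ofReal_add (le_max_right _ _)
        (sub_nonneg.2 (max_le_max_right _ hcc)), add_sub_cancel]
    rw [e, add_smul, ← (hPPO KC _ inferInstance).1 _ inferInstance]
    exact MonoA.le_union _ _ (F := univ) (Eventually.of_forall fun _ => trivial)
      fun S hS T _ => Joins.mono hS
        (image_mono (inter_subset_inter_left _ subset_union_left)) Subset.rfl Subset.rfl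

end Pool.Agent.P.MP_d66c6d_pr
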