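import Pool.Agent.P.MP_d66c6d_pr.N.Iface
import Pool.Agent.P.MP_d66c6d_pr.T.Iface
import Pool.Agent.P.MP_d66c6d_pr.C.Iface

/-! Step NC of the carpet project. -/

namespace Pool.Agent.P.MP_d66c6d_pr

open MeasureTheory ProbabilityTheory Set Metric Filter Topology
open scoped ENNReal

namespace NcA

theorem det {U : Set ℂ} {f g : ℂ → ℂ} (h : Conf U f g) {S : Cfg KC}
    (h1 : LF stdA ((S.res (inK U)).map (imK U f))) (h2 : (S.res (inK U)).map (imK U f) ∉ BTe)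
    {K : Set ℂ} (hK : K ∈ sets S) (hKU : K ⊆ U) :
    closure (cluster {K ∈ sets S | K ⊆ U} K) ⊆ U := by
  have im : ∀ A ∈ {K ∈ sets S | K ⊆ U}, f '' A ∈ sets ((S.res (inK U)).map (imK U f)) := by
    rintro _ ⟨⟨L, hL, rfl⟩, hLU⟩
    exact ⟨imK U f L, ⟨L, ⟨hL, hLU⟩, rfl⟩, coe_imK h.diff.continuousOn hLU⟩
  have push : ∀ K', Lk {K ∈ sets S | K ⊆ U} K K' →
      Lk (sets ((S.res (inK U)).map (imK U f))) (f '' K) (f '' K') := fun K' hl => by
    induction hl with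
    | refl => exact .refl
    | tail _ hAB ih =>
      exact ih.tail ⟨im _ hAB.1, (hAB.2.image f).mono (image_inter_subset f _ _)⟩
  obtain ⟨x, hx⟩ : K.Nonempty := by
    obtain ⟨L, -, rfl⟩ := hK
    exact L.nonempty
  have hx1 := mem_ball_zero_iff.1 (h.mapsf (hKU hx))
  obtain ⟨j, hj⟩ := exists_nat_one_div_lt (sub_pos.2 hx1)
  obtain ⟨k, hk⟩ := not_forall.1 fun hk => h2 ⟨h1, j, hk⟩
  have hb : closedBall (0 : ℂ) (1 - 1 / ((k : ℝ) + 1)) ⊆ ball 0 1 :=
    closedBall_subset_ball (sub_lt_self _ (by positivity))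
  have hc : IsCompact (g '' closedBall (0 : ℂ) (1 - 1 / ((k : ℝ) + 1))) :=
    (isCompact_closedBall _ _).image_of_continuousOn (h.cg.mono hb)
  refine (closure_minimal ?_ hc.isClosed).trans (image_subset_iff.2 fun w hw => h.mapsg (hb hw))
  rintro z ⟨K', hl, hz⟩
  refine ⟨f z, ?_, h.left z ((Lk.mem (T := {K ∈ sets S | K ⊆ U}) ⟨hK, hKU⟩ hl).2 hz)⟩
  by_contra hn
  exact hk ⟨f '' K, im K ⟨hK, hKU⟩, f '' K', push K' hl,
    ⟨f x, mem_image_of_mem f hx, mem_ball_zero_iff.2 (by linarith)⟩,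
    f z, mem_image_of_mem f hz, hn⟩

end NcA

theorem p_NC (hNTJ : S_NTJ) (hIMS : S_IMS) (hRMT : S_RMT) (hJMN : S_JMN) (hDEC : S_DEC) (hCONF : S_CONF) :
    S_NC := by
  intro ν hν c c' hc hcc hs U hU hU' hn hne
  rcases U.eq_empty_or_nonempty with rfl | ⟨z₀, hz₀⟩
  · refine Eventually.of_forall ?_
    rintro S _ ⟨L, -, rfl⟩ hL
    exact absurd (L.nonempty.mono hL) not_nonempty_empty
  obtain ⟨f, g, h, -⟩ := hRMT U hU hU' hn hne z₀ hz₀
  have hm := hIMS.1 ν hν U f g h c univ (subset_univ _)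
  have e : soupN ν c univ = PP (ENNReal.ofReal c • muK ν) := by
    rw [soupN, show inK univ = univ from eq_univ_of_forall fun _ => subset_univ _,
      Measure.restrict_univ]
  rw [e] at hm
  have a1 := hm.quasiMeasurePreserving.ae ((hDEC.2 ν hν c).2.2.2 (ball 0 1))
  have a2 := hm.quasiMeasurePreserving.ae
    (measure_eq_zero_iff_ae_notMem.1 (hNTJ ν hν c c' hc hcc hs))
  filter_upwards [a1, a2] with S h1 h2 K hK hKU
  exact NcA.det h h1.1 h2 hK hKU

end Pool.Agent.P.MP_d66c6d_pr
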