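import Pool.Agent.P.MP_d66c6d_pr.N.Iface
import Pool.Agent.P.MP_d66c6d_pr.T.Iface

/-! Step NL of the carpet project. -/

namespace Pool.Agent.P.MP_d66c6d_pr

open MeasureTheory ProbabilityTheory Set Metric Filter Topology
open scoped ENNReal

namespace NlA

theorem pre_compl (z : ℂ) {r : ℝ} (hr : 0 ≤ r) : IsPreconnected (ball z r)ᶜ := by
  have e : (ball z r)ᶜ = (fun p : ℝ × ℝ => circleMap z p.1 p.2) '' (Ici r ×ˢ univ) := by
    ext w
    simp only [mem_compl_iff, mem_ball, not_lt, mem_image, mem_prod, mem_Ici, mem_univ, and_true]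
    constructor
    · intro h
      refine ⟨(‖w - z‖, Complex.arg (w - z)), by rwa [dist_eq_norm] at h, ?_⟩
      simp only [circleMap, Complex.norm_mul_exp_arg_mul_I, add_sub_cancel]
    · rintro ⟨p, hp, rfl⟩
      exact hp.trans_eq (mem_sphere.1 (circleMap_mem_sphere z (hr.trans hp) p.2)).symm
  rw [e]
  refine (isPreconnected_Ici.prod isPreconnected_univ).image _ (Continuous.continuousOn ?_)
  unfold circleMap
  fun_prop

theorem bdd_rb (i : ℕ) : Bornology.IsBounded (rb i) := isBounded_ball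

theorem unb {A B : Set ℂ} (hA : Bornology.IsBounded A) (h : Aᶜ ⊆ B) : ¬ Bornology.IsBounded B :=
  fun hB => NormedSpace.unbounded_univ ℝ ℂ
    ((hA.union hB).subset (by rw [← union_compl_self A]; exact union_subset_union_right _ h))

end NlA

open NlA in
theorem p_NL (hNC : S_NC) (hSMALL : S_SMALL) (hNLD : S_NLD) (hIMG : S_IMG) (hDEC : S_DEC) (hMONO : S_MONO) :
    S_NL := by
  intro ν hν c c' hc hcc hs L V hL hLc hLn hV
  have h1 := hSMALL ν hν c ((hMONO ν hν).2.2 c c' hcc.le hs)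
  have h2 := (hDEC.2 ν hν c).2.2.1 _ le_rfl
  have h3 : ∀ᵐ S ∂PP (ENNReal.ofReal c • muK ν), ∀ i j : ℕ, ¬ L ⊆ rb i → ∀ W : Set ℂ,
      W = connectedComponentIn (L ∪ (rb i)ᶜ)ᶜ (TopologicalSpace.denseSeq ℂ j) →
      ∀ K ∈ sets S, K ⊆ W → closure (cluster {K ∈ sets S | K ⊆ W} K) ⊆ W := by
    refine ae_all_iff.2 fun i => ae_all_iff.2 fun j => ?_
    by_cases hi : L ⊆ rb i
    · exact Eventually.of_forall fun S h => absurd hi h
    obtain ⟨x, hx, hx'⟩ := not_subset.1 hi
    have hcl : IsClosed (L ∪ (rb i)ᶜ) := hL.union (isOpen_rb i).isClosed_compl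
    have hpre : IsPreconnected (L ∪ (rb i)ᶜ) :=
      hLc.union x hx hx' (pre_compl _ (by positivity))
    have hne : connectedComponentIn (L ∪ (rb i)ᶜ)ᶜ (TopologicalSpace.denseSeq ℂ j) ≠ univ :=
      fun e => (connectedComponentIn_subset _ _ (e.ge (mem_univ x)) : x ∉ L ∪ (rb i)ᶜ) (Or.inl hx)
    filter_upwards [hNC ν hν c c' hc hcc hs _ hcl.isOpen_compl.connectedComponentIn
      isPreconnected_connectedComponentIn
      (hIMG.2 _ hcl hpre (unb (bdd_rb i) subset_union_right) _) hne] with S hS _ W hW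
    exact hW ▸ hS
  filter_upwards [h1, h2, h3] with S a1 a2 a3
  exact hNLD S L V a2.1 a2.2 a1 hL hLn hV a3

end Pool.Agent.P.MP_d66c6d_pr
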