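import Pool.Agent.P.MP_d66c6d_pr.N.Iface

/-! Step NLD of the carpet project. -/

namespace Pool.Agent.P.MP_d66c6d_pr

open MeasureTheory ProbabilityTheory Set Metric Filter Topology
open scoped ENNReal

namespace NldA

variable {T T' : Set (Set ℂ)} {v w : Set ℂ}

theorem lk_restrict (h : ∀ B, Lk T v B → B ∈ T → B ∈ T') (hw : Lk T v w) : Lk T' v w := by
  induction hw with
  | refl => exact .refl
  | tail h1 h2 ih => exact ih.tail ⟨h _ (h1.tail h2) h2.1, h2.2⟩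

theorem lk_closed (h : ∀ A B, Lk T' v A → B ∈ T → (A ∩ B).Nonempty → B ∈ T') (hw : Lk T v w) :
    Lk T' v w := by
  induction hw with
  | refl => exact .refl
  | tail _ h2 ih => exact ih.tail ⟨h _ _ ih h2.1 h2.2, h2.2⟩

/-- The members of diameter less than `δ`. -/
def sm (T : Set (Set ℂ)) (δ : ℝ) : Set (Set ℂ) := {K ∈ T | diam K < δ}

theorem core {S0 : Set (Set ℂ)} {L : Set ℂ} (hT : T ⊆ S0) (hc : ∀ K ∈ T, IsPreconnected K)
    (hcl : ∀ K ∈ T, IsClosed K) (hd : ∀ K ∈ T, Disjoint K L)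
    (hfin : ∀ δ > (0 : ℝ), {K ∈ T | δ ≤ diam K}.Finite)
    (hsm : ∀ ρ > (0 : ℝ), ∃ δ > (0 : ℝ), ∀ v ∈ sm T δ, ∀ z ∈ v, cluster (sm T δ) v ⊆ ball z ρ)
    (hL : IsClosed L) (hLn : L.Nontrivial)
    (H : ∀ i j : ℕ, ¬ L ⊆ rb i → ∀ W : Set ℂ,
      W = connectedComponentIn (L ∪ (rb i)ᶜ)ᶜ (TopologicalSpace.denseSeq ℂ j) →
      ∀ K ∈ S0, K ⊆ W → closure (cluster {K ∈ S0 | K ⊆ W} K) ⊆ W)
    {K : Set ℂ} (hK : K ∈ T) : Disjoint (closure (cluster T K)) L := by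
  refine disjoint_left.2 fun x hx hxL => ?_
  obtain ⟨y, hyL, hyx⟩ := hLn.exists_ne x
  obtain ⟨i, hxi, hi⟩ := exists_rb (O := {y}ᶜ) isOpen_compl_singleton (x := x) hyx.symm
  have hLi : ¬ L ⊆ rb i := fun h => hi (h hyL) rfl
  obtain ⟨ρ, hρ, hb⟩ := Metric.isOpen_iff.1 (isOpen_rb i) x hxi
  obtain ⟨δ, hδ, hs⟩ := hsm (ρ / 2) (half_pos hρ)
  have hsub : sm T δ ⊆ T := fun _ h => h.1
  -- clusters of small members near `x` do not accumulate at `x`
  have star : ∀ v ∈ sm T δ, ∀ z ∈ v, dist z x < ρ / 2 → x ∉ closure (cluster (sm T δ) v) := by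
    intro v hv z hz hzx hcl'
    have hO : IsOpen (L ∪ (rb i)ᶜ)ᶜ := (hL.union (isOpen_rb i).isClosed_compl).isOpen_compl
    have hCO : cluster (sm T δ) v ⊆ (L ∪ (rb i)ᶜ)ᶜ := by
      intro p hp hp'
      rcases hp' with hp' | hp'
      · obtain ⟨B, hB, hpB⟩ := hp
        exact disjoint_left.1 (hd B (hsub (Lk.mem hv hB))) hpB hp'
      · refine hp' (hb ?_)
        have := hs v hv z hz hp
        rw [mem_ball] at this ⊢
        linarith [dist_triangle p z x]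
    have hzC : z ∈ cluster (sm T δ) v := ⟨v, .refl, hz⟩
    have hCW : cluster (sm T δ) v ⊆ connectedComponentIn (L ∪ (rb i)ᶜ)ᶜ z :=
      (isPreconnected_cluster (fun K h => hc K (hsub h)) hv ⟨z, hz⟩).subset_connectedComponentIn
        hzC hCO
    obtain ⟨j, hj⟩ := (TopologicalSpace.denseRange_denseSeq ℂ).exists_mem_open
      (hO.connectedComponentIn (x := z)) ⟨z, hCW hzC⟩
    have h1 := H i j hLi _ (connectedComponentIn_eq hj) v (hT (hsub hv))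
      fun p hp => hCW ⟨v, .refl, hp⟩
    have h2 : cluster (sm T δ) v ⊆
        cluster {K ∈ S0 | K ⊆ connectedComponentIn (L ∪ (rb i)ᶜ)ᶜ z} v := by
      rintro p ⟨B, hB, hp⟩
      exact ⟨B, lk_restrict (fun A hA hA' => ⟨hT (hsub hA'), fun q hq => hCW ⟨A, hA, hq⟩⟩) hB, hp⟩
    exact connectedComponentIn_subset _ _ (h1 (closure_mono h2 hcl')) (Or.inl hxL)
  -- the big members stay away from `x`
  have hbig : IsClosed (⋃ B ∈ {K ∈ T | δ ≤ diam K}, B) :=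
    (hfin δ hδ).isClosed_biUnion fun B hB => hcl B hB.1
  obtain ⟨η, hη, hbη⟩ := Metric.isOpen_iff.1 hbig.isOpen_compl x (by
    simp only [mem_compl_iff, mem_iUnion, not_exists]
    exact fun B hB hxB => disjoint_left.1 (hd B hB.1) hxB hxL)
  have far : ∀ B ∈ T, ∀ p ∈ B, dist p x < η → B ∈ sm T δ := fun B hB p hp hpx =>
    ⟨hB, not_le.1 fun h => hbη hpx (mem_biUnion (s := {K ∈ T | δ ≤ diam K}) ⟨hB, h⟩ hp)⟩
  obtain ⟨δ2, hδ2, hs2⟩ := hsm (η / 2) (half_pos hη)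
  have hF : {w ∈ {K ∈ T | δ2 ≤ diam K} | x ∉ closure (cluster (sm T δ) w)}.Finite :=
    (hfin δ2 hδ2).subset fun _ h => h.1
  have cover : ball x (min η ρ / 2) ∩ cluster T K ⊆
      ⋃ w ∈ {w ∈ {K ∈ T | δ2 ≤ diam K} | x ∉ closure (cluster (sm T δ) w)},
        cluster (sm T δ) w := by
    rintro z ⟨hz, v, hKv, hzv⟩
    rw [mem_ball] at hz
    have hz1 : dist z x < η / 2 := by linarith [min_le_left η ρ]
    have hz2 : dist z x < ρ / 2 := by linarith [min_le_right η ρ]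
    have hvT : v ∈ T := Lk.mem hK hKv
    have hv : v ∈ sm T δ := far v hvT z hzv (by linarith)
    have hst := star v hv z hzv hz2
    by_contra hn
    -- all members of the chain family of `v` are very small
    have h1 : ∀ B, Lk (sm T δ) v B → B ∈ sm T δ → B ∈ sm T δ2 := by
      intro B hB hB'
      refine ⟨hB'.1, not_le.1 fun h => hn ?_⟩
      refine mem_biUnion (x := B) ⟨⟨hB'.1, h⟩, fun hx' => hst (closure_mono ?_ hx')⟩
        ⟨v, hB.symm hv, hzv⟩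
      rintro p ⟨A, hA, hp⟩
      exact ⟨A, hB.trans hA, hp⟩
    have h2 : ∀ A B, Lk (sm T δ) v A → B ∈ T → (A ∩ B).Nonempty → B ∈ sm T δ := by
      rintro A B hA hB ⟨p, hpA, hpB⟩
      have := hs2 v (h1 v .refl hv) z hzv ⟨A, lk_restrict h1 hA, hpA⟩
      rw [mem_ball] at this
      exact far B hB p hpB (by linarith [dist_triangle p z x])
    refine hst (closure_mono ?_ hx)
    rintro p ⟨A, hA, hp⟩
    exact ⟨A, lk_closed h2 ((Lk.symm hK hKv).trans hA), hp⟩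
  have h3 := closure_mono cover (isOpen_ball.inter_closure
    ⟨mem_ball_self (half_pos (lt_min hη hρ)), hx⟩)
  rw [hF.closure_biUnion] at h3
  obtain ⟨w, hw, hxw⟩ := mem_iUnion₂.1 h3
  exact hw.2 hxw

end NldA

theorem p_NLD :
    S_NLD := by
  intro S L V hLF hC hS hL hLn hV H K hK hKV hKL
  obtain ⟨R, hR⟩ := hV.subset_ball (0 : ℂ)
  refine NldA.core (S0 := sets S) (fun _ h => h.1) ?_ ?_ (fun _ h => h.2.2) ?_ ?_ hL hLn H
    ⟨hK, hKV, hKL⟩
  · rintro _ ⟨⟨M, hM, rfl⟩, -⟩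
    exact hC M hM
  · rintro _ ⟨⟨M, hM, rfl⟩, -⟩
    exact M.isCompact.isClosed
  · intro δ hδ
    obtain ⟨n, hn⟩ := exists_nat_one_div_lt hδ
    obtain ⟨m, hm⟩ := exists_nat_ge R
    refine ((hLF.2 (n + m)).image fun K : KC => (K : Set ℂ)).subset ?_
    rintro _ ⟨⟨⟨M, hM, rfl⟩, hMV, -⟩, hδM⟩
    have hn0 : (0 : ℝ) ≤ n := Nat.cast_nonneg n
    have hm0 : (0 : ℝ) ≤ m := Nat.cast_nonneg m
    refine ⟨M, ⟨hM, hMV.trans (hR.trans (ball_subset_ball ?_)), ?_⟩, rfl⟩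
    · push_cast
      linarith
    · refine le_trans (le_trans ?_ hn.le) hδM
      push_cast
      exact one_div_le_one_div_of_le (by positivity) (by linarith)
  · intro ρ hρ
    obtain ⟨δ, hδ, h⟩ := hS R ρ hρ
    refine ⟨δ, hδ, fun v hv z hz p ⟨B, hB, hp⟩ => ?_⟩
    by_contra hn
    refine h z (ball_subset_closedBall (hR (hv.1.2.1 hz)))
      (Joins.mono (T := NldA.sm _ δ) (A := {z}) (B := (ball z ρ)ᶜ)
        ⟨v, hv, B, hB, ⟨z, hz, rfl⟩, p, hp, hn⟩ ?_ Subset.rfl Subset.rfl)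
    rintro _ ⟨⟨⟨M, hM, rfl⟩, -⟩, hd⟩
    exact ⟨M, ⟨hM, not_le.2 hd⟩, rfl⟩

end Pool.Agent.P.MP_d66c6d_pr
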