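import Pool.Agent.P.MP_d66c6d_pr.N.Iface

/-! Step NTJ of the carpet project. -/

namespace Pool.Agent.P.MP_d66c6d_pr

open MeasureTheory ProbabilityTheory Set Metric Filter Topology
open scoped ENNReal

namespace NtjA

theorem lf_union {S T : Cfg KC} (hS : LF stdA S) (hT : LF stdA T) : LF stdA (S ∪ T) :=
  ⟨union_subset hS.1 hT.1, fun n => by
    rw [Cfg.pts_union, union_inter_distrib_right]
    exact (hS.2 n).union (hT.2 n)⟩

theorem sets_le (S T : Cfg KC) : sets S ⊆ sets (S ∪ T) := image_mono subset_union_left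

end NtjA

theorem p_NTJ (hJMP : S_JMP) (hMONO : S_MONO) (hJMN : S_JMN) :
    S_NTJ := by
  intro ν hν c c' hc hcc hsub
  by_contra hne
  obtain ⟨-, hm, hs⟩ := hMONO ν hν
  obtain ⟨-, -, -, -, -, hB, hE⟩ := hJMN
  have hmB := hm (ball 0 1) BTe hB fun S T hT hS =>
    ⟨NtjA.lf_union hS.1 hT, hS.2.imp fun j hj k =>
      (hj k).mono (NtjA.sets_le S T) Subset.rfl Subset.rfl⟩
  set g : ℕ → ℝ → ℝ≥0∞ := fun i x => soupN ν (max x 0) (ball 0 3) (EB (rb i)) with hg
  have hgm : ∀ i, Monotone (g i) := fun i x y hxy =>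
    hm (ball 0 3) (EB (rb i)) (hE i) (fun S T hT hS =>
      ⟨NtjA.lf_union hS.1 hT, hS.2.mono (NtjA.sets_le S T) Subset.rfl Subset.rfl⟩)
      (le_max_right x 0) (le_max_right y 0) (max_le_max hxy le_rfl)
  have hsubset : Ioo c c' ⊆ ⋃ i, {x | ¬ ContinuousAt (g i) x} := by
    intro x hx
    have hx0 : 0 ≤ x := hc.trans hx.1.le
    have h1 : soupN ν x (ball 0 1) BTe ≠ 0 := fun h =>
      hne (le_antisymm ((hmB hc hx0 hx.1.le).trans h.le) zero_le)
    obtain ⟨i, η, hη, hj⟩ := hJMP ν hν x hx0 (hs x c' hx.2.le hsub) h1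
    refine mem_iUnion.2 ⟨i, fun hcont => ?_⟩
    have h2 : Tendsto (fun n : ℕ => x + 1 / ((n : ℝ) + 1)) atTop (𝓝 x) := by
      simpa using tendsto_one_div_add_atTop_nhds_zero_nat.const_add x
    have h3 := hcont.tendsto.comp h2
    have h4 : g i x + η ≤ g i x := by
      refine ge_of_tendsto' h3 fun n => ?_
      have h5 : (0 : ℝ) ≤ x + 1 / ((n : ℝ) + 1) := by positivity
      simp only [hg, Function.comp_apply, max_eq_left hx0, max_eq_left h5]
      exact hj n
    exact absurd h4 (not_le.2 (ENNReal.lt_add_right (measure_ne_top _ _) hη))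
  have hcount : (Ioo c c').Countable :=
    (countable_iUnion fun i => (hgm i).countable_not_continuousAt).mono hsubset
  have h0 := hcount.measure_zero (volume : Measure ℝ)
  rw [Real.volume_Ioo, ENNReal.ofReal_eq_zero] at h0
  linarith

end Pool.Agent.P.MP_d66c6d_pr
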