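import Pool.Agent.P.MP_d66c6d_pr.N.Iface
import Pool.Agent.P.MP_d66c6d_pr.F.Iface

/-! Step POS of the carpet project. -/

namespace Pool.Agent.P.MP_d66c6d_pr

open MeasureTheory ProbabilityTheory Set Metric Filter Topology
open scoped ENNReal

namespace PosA

theorem en_ne {x : ℝ≥0∞} (hx : x ≠ ∞) : en x ≠ 0 := by
  rw [← ENNReal.ofReal_toReal hx, en_ofReal ENNReal.toReal_nonneg]
  exact (ENNReal.ofReal_pos.2 (Real.exp_pos _)).ne'

theorem lf_res {S : Cfg KC} (A : Set KC) (h : LF stdA S) : LF stdA (S.res A) :=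
  ⟨inter_subset_left.trans h.1,
    fun j => (h.2 j).subset (inter_subset_inter_left _ inter_subset_left)⟩

theorem res_eq {S : Cfg KC} {I B : Set KC} (h : S.res (I ∩ B) ∈ vd (univ : Set KC)) :
    S.res I = S.res (I ∩ Bᶜ) := by
  ext K
  simp only [Cfg.pts_res, mem_inter_iff, mem_compl_iff]
  refine ⟨fun hK => ⟨hK.1, hK.2, fun hB => ?_⟩, fun hK => ⟨hK.1, hK.2.1⟩⟩
  exact mem_vd.1 h K ⟨hK.1, hK.2, hB⟩ (mem_univ _)

end PosA

theorem p_POS (hPPO : S_PPO) (hPPE : S_PPE) (hDEC : S_DEC) (hJMN : S_JMN) (hMUK : S_MUK) :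
    S_POS := by
  intro ν hν c hsub
  obtain ⟨δ, hδ, hhalf⟩ := hsub 2⁻¹ (by simp)
  set M : Measure KC := ENNReal.ofReal c • muK ν with hM
  obtain ⟨hsf, -, hlf, -⟩ := hDEC.2 ν hν c
  have : SigmaFinite M := hsf
  obtain ⟨-, hres, -, hind, -⟩ := hPPO KC M inferInstance
  obtain ⟨C, -, hC⟩ := (hMUK ν hν).2.2.2.1
  set I : Set KC := inK (ball 0 3) with hI
  have hIm : MeasurableSet I := (isOpen_inK isOpen_ball).measurableSet
  have hB := measurableSet_bigK δ
  set G : Set (Cfg KC) := {S | LF stdA S ∧ ¬ Joins (sets S) (ball 0 2)ᶜ (ball 0 1)} with hG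
  have hGm : MeasurableSet G := by
    have h1 := hJMN.2.2.2.1 (ball 0 2)ᶜ (ball 0 1)
      (isClosed_hitK isOpen_ball.isClosed_compl).measurableSet
      (isOpen_hitK isOpen_ball).measurableSet
    refine (hJMN.2.2.2.2.1.diff h1).congr ?_
    ext S
    simp only [hG, Set.mem_sdiff, mem_ofPred_eq]
    tauto
  have hs : soupN ν c (ball 0 3) = (PP M).map (Cfg.res I) := by
    rw [hres I hIm, hM, Measure.restrict_smul]
    rfl
  have h1 : PP (M.restrict (I ∩ (bigK δ)ᶜ)) G ≠ 0 := by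
    intro h0
    rw [← hres _ (hIm.inter hB.compl),
      Measure.map_apply (measurable_res (hIm.inter hB.compl)) hGm] at h0
    have h2 : ∀ᵐ S ∂PP M,
        Joins (sets (S.res (bigK δ)ᶜ)) (closedBall 0 1) (ball 0 2)ᶜ := by
      filter_upwards [hlf M le_rfl, measure_eq_zero_iff_ae_notMem.1 h0] with S hS hS'
      have h3 : Joins (sets (S.res (I ∩ (bigK δ)ᶜ))) (ball 0 2)ᶜ (ball 0 1) := by
        by_contra h
        exact hS' ⟨PosA.lf_res _ hS.1, h⟩
      exact h3.symm.mono (image_mono (inter_subset_inter_right _ inter_subset_right))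
        ball_subset_closedBall subset_rfl
    have h4 : PP M univ ≤ PP M
        {S | Joins (sets (S.res (bigK δ)ᶜ)) (closedBall 0 1) (ball 0 2)ᶜ} :=
      measure_mono_ae (h2.mono fun S hS _ => hS)
    rw [measure_univ] at h4
    exact absurd (h4.trans hhalf) (by simp)
  have h2 : PP (M.restrict (I ∩ bigK δ)) (vd univ) ≠ 0 := by
    rw [((hPPE KC).1 _ inferInstance).2 _ MeasurableSet.univ, Measure.restrict_apply_univ]
    refine PosA.en_ne ?_
    rw [hM, Measure.smul_apply, smul_eq_mul]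
    exact ENNReal.mul_ne_top ENNReal.ofReal_ne_top
      (ne_top_of_le_ne_top ENNReal.ofReal_ne_top (hC 0 3 δ (by norm_num) hδ))
  have hd : Disjoint (I ∩ (bigK δ)ᶜ) (I ∩ bigK δ) :=
    disjoint_compl_left.mono inter_subset_right inter_subset_right
  have h3 := hind _ _ (hIm.inter hB.compl) (hIm.inter hB) hd
  have h4 : PP M ((fun S : Cfg KC => (S.res (I ∩ (bigK δ)ᶜ), S.res (I ∩ bigK δ))) ⁻¹'
      (G ×ˢ vd univ)) ≠ 0 := by
    rw [← Measure.map_apply ((measurable_res (hIm.inter hB.compl)).prodMk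
      (measurable_res (hIm.inter hB))) (hGm.prod (measurableSet_vd MeasurableSet.univ)), h3,
      Measure.prod_prod]
    exact mul_ne_zero h1 h2
  rw [hs, Measure.map_apply (measurable_res hIm) hGm]
  refine fun h0 => h4 (measure_mono_null (fun S hS => ?_) h0)
  rw [mem_preimage, PosA.res_eq hS.2]
  exact hS.1

end Pool.Agent.P.MP_d66c6d_pr
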