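import Pool.Agent.P.MP_d66c6d_pr.N.Iface
import Pool.Agent.P.MP_d66c6d_pr.F.Iface

/-! Step SMALL of the carpet project. -/

namespace Pool.Agent.P.MP_d66c6d_pr

open MeasureTheory ProbabilityTheory Set Metric Filter Topology
open scoped ENNReal

namespace SmallA

/-- The crossing event. -/
def Ev (δ : ℝ) (A B : Set ℂ) : Set (Cfg KC) := {S | Joins (sets (S.res (bigK δ)ᶜ)) A B}

theorem joins_image {T T' : Set (Set ℂ)} {A B A' B' : Set ℂ} (f : ℂ → ℂ) (h : Joins T A B)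
    (hT : ∀ K ∈ T, f '' K ∈ T') (hA : MapsTo f A A') (hB : MapsTo f B B') : Joins T' A' B' := by
  obtain ⟨K, hK, K', hL, ⟨x, hx, hxA⟩, ⟨y, hy, hyB⟩⟩ := h
  refine ⟨f '' K, hT K hK, f '' K', ?_, ⟨f x, mem_image_of_mem f hx, hA hxA⟩,
    ⟨f y, mem_image_of_mem f hy, hB hyB⟩⟩
  clear hy
  induction hL with
  | refl => exact .refl
  | tail _ h2 ih =>
    obtain ⟨w, w1, w2⟩ := h2.2
    exact ih.tail ⟨hT _ h2.1, f w, mem_image_of_mem f w1, mem_image_of_mem f w2⟩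

theorem Ev_mono {δ δ' : ℝ} (h : δ ≤ δ') {A B A' B' : Set ℂ} (hA : A ⊆ A') (hB : B ⊆ B') :
    Ev δ A B ⊆ Ev δ' A' B' := by
  intro S hS
  refine Joins.mono hS ?_ hA hB
  rintro _ ⟨K, ⟨hK, hK2⟩, rfl⟩
  exact ⟨K, ⟨hK, fun h3 => hK2 (le_trans h h3)⟩, rfl⟩

theorem dist_sim {a : ℝ} (ha : 0 < a) (c x y : ℂ) :
    dist (((a : ℂ))⁻¹ * x + c) ((a : ℂ)⁻¹ * y + c) = dist x y / a := by
  rw [dist_add_right, dist_eq_norm, ← mul_sub, norm_mul, norm_inv, Complex.norm_real,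
    Real.norm_of_nonneg ha.le, dist_eq_norm, div_eq_inv_mul]

theorem push {a δ : ℝ} (ha : 0 < a) (z : ℂ) :
    Ev (a * δ) (closedBall z a) (ball z (2 * a))ᶜ ⊆
      Cfg.map (simK (a : ℂ)⁻¹ (-((a : ℂ)⁻¹ * z))) ⁻¹' Ev δ (closedBall 0 1) (ball 0 2)ᶜ := by
  intro S hS
  have h0 : ∀ x : ℂ, dist ((a : ℂ)⁻¹ * x + -((a : ℂ)⁻¹ * z)) 0 = dist x z / a := by
    intro x
    rw [← dist_sim ha (-((a : ℂ)⁻¹ * z)) x z, add_neg_cancel]
  refine joins_image (fun x => (a : ℂ)⁻¹ * x + -((a : ℂ)⁻¹ * z)) hS ?_ ?_ ?_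
  · rintro _ ⟨K, ⟨hK, hK2⟩, rfl⟩
    refine ⟨simK _ _ K, ⟨mem_image_of_mem _ hK, fun h3 => hK2 ?_⟩, rfl⟩
    have h4 : diam (simK (a : ℂ)⁻¹ (-((a : ℂ)⁻¹ * z)) K : Set ℂ) ≤ diam (K : Set ℂ) / a := by
      refine diam_le_of_forall_dist_le (div_nonneg diam_nonneg ha.le) ?_
      rintro _ ⟨x, hx, rfl⟩ _ ⟨y, hy, rfl⟩
      rw [dist_sim ha]
      exact div_le_div_of_nonneg_right (dist_le_diam_of_mem K.isCompact.isBounded hx hy) ha.le
    have h5 : δ ≤ diam (K : Set ℂ) / a := le_trans h3 h4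
    rw [le_div_iff₀ ha, mul_comm] at h5
    exact h5
  · intro x hx
    rw [mem_closedBall, h0, div_le_one ha]
    exact hx
  · intro x hx hx2
    rw [mem_ball, h0, div_lt_iff₀ ha] at hx2
    exact hx hx2

theorem ae_one (hPPO : S_PPO) (hMUK : S_MUK) {ν : Measure Br} (hν : IsBridge ν) {c : ℝ}
    (hc : Sub ν c) {a : ℝ} (ha : 0 < a) (z : ℂ) :
    ∀ᵐ S ∂PP (ENNReal.ofReal c • muK ν),
      ∃ δ > (0 : ℝ), S ∉ Ev δ (closedBall z a) (ball z (2 * a))ᶜ := by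
  obtain ⟨-, hσ, hsim, -⟩ := hMUK ν hν
  have hg : Measurable (simK (a : ℂ)⁻¹ (-((a : ℂ)⁻¹ * z))) := (continuous_simK _ _).measurable
  have hmap : (PP (ENNReal.ofReal c • muK ν)).map (Cfg.map (simK (a : ℂ)⁻¹ (-((a : ℂ)⁻¹ * z)))) =
      PP (ENNReal.ofReal c • muK ν) := by
    rw [(hPPO KC (ENNReal.ofReal c • muK ν) inferInstance).2.2.1 KC _ hg, Measure.map_smul,
      (hsim _ _ (inv_ne_zero (Complex.ofReal_ne_zero.2 ha.ne'))).map_eq]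
  rw [ae_iff]
  refine le_antisymm (ENNReal.le_of_forall_pos_le_add fun η hη _ => ?_) (zero_le)
  obtain ⟨δ, hδ, h⟩ := hc η (by exact_mod_cast hη.ne')
  rw [zero_add]
  refine le_trans (measure_mono ?_) (le_trans (Measure.le_map_apply
    (measurable_cfgMap hg).aemeasurable (Ev δ (closedBall 0 1) (ball 0 2)ᶜ)) ?_)
  · intro S hS
    refine push ha z ?_
    by_contra h2
    exact hS ⟨a * δ, mul_pos ha hδ, h2⟩
  · rw [hmap]
    exact h

end SmallA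

open SmallA in
theorem p_SMALL (hPPO : S_PPO) (hMUK : S_MUK) (_hJMN : S_JMN) (_hDEC : S_DEC) :
    S_SMALL := by
  intro ν hν c hc
  have h : ∀ᵐ S ∂PP (ENNReal.ofReal c • muK ν), ∀ n j : ℕ, ∃ δ > (0 : ℝ),
      S ∉ Ev δ (closedBall (TopologicalSpace.denseSeq ℂ j) (1 / ((n : ℝ) + 1)))
        (ball (TopologicalSpace.denseSeq ℂ j) (2 * (1 / ((n : ℝ) + 1))))ᶜ :=
    ae_all_iff.2 fun n => ae_all_iff.2 fun j => ae_one hPPO hMUK hν hc (by positivity) _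
  filter_upwards [h] with S hS R ρ hρ
  obtain ⟨n, hn⟩ := exists_nat_one_div_lt (show 0 < ρ / 3 by positivity)
  have hS' := hS n
  generalize ha : 1 / ((n : ℝ) + 1) = a at hn hS'
  have ha0 : 0 < a := ha ▸ (by positivity)
  obtain ⟨t, ht⟩ := (isCompact_closedBall (0 : ℂ) R).elim_finite_subcover
    (fun j : ℕ => ball (TopologicalSpace.denseSeq ℂ j) a) (fun _ => isOpen_ball) (by
      intro x _
      obtain ⟨j, hj⟩ := (TopologicalSpace.denseRange_denseSeq ℂ).exists_dist_lt x ha0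
      exact mem_iUnion.2 ⟨j, hj⟩)
  have hev : ∀ᶠ δ in 𝓝[>] (0 : ℝ), ∀ j ∈ t,
      S ∉ Ev δ (closedBall (TopologicalSpace.denseSeq ℂ j) a)
        (ball (TopologicalSpace.denseSeq ℂ j) (2 * a))ᶜ := by
    refine (eventually_all_finset t).2 fun j _ => ?_
    obtain ⟨δ, hδ, h2⟩ := hS' j
    filter_upwards [Ioc_mem_nhdsGT hδ] with δ' h3 h4
    exact h2 (Ev_mono h3.2 Subset.rfl Subset.rfl h4)
  obtain ⟨δ, h1, h2⟩ := (hev.and self_mem_nhdsWithin).exists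
  refine ⟨δ, h2, fun z hz h3 => ?_⟩
  obtain ⟨j, hj, hz2⟩ := mem_iUnion₂.1 (ht hz)
  refine h1 j hj (Ev_mono le_rfl (singleton_subset_iff.2 (ball_subset_closedBall hz2))
    (compl_subset_compl.2 fun x hx => ?_) h3)
  have h5 := dist_triangle_right x z (TopologicalSpace.denseSeq ℂ j)
  rw [mem_ball] at hx hz2 ⊢
  linarith

end Pool.Agent.P.MP_d66c6d_pr
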