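import Pool.Agent.P.MP_d66c6d_pr.N.Iface
import Pool.Agent.P.MP_d66c6d_pr.B.Iface
import Pool.Agent.P.MP_d66c6d_pr.U.Iface
import Pool.Agent.P.MP_d66c6d_pr.S.Supp

/-! Step START of the carpet project. -/

namespace Pool.Agent.P.MP_d66c6d_pr

open MeasureTheory ProbabilityTheory Set Metric Filter Topology
open scoped ENNReal

namespace StartA

theorem meas_ne (hENC : S_ENC) (x : ℂ) (a r : ℝ) : MeasurableSet {γ : Br | ¬ Enc γ x a r} :=
  (measurable_const.prodMk measurable_id (hENC.1 a r).measurableSet).compl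

/-- Translation and scaling. -/
theorem scal (hBMK : S_BMK) (hENC : S_ENC) {ν : Measure Br} (hν : IsBridge ν) {t : ℝ} (ht : 0 < t)
    (x : ℂ) (a r : ℝ) :
    bmM ν t x {γ | ¬ Enc γ x (√t * a) (√t * r)} = bmM ν 1 0 {γ | ¬ Enc γ 0 a r} := by
  have hm : Measurable fun γ : Br => ContinuousMap.const _ x + (√t : ℂ) • γ :=
    Continuous.measurable (by fun_prop)
  rw [← ((hBMK ν hν).2 t ht x).2.2.1, Measure.map_apply hm (meas_ne hENC _ _ _)]
  congr 1
  ext γ
  have := hENC.2.2.1 γ 0 x a r (√t) (Real.sqrt_pos.2 ht)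
  rw [mul_zero, add_zero] at this
  exact not_congr this

theorem transl (hBMK : S_BMK) (hENC : S_ENC) {ν : Measure Br} (hν : IsBridge ν) {t : ℝ}
    (ht : 0 < t) (x : ℂ) (a r : ℝ) :
    bmM ν t x {γ | ¬ Enc γ x a r} = bmM ν t 0 {γ | ¬ Enc γ 0 a r} := by
  have h := (Real.sqrt_pos.2 ht).ne'
  have h1 := scal hBMK hENC hν ht x (a / √t) (r / √t)
  have h2 := scal hBMK hENC hν ht 0 (a / √t) (r / √t)
  rw [mul_div_cancel₀ _ h, mul_div_cancel₀ _ h] at h1 h2
  rw [h1, h2]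

/-- Passage to an initial piece. -/
theorem init (hBMK : S_BMK) {ν : Measure Br} (hν : IsBridge ν) {u t : ℝ} (hu : 0 < u)
    (hut : u ≤ t) {S : Set Br} (hS : MeasurableSet S) (h : ∀ s, ∀ γ ∈ S, sub 0 s γ ∈ S) :
    bmM ν t 0 S ≤ bmM ν u 0 S := by
  rcases hut.eq_or_lt with rfl | hlt
  · exact le_rfl
  have ht : 0 < t := hu.trans hlt
  have := ((hBMK ν hν).2 t ht 0).2.1 (u / t) ⟨div_pos hu ht, (div_lt_one ht).2 hlt⟩
  rw [div_mul_cancel₀ _ ht.ne'] at this
  rw [← this, Measure.map_apply (by fun_prop) hS]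
  exact measure_mono fun γ hγ => h _ γ hγ

theorem sub_ne (hENC : S_ENC) (hCUT : S_CUT) {a r : ℝ} (u v : ℝ) {γ : Br}
    (h : ¬ Enc γ 0 a r) : ¬ Enc (sub u v γ) 0 a r := fun h' =>
  h (hENC.2.1 _ _ 0 0 a a r r (hCUT.2.2.1 u v γ) (by simp) (by simp) h')

/-- The enclosure has positive probability. -/
theorem lt_one (hENC : S_ENC) (hBM : S_BM) (hCIRC : S_CIRC) {ν : Measure Br} (hν : IsBridge ν) :
    bmM ν 1 0 {γ | ¬ Enc γ 0 1 4} < 1 := by
  have := ((hBM ν hν).1 1 one_pos 0).1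
  have := hν.prob
  obtain ⟨g, η, h0, h1, g0, g1, hg, hη⟩ := hCIRC
  refine prob_le_one.lt_of_ne fun h => ?_
  rw [← prob_compl_eq_zero_iff (meas_ne hENC _ _ _), bmM,
    Measure.map_apply (by fun_prop) (meas_ne hENC _ _ _).compl] at h
  have h2 : ((gm 1).prod ν) (ball 0 (η / 2) ×ˢ ball g (η / 2)) = 0 := by
    refine measure_mono_null (fun p hp => ?_) h
    have hd : dist (seg 0 (0 + p.1) 1 p.2) g < η := by
      refine (ContinuousMap.dist_lt_iff h0).2 fun s => ?_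
      have e : seg 0 (0 + p.1) 1 p.2 s - g s = ((s : ℝ) : ℂ) * p.1 + (p.2 s - g s) := by
        simp only [seg_apply, Real.sqrt_one, Complex.ofReal_one]
        ring
      have a1 : ‖((s : ℝ) : ℂ) * p.1‖ ≤ ‖p.1‖ := by
        rw [norm_mul, Complex.norm_real, Real.norm_of_nonneg s.2.1]
        exact mul_le_of_le_one_left (norm_nonneg _) s.2.2
      have a2 : ‖p.1‖ < η / 2 := mem_ball_zero_iff.1 hp.1
      have a3 : dist (p.2 s) (g s) < η / 2 :=
        (ContinuousMap.dist_apply_le_dist s).trans_lt (mem_ball.1 hp.2)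
      rw [dist_eq_norm] at a3 ⊢
      rw [e]
      linarith [norm_add_le (((s : ℝ) : ℂ) * p.1) (p.2 s - g s)]
    refine not_not.2 ?_
    unfold Enc
    rw [inter_eq_left.2]
    · exact hη _ hd
    · rintro _ ⟨s, rfl⟩
      have a1 := (ContinuousMap.dist_apply_le_dist s).trans_lt hd
      have a2 := mem_closedBall.1 (hg ⟨s, rfl⟩)
      have := dist_triangle (seg 0 (0 + p.1) 1 p.2 s) (g s) 0
      rw [mem_closedBall]
      linarith
  rw [Measure.prod_prod, mul_eq_zero] at h2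
  rcases h2 with h2 | h2
  · have hac : (volume : Measure ℂ) ≪ gm 1 := by
      refine withDensity_absolutelyContinuous' (Measurable.aemeasurable (by fun_prop))
        (Eventually.of_forall fun z => ?_)
      simp only [hk, ne_eq, ENNReal.ofReal_eq_zero, not_le]
      positivity
    exact (measure_ball_pos volume 0 (half_pos h0)).ne' (hac h2)
  · exact hν.tube g0 g1 (half_pos h0) h2

/-- Paths that enclose no disc around the origin. -/
def NN (r : ℝ) : Set Br := ⋂ n : ℕ, {γ | ¬ Enc γ 0 (1 / ((n : ℝ) + 1)) r}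

theorem meas_NN (hENC : S_ENC) (r : ℝ) : MeasurableSet (NN r) :=
  MeasurableSet.iInter fun _ => meas_ne hENC _ _ _

theorem sub_NN (hENC : S_ENC) (hCUT : S_CUT) {r : ℝ} (s : ℝ) (γ : Br) (h : γ ∈ NN r) :
    sub 0 s γ ∈ NN r :=
  mem_iInter.2 fun n => sub_ne hENC hCUT 0 s (mem_iInter.1 h n)

/-- One Markov step. -/
theorem step (hBMK : S_BMK) (hENC : S_ENC) (hGM : S_GM) (hBM : S_BM) (hCUT : S_CUT)
    {ν : Measure Br} (hν : IsBridge ν) {u r M : ℝ} (hu : 0 < u) (hr : 5 * √u ≤ r) (hM : 0 < M) :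
    bmM ν u 0 (NN r) ≤ ENNReal.ofReal (4 * Real.exp (-M)) +
      bmM ν (1 / (1 + 16 * M) * u) 0 (NN r) * bmM ν 1 0 {γ | ¬ Enc γ 0 1 4} := by
  set θ : ℝ := 1 / (1 + 16 * M) with hθ
  have h0 : 0 < θ := by positivity
  have h1 : θ < 1 := (div_lt_one (by positivity)).2 (by linarith)
  have hw : 0 < (1 - θ) * u := mul_pos (by linarith) hu
  have hθu : 0 < θ * u := mul_pos h0 hu
  set v : ℝ := √((1 - θ) * u) with hv
  have hv0 : 0 < v := Real.sqrt_pos.2 hw
  have hvu : v ≤ √u := Real.sqrt_le_sqrt (by nlinarith)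
  have me : Measurable fun γ : Br => γ 1 := Measurable.evalBr measurable_id measurable_const
  have mA : MeasurableSet {α : Br | α 1 ∈ (ball (0 : ℂ) (v / 2))ᶜ} := me measurableSet_ball.compl
  have mE : MeasurableSet {p : Br × Br | ¬ Enc p.2 (p.1 1) (v * 1) (v * 4)} :=
    ((me.comp measurable_fst).prodMk measurable_snd (hENC.1 _ _).measurableSet).compl
  let Ψ : Br × Br → ℝ≥0∞ := fun p => {α : Br | α 1 ∈ (ball (0 : ℂ) (v / 2))ᶜ}.indicator 1 p.1 +
    (NN r).indicator 1 p.1 * {p : Br × Br | ¬ Enc p.2 (p.1 1) (v * 1) (v * 4)}.indicator 1 p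
  have mΨ : Measurable Ψ := ((measurable_one.indicator mA).comp measurable_fst).add
    (((measurable_one.indicator (meas_NN hENC r)).comp measurable_fst).mul
      (measurable_one.indicator mE))
  have key := ((hBMK ν hν).2 u hu 0).1 θ ⟨h0, h1⟩ Ψ mΨ
  have inner : ∀ α : Br, ∫⁻ β, Ψ (α, β) ∂bmM ν ((1 - θ) * u) (α 1) =
      {α : Br | α 1 ∈ (ball (0 : ℂ) (v / 2))ᶜ}.indicator 1 α +
        (NN r).indicator 1 α * bmM ν 1 0 {γ | ¬ Enc γ 0 1 4} := fun α => by
    have := ((hBM ν hν).1 _ hw (α 1)).1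
    have e : ∀ β : Br, {p : Br × Br | ¬ Enc p.2 (p.1 1) (v * 1) (v * 4)}.indicator
        (1 : Br × Br → ℝ≥0∞) (α, β) = {β : Br | ¬ Enc β (α 1) (v * 1) (v * 4)}.indicator 1 β :=
      fun β => rfl
    simp only [Ψ, e]
    rw [lintegral_add_left measurable_const, lintegral_const, measure_univ, mul_one,
      lintegral_const_mul _ (measurable_one.indicator (meas_ne hENC _ _ _)),
      lintegral_indicator_one (meas_ne hENC _ _ _), scal hBMK hENC hν hw]
  simp only [inner] at key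
  rw [lintegral_add_left (measurable_one.indicator mA), lintegral_indicator_one mA,
    lintegral_mul_const _ (measurable_one.indicator (meas_NN hENC r)),
    lintegral_indicator_one (meas_NN hENC r)] at key
  have tail : bmM ν (θ * u) 0 {α : Br | α 1 ∈ (ball (0 : ℂ) (v / 2))ᶜ} ≤
      ENNReal.ofReal (4 * Real.exp (-M)) := by
    have a1 := congrArg (fun m : Measure ℂ => m (ball 0 (v / 2))ᶜ)
      ((hBMK ν hν).2 _ hθu 0).2.2.2.1
    simp only [zero_add, Measure.map_id'] at a1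
    rw [Measure.map_apply me measurableSet_ball.compl] at a1
    refine a1.trans_le (((hGM _ hθu).2.2.2.2.2.2.2.2.2 _ (half_pos hv0)).trans_eq ?_)
    congr 3
    rw [div_pow, hv, Real.sq_sqrt hw.le, hθ]
    field_simp
    ring
  refine le_trans ?_ (key.trans_le (add_le_add_left tail _))
  rw [← lintegral_indicator_one (meas_NN hENC r)]
  refine lintegral_mono fun γ => indicator_apply_le' (fun hγ => ?_) fun _ => zero_le
  by_cases hb : sub 0 θ γ 1 ∈ ball (0 : ℂ) (v / 2)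
  · refine le_add_left ?_
    have hE : ¬ Enc (sub θ 1 γ) (sub 0 θ γ 1) (v * 1) (v * 4) := fun hE => by
      obtain ⟨n, hn⟩ := exists_nat_one_div_lt (half_pos hv0)
      have := mem_ball.1 hb
      exact mem_iInter.1 hγ n (hENC.2.1 _ _ _ 0 _ _ _ _ (hCUT.2.2.1 θ 1 γ) (by linarith)
        (by linarith) hE)
    rw [indicator_of_mem (sub_NN hENC hCUT θ γ hγ),
      indicator_of_mem (s := {p : Br × Br | ¬ Enc p.2 (p.1 1) (v * 1) (v * 4)}) hE]
    simp
  · refine le_add_right ?_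
    rw [indicator_of_mem (s := {α : Br | α 1 ∈ (ball (0 : ℂ) (v / 2))ᶜ}) hb]
    simp

theorem null_NN (hBMK : S_BMK) (hENC : S_ENC) (hGM : S_GM) (hBM : S_BM) (hCUT : S_CUT)
    (hCIRC : S_CIRC) {ν : Measure Br} (hν : IsBridge ν) {t r : ℝ} (ht : 0 < t) (hr : 0 < r) :
    bmM ν t 0 (NN r) = 0 := by
  set u₀ : ℝ := min t ((r / 5) ^ 2) with hu₀
  have h0 : 0 < u₀ := lt_min ht (by positivity)
  set G : ℝ≥0∞ := ⨆ u ∈ Ioc 0 u₀, bmM ν u 0 (NN r) with hG
  have hG1 : G ≤ 1 := iSup₂_le fun u hu => by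
    have := ((hBM ν hν).1 u hu.1 0).1
    exact prob_le_one
  have hrec : ∀ M : ℝ, 0 < M →
      G ≤ ENNReal.ofReal (4 * Real.exp (-M)) + G * bmM ν 1 0 {γ | ¬ Enc γ 0 1 4} := fun M hM => by
    refine iSup₂_le fun u hu => (step hBMK hENC hGM hBM hCUT hν hu.1 ?_ hM).trans ?_
    · have : √u ≤ r / 5 := Real.sqrt_le_iff.2 ⟨by positivity, hu.2.trans (min_le_right _ _)⟩
      linarith
    · have a1 : 1 / (1 + 16 * M) ≤ 1 := (div_le_one (by positivity)).2 (by linarith)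
      have a2 : 1 / (1 + 16 * M) * u ∈ Ioc 0 u₀ :=
        ⟨mul_pos (by positivity) hu.1, (mul_le_of_le_one_left hu.1.le a1).trans hu.2⟩
      gcongr
      exact le_iSup₂ (f := fun u (_ : u ∈ Ioc 0 u₀) => bmM ν u 0 (NN r)) _ a2
  have hlim : Tendsto (fun M : ℝ => ENNReal.ofReal (4 * Real.exp (-M)) +
      G * bmM ν 1 0 {γ | ¬ Enc γ 0 1 4}) atTop (𝓝 (ENNReal.ofReal (4 * 0) +
      G * bmM ν 1 0 {γ | ¬ Enc γ 0 1 4})) :=
    (ENNReal.tendsto_ofReal (Real.tendsto_exp_neg_atTop_nhds_zero.const_mul 4)).add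
      tendsto_const_nhds
  have h2 := ge_of_tendsto hlim ((eventually_gt_atTop 0).mono hrec)
  rw [mul_zero, ENNReal.ofReal_zero, zero_add] at h2
  have hG0 : G = 0 := by
    by_contra h
    have := ENNReal.mul_lt_mul_right h (hG1.trans_lt ENNReal.one_lt_top).ne
      (lt_one hENC hBM hCIRC hν)
    rw [mul_one] at this
    exact absurd h2 this.not_ge
  refine le_antisymm ((init hBMK hν h0 (min_le_left _ _) (meas_NN hENC r)
    (sub_NN hENC hCUT)).trans ?_) zero_le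
  exact (le_iSup₂ (f := fun u (_ : u ∈ Ioc 0 u₀) => bmM ν u 0 (NN r)) _ ⟨h0, le_rfl⟩).trans hG0.le

end StartA

theorem p_START (hBMK : S_BMK) (hENC : S_ENC) (hGM : S_GM) (hBM : S_BM) (hCUT : S_CUT) (hREV : S_REV) (hCIRC : S_CIRC) :
    S_START := by
  have _ := hREV
  intro ν hν t ht r hr η hη
  have := ((hBM ν hν).1 t ht 0).1
  have hanti : Antitone fun n : ℕ => {γ : Br | ¬ Enc γ 0 (1 / ((n : ℝ) + 1)) r} := by
    intro m n hmn γ h h'
    refine h (hENC.2.1 γ γ 0 0 _ _ r r subset_rfl ?_ (by simp) h')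
    rw [dist_self, add_zero]
    exact Nat.one_div_le_one_div hmn
  have hlim := tendsto_measure_iInter_atTop (μ := bmM ν t 0)
    (fun n : ℕ => (StartA.meas_ne hENC 0 (1 / ((n : ℝ) + 1)) r).nullMeasurableSet) hanti
    ⟨0, measure_ne_top _ _⟩
  rw [show (⋂ n : ℕ, {γ : Br | ¬ Enc γ 0 (1 / ((n : ℝ) + 1)) r}) = StartA.NN r from rfl,
    StartA.null_NN hBMK hENC hGM hBM hCUT hCIRC hν ht hr] at hlim
  obtain ⟨n, hn⟩ := (hlim.eventually (ge_mem_nhds (pos_iff_ne_zero.2 hη))).exists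
  refine ⟨1 / ((n : ℝ) + 1), by positivity, fun t' ht' x => ?_⟩
  rw [StartA.transl hBMK hENC hν (ht.trans_le ht')]
  exact (StartA.init hBMK hν ht ht' (StartA.meas_ne hENC _ _ _)
    fun s γ h => StartA.sub_ne hENC hCUT 0 s h).trans hn

end Pool.Agent.P.MP_d66c6d_pr
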