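import Pool.Agent.P.MP_d66c6d_pr.N.Iface
import Pool.Agent.P.MP_d66c6d_pr.F.Iface
import Pool.Agent.P.MP_d66c6d_pr.S.Defs

/-! Step SURK of the carpet project. -/

namespace Pool.Agent.P.MP_d66c6d_pr

open MeasureTheory ProbabilityTheory Set Metric Filter Topology
open scoped ENNReal

namespace SurkA

/-- The classes at the scales `r / 4 / 5 ^ k` have infinite total mass. -/
theorem mass_top {ν : Measure Br} (h : IsBridge ν) (x : ℂ) {r : ℝ} (hr : 0 < r) :
    muK ν (⋃ k : ℕ, surK x (r / 4 / 5 ^ k)) = ∞ := by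
  have hp : ∀ k : ℕ, 0 < r / 4 / 5 ^ k := fun k => by positivity
  have hd : Pairwise (Function.onFun Disjoint fun k : ℕ => surK x (r / 4 / 5 ^ k)) := by
    refine (pairwise_disjoint_on _).2 fun m n hmn => surK_disj (hp n) ?_
    have h1 : (5 : ℝ) ^ (m + 1) ≤ 5 ^ n := pow_le_pow_right₀ (by norm_num) hmn
    have h2 : r / 4 / 5 ^ n ≤ r / 4 / 5 ^ (m + 1) :=
      div_le_div_of_nonneg_left (by positivity) (by positivity) h1
    have h3 : r / 4 / 5 ^ (m + 1) = r / 4 / 5 ^ m / 5 := by rw [pow_succ]; field_simp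
    have := hp m
    linarith
  rw [measure_iUnion hd fun k => measurableSet_surK _ _]
  simp_rw [muK_surK, fun k => h.mass_sur x (hp k)]
  exact ENNReal.tsum_const_eq_top_of_ne_zero h.sur_ne_zero

theorem sub_ball {x : ℂ} {r : ℝ} (hr : 0 < r) {k : ℕ} {K : KC}
    (hK : K ∈ surK x (r / 4 / 5 ^ k)) : (K : Set ℂ) ⊆ ball x r := by
  refine Subset.trans hK.2 (ball_subset_ball ?_)
  have : r / 4 / 5 ^ k ≤ r / 4 := div_le_self (by positivity) (one_le_pow₀ (by norm_num))
  linarith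

end SurkA

theorem p_SURK (hPPO : S_PPO) (hMUK : S_MUK) :
    S_SURK := by
  intro ν hν c hc U hU x hx
  obtain ⟨r0, hr0, hb⟩ := Metric.isOpen_iff.1 hU x hx
  have := (hMUK ν hν).2.1
  have key : ∀ n : ℕ, ∀ᵐ S ∂soupN ν c U, ∃ K ∈ S.pts,
      K ∈ ⋃ k : ℕ, surK x (r0 / (n + 1) / 4 / 5 ^ k) := fun n => by
    have hr : 0 < r0 / (n + 1) := by positivity
    have hm : MeasurableSet (⋃ k : ℕ, surK x (r0 / (n + 1) / 4 / 5 ^ k)) :=
      MeasurableSet.iUnion fun k => measurableSet_surK _ _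
    refine (hPPO KC _ inferInstance).2.2.2.2.2.2.1 _ hm ?_
    have hs : (⋃ k : ℕ, surK x (r0 / (n + 1) / 4 / 5 ^ k)) ⊆ inK U := by
      refine iUnion_subset fun k K hK => (SurkA.sub_ball hr hK).trans (Subset.trans
        (ball_subset_ball (div_le_self hr0.le ?_)) hb)
      have : (0 : ℝ) ≤ n := Nat.cast_nonneg n
      linarith
    rw [Measure.smul_apply, Measure.restrict_apply hm, inter_eq_left.2 hs, SurkA.mass_top hν x hr,
      smul_eq_mul, ENNReal.mul_top (by simpa using hc)]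
  filter_upwards [ae_all_iff.2 key] with S hS r hr
  obtain ⟨n, hn⟩ := exists_nat_gt (r0 / r)
  obtain ⟨K, hK, hK'⟩ := hS n
  obtain ⟨k, hk⟩ := mem_iUnion.1 hK'
  have hr1 : 0 < r0 / (n + 1) := by positivity
  refine ⟨K, hK, _, by positivity, hk.1, (SurkA.sub_ball hr1 hk).trans (ball_subset_ball ?_)⟩
  rw [div_le_iff₀ (by positivity)]
  rw [div_lt_iff₀ hr] at hn
  nlinarith

end Pool.Agent.P.MP_d66c6d_pr
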